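import Pool.Agent.H73.D2.Tml
import Pool.Agent.H88.D2.Rcv

/-!
# The tube labels of the places of the list against the balls

`wg_tub1`: in a class, on a part of each event with the windows `WG`: the rows (`ROut1`) of the
thin labels of one place `l₀` of the list, over the places before it, for all pairs of windows: the
thin label of the window `o i` against the ball of the window `o j`. `wg_tub`: all places.
-/

set_option autoImplicit false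

namespace Pool.CNC60

open Finset Real MvPolynomial
open Pool.Agent.H49.Ent Pool.Agent.H32.Dense Pool.STK Pool.KA Pool.KSAT Pool.K2S Pool.PB Pool.S6C
open Pool.GEN Pool.CHT Pool.CHX Pool.ISO Pool.D2R Pool.D2G30 Pool.END18 Pool.D2Con Pool.V1E
open Pool.LBT (ThrOf)
open Pool.LEV (Law)
open Pool.FLF (Fam.sub)

variable {m : ℕ}

/-- **The thin labels of the place `l₀`** against the balls, for all pairs of windows. -/
theorem wg_tub1 (m D l₀ : ℕ) (hD : 1 ≤ D) : ∃ C₃ : ℝ, 1 ≤ C₃ ∧ ∀ {S : PCl m} {c : ℕ → Fin m}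
    {r Dr N N₂ : ℕ} {R : ℕ → Prop} {C a Eb ε₀ η₀ : ℝ} {Pt : ℝ → ℝ → ℝ} {o : ℕ → ℝ}
    {lv be : ℕ → ℕ → ℝ}, TmH S → Set.InjOn c (Set.Iio (r + 1)) → l₀ < r → D ≤ Dr → 0 < η₀ →
    η₀ < a → (∀ k ≤ N, 0 < o k ∧ o k < 1) → (∀ k ≤ N, ∀ l < r, o k ≤ lv k l) →
    (∀ k ≤ N, ∀ l < r, a ≤ be k l) →
    (∀ k ≤ N, ∀ l < r, lv k l + (a - o k) + (Eb + 2 * η₀) < 1) →
    (∀ k ≤ N, ∀ l < r, be k l + (Eb + 2 * η₀) < 1) →
    ∃ K₃ : ℝ, 1 ≤ K₃ ∧ ∀ κ : ℝ, 0 ≤ κ → κ * K₃ ≤ 1 → Bas S (fun J F B =>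
      ∀ (b : ℕ → ℕ → ℝ) (z gc gT g₀ : ℕ → ℕ → ℕ)
        (G : ℕ → PtT F → ℕ → MvPolynomial (Option (Fin m)) ℝ)
        (H : ℕ → LnT F → ℕ → MvPolynomial (Option (Fin m)) ℝ)
        (T : ℕ → PtT F → ℕ → MvPolynomial (Option (Fin m)) ℝ)
        (TH : ℕ → LnT F → ℕ → MvPolynomial (Option (Fin m)) ℝ)
        (Gt : ℕ → PtT F → MvPolynomial (Option (Fin m)) ℝ)
        (Ht : ℕ → LnT F → MvPolynomial (Option (Fin m)) ℝ),
        WG c r D Dr N N₂ R C a Eb ε₀ η₀ Pt o lv be F b κ z B gc gT g₀ G H T TH Gt Ht →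
        ∃ B' : F.Ω → Prop, Sub B' B ∧ Pe F.p B ≤ K₃ * Pe F.p B' ∧
          ∀ i ≤ N, ∀ j ≤ N, o i ≤ o j → ∀ q : ℕ, (q : ℝ) + C₃ * (η₀ * J) ≤ gT i l₀ →
            (q : ℝ) + C₃ * (η₀ * J) ≤ gc j l₀ →
            ROut1 F c l₀ ⌊o i * J⌋₊ ⌊o j * J⌋₊ (⌊a * J⌋₊ - ⌊o j * J⌋₊) (g₀ j) (gT j) q
              (2 ^ ⌊C₃ * (η₀ * J)⌋₊) B' (G j) (H j) (T j) (TH j) (fun s => TH i s l₀)) := by
  classical
  obtain ⟨C₂, hC₂, hrow⟩ := rows_out m D l₀ hD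
  have hC₂R : (1 : ℝ) ≤ C₂ := by exact_mod_cast hC₂
  refine ⟨2 * C₂, by linarith, ?_⟩
  intro S c r Dr N N₂ R C a Eb ε₀ η₀ Pt o lv be hS hinj hl₀ hDr hη hηa ho hlow hbta htop hbet
  -- the pairs
  obtain ⟨L, hL⟩ : ∃ L : List (ℕ × ℕ), L = ((List.range (N + 1)).product
    (List.range (N + 1))).filter (fun x => decide (o x.1 ≤ o x.2)) := ⟨_, rfl⟩
  have hLm : ∀ x : ℕ × ℕ, x ∈ L ↔ x.1 ≤ N ∧ x.2 ≤ N ∧ o x.1 ≤ o x.2 := by
    intro x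
    rw [hL, List.mem_filter, List.pair_mem_product, List.mem_range, List.mem_range,
      decide_eq_true_eq, Nat.lt_succ_iff, Nat.lt_succ_iff, and_assoc]
  obtain ⟨Y, hY⟩ : ∃ Y : ℝ, Y = 16 * 4 ^ l₀ := ⟨_, rfl⟩
  have h41 : (1 : ℝ) ≤ 4 ^ l₀ := one_le_pow₀ (by norm_num)
  have hY1 : 1 ≤ Y := by rw [hY]; linarith
  have hY0 : 0 < Y := by linarith
  obtain ⟨n, hn⟩ : ∃ n, n = L.length := ⟨_, rfl⟩
  have hYn : 0 < Y ^ n := pow_pos hY0 _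
  have hYn1 : 0 < Y ^ (n + 1) := pow_pos hY0 _
  refine ⟨Y ^ (n + 1), one_le_pow₀ hY1, fun κ hκ hκY => ?_⟩
  -- the numbers
  have hL2 : 0 < Real.log 2 := Real.log_pos (by norm_num)
  obtain ⟨s₁, hs₁, hs₁l⟩ := fin_pos (N + 1) (f := fun k => min η₀ (min (a - η₀)
    ((1 - o k) * Real.log 2))) fun k hk => by
      have hk' : k ≤ N := by omega
      exact lt_min hη (lt_min (by linarith) (mul_pos (by linarith [(ho k hk').2]) hL2))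
  obtain ⟨s₂, hs₂, hs₂l⟩ := fin_pos ((N + 1) * (r + 1)) (f := fun x => if x % (r + 1) < r then
    1 - (lv (x / (r + 1)) (x % (r + 1)) + (a - o (x / (r + 1))) + (Eb + 2 * η₀)) else 1)
    fun x hx => by
    have h1 : x / (r + 1) < N + 1 := Nat.div_lt_of_lt_mul (by rw [Nat.mul_comm]; exact hx)
    by_cases h2 : x % (r + 1) < r
    · show 0 < if x % (r + 1) < r then _ else _
      rw [if_pos h2]
      have := htop (x / (r + 1)) (by omega) (x % (r + 1)) h2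
      linarith
    · show 0 < if x % (r + 1) < r then _ else (1 : ℝ)
      rw [if_neg h2]
      exact one_pos
  obtain ⟨s₃, hs₃, hs₃l⟩ := fin_pos ((N + 1) * (r + 1)) (f := fun x => if x % (r + 1) < r then
    1 - (be (x / (r + 1)) (x % (r + 1)) + (Eb + 2 * η₀)) else 1) fun x hx => by
    have h1 : x / (r + 1) < N + 1 := Nat.div_lt_of_lt_mul (by rw [Nat.mul_comm]; exact hx)
    by_cases h2 : x % (r + 1) < r
    · show 0 < if x % (r + 1) < r then _ else _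
      rw [if_pos h2]
      have := hbet (x / (r + 1)) (by omega) (x % (r + 1)) h2
      linarith
    · show 0 < if x % (r + 1) < r then _ else (1 : ℝ)
      rw [if_neg h2]
      exact one_pos
  have hidx : ∀ k ≤ N, ∀ l ≤ r, k * (r + 1) + l < (N + 1) * (r + 1) ∧
      (k * (r + 1) + l) / (r + 1) = k ∧ (k * (r + 1) + l) % (r + 1) = l := by
    intro k hk l hl
    refine ⟨?_, ?_, ?_⟩
    · have h1 : k * (r + 1) ≤ N * (r + 1) := Nat.mul_le_mul_right _ hk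
      have h2 : (N + 1) * (r + 1) = N * (r + 1) + (r + 1) := by ring
      omega
    · rw [Nat.add_comm, Nat.add_mul_div_right _ _ (Nat.succ_pos r),
        Nat.div_eq_of_lt (by omega), Nat.zero_add]
    · rw [Nat.add_comm, Nat.add_mul_mod_self_right, Nat.mod_eq_of_lt (by omega)]
  have hS2 : ∀ k ≤ N, ∀ l < r, s₂ ≤ 1 - (lv k l + (a - o k) + (Eb + 2 * η₀)) := by
    intro k hk l hl
    obtain ⟨h1, h2, h3⟩ := hidx k hk l hl.le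
    have h4 := hs₂l _ h1
    simp only [h2, h3, if_pos hl] at h4
    exact h4
  have hS3 : ∀ k ≤ N, ∀ l < r, s₃ ≤ 1 - (be k l + (Eb + 2 * η₀)) := by
    intro k hk l hl
    obtain ⟨h1, h2, h3⟩ := hidx k hk l hl.le
    have h4 := hs₃l _ h1
    simp only [h2, h3, if_pos hl] at h4
    exact h4
  obtain ⟨s, hs⟩ : ∃ s : ℝ, s = min s₁ (min s₂ s₃ / (2 * C₂)) := ⟨_, rfl⟩
  have hs0 : 0 < s := by
    rw [hs]
    exact lt_min hs₁ (div_pos (lt_min hs₂ hs₃) (by linarith))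
  have hss1 : s ≤ s₁ := by rw [hs]; exact min_le_left _ _
  have hss23 : 2 * C₂ * s ≤ min s₂ s₃ := by
    have : s ≤ min s₂ s₃ / (2 * C₂) := by rw [hs]; exact min_le_right _ _
    rw [le_div_iff₀ (by linarith)] at this
    linarith
  obtain ⟨ε₁, J₁, hε₁, hdig⟩ := dig 1 (C₁ := (C₂ : ℝ)) hC₂R hs0
  have htm := Pool.V1E.bas_big (hS.2 ε₁ hε₁) (Y ^ (n + 1))
  obtain ⟨J₂, hJ₂⟩ := big 4 hs0
  have hpos : Bas S (fun _ F A => 0 < Pe F.p A) := ⟨1, one_pos, 0, fun J _ F A hA =>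
    hS.1 1 J F A hA⟩
  refine Bas.mono (max J₁ J₂) (htm.and hpos) ?_
  rintro J hJ F B ⟨htm, hB⟩ b z gc gT g₀ G H T TH Gt Ht W
  have hJ0 : (0 : ℝ) ≤ J := Nat.cast_nonneg J
  obtain ⟨u, hu1, hu2, hu3⟩ := hdig J ((le_max_left _ _).trans hJ)
  have hJs : 4 ≤ s * J := hJ₂ J ((le_max_right _ _).trans hJ)
  have hp := Pe_nonneg F.isLaw
  have hfo : ∀ k ≤ N, (⌊o k * J⌋₊ : ℝ) ≤ o k * J ∧ o k * J < ⌊o k * J⌋₊ + 1 ∧
      ⌊o k * J⌋₊ ≤ ⌊a * J⌋₊ := fun k hk =>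
    ⟨Nat.floor_le (mul_nonneg (ho k hk).1.le hJ0), Nat.lt_floor_add_one _,
      Nat.floor_le_floor (mul_le_mul_of_nonneg_right (W.win.ho k hk).2 hJ0)⟩
  have ha0 : 0 < a := by linarith
  have hfa : (⌊a * J⌋₊ : ℝ) ≤ a * J ∧ a * J < ⌊a * J⌋₊ + 1 :=
    ⟨Nat.floor_le (mul_nonneg ha0.le hJ0), Nat.lt_floor_add_one _⟩
  have hvr : ∀ k ≤ N, ((⌊a * J⌋₊ - ⌊o k * J⌋₊ : ℕ) : ℝ) = ⌊a * J⌋₊ - ⌊o k * J⌋₊ := fun k hk =>
    Nat.cast_sub (hfo k hk).2.2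
  have hEb0 : 0 ≤ Eb + η₀ + η₀ := by linarith [W.win.Eb0]
  have hS1 : ∀ k ≤ N, s ≤ η₀ ∧ s ≤ a - η₀ ∧ s ≤ (1 - o k) * Real.log 2 := fun k hk => by
    have h5 := hss1.trans (hs₁l k (by omega))
    exact ⟨h5.trans (min_le_left _ _), h5.trans ((min_le_right _ _).trans (min_le_left _ _)),
      h5.trans ((min_le_right _ _).trans (min_le_right _ _))⟩
  have hu : ((u : ℝ) + 1) ≤ s * J := by
    push_cast at hu3
    have h5 : (0 : ℝ) ≤ u := Nat.cast_nonneg u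
    linarith
  have hCu : (C₂ : ℝ) * (u + 1) ≤ C₂ * s * J := by
    have := mul_le_mul_of_nonneg_left hu (show (0 : ℝ) ≤ C₂ by linarith)
    linarith
  have hmm : 2 * C₂ * s ≤ s₂ ∧ 2 * C₂ * s ≤ s₃ :=
    ⟨hss23.trans (min_le_left _ _), hss23.trans (min_le_right _ _)⟩
  have hCs : 1 ≤ C₂ * s * J := by
    have : 1 * (s * J) ≤ C₂ * (s * J) := mul_le_mul_of_nonneg_right hC₂R (by positivity)
    linarith
  have hfe : (⌊(Eb + η₀ + η₀) * J⌋₊ : ℝ) ≤ (Eb + η₀ + η₀) * J := Nat.floor_le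
    (mul_nonneg hEb0 hJ0)
  have q1 : ∀ k ≤ N, ∀ l < l₀, 1 ≤ gT k l := by
    intro k hk l hl'
    have hl : l < r := by omega
    have h5 := (hS1 k hk).2.1
    have h6 : s * J ≤ (a - η₀) * J := mul_le_mul_of_nonneg_right h5 hJ0
    by_cases hR : R l
    · have h7 := (W.win.sds k hk).c1 l hl.le
      rw [((W.win.evs k hk).rgh l hl hR).1]
      rw [hvr k hk] at h7
      have h8 := mul_le_mul_of_nonneg_right (hlow k hk l hl) hJ0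
      have h9 := hfo k hk
      have h10 : (1 : ℝ) ≤ gc k l := by linarith [hfa.2]
      exact_mod_cast h10
    · have h7 := (W.win.sds k hk).t1 l hl hR
      have h8 := mul_le_mul_of_nonneg_right (hbta k hk l hl) hJ0
      have h10 : (1 : ℝ) ≤ gT k l := by linarith
      exact_mod_cast h10
  have q2 : ∀ k ≤ N, ∀ l ≤ l₀, ⌊(Eb + η₀ + η₀) * J⌋₊ + g₀ k l + C₂ * (u + 1) ≤ J := by
    intro k hk l hl'
    have hl : l < r := by omega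
    have h5 := (W.win.sds k hk).b2 l hl.le
    have h7 := mul_le_mul_of_nonneg_right (hS2 k hk l hl) hJ0
    have h8 := mul_le_mul_of_nonneg_right hmm.1 hJ0
    have h9 : 0 ≤ (a - o k) * J := mul_nonneg (by linarith [(W.win.ho k hk).2]) hJ0
    have h10 : ((⌊(Eb + η₀ + η₀) * J⌋₊ + g₀ k l + C₂ * (u + 1) : ℕ) : ℝ) ≤ J := by
      push_cast
      linarith
    exact_mod_cast h10
  have q3 : ∀ k ≤ N, ∀ l < l₀, ⌊(Eb + η₀ + η₀) * J⌋₊ + gT k l + C₂ * (u + 1) ≤ J := by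
    intro k hk l hl'
    have hl : l < r := by omega
    have hε := mul_nonneg (W.win.hε k hk) hJ0
    by_cases hR : R l
    · have h5 := (W.win.sds k hk).c2 l hl.le
      rw [((W.win.evs k hk).rgh l hl hR).1]
      rw [hvr k hk] at h5
      have h7 := mul_le_mul_of_nonneg_right (hS2 k hk l hl) hJ0
      have h8 := mul_le_mul_of_nonneg_right hmm.1 hJ0
      have h9 := hfo k hk
      have h10 : ((⌊(Eb + η₀ + η₀) * J⌋₊ + gc k l + C₂ * (u + 1) : ℕ) : ℝ) ≤ J := by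
        push_cast
        linarith [hfa.1]
      exact_mod_cast h10
    · have h5 := (W.win.sds k hk).t2 l hl hR
      have h7 := mul_le_mul_of_nonneg_right (hS3 k hk l hl) hJ0
      have h8 := mul_le_mul_of_nonneg_right hmm.2 hJ0
      have h10 : ((⌊(Eb + η₀ + η₀) * J⌋₊ + gT k l + C₂ * (u + 1) : ℕ) : ℝ) ≤ J := by
        push_cast
        linarith
      exact_mod_cast h10
  have q4 : ∀ k ≤ N, (C₂ : ℝ) * (ε₁ * J + 1) ≤ ((J : ℝ) - ⌊o k * J⌋₊) * Real.log 2 := by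
    intro k hk
    have h5 := mul_le_mul_of_nonneg_right (hS1 k hk).2.2 hJ0
    have h6 := mul_le_mul_of_nonneg_right (hfo k hk).1 hL2.le
    linarith
  have q5 : ∀ x ∈ L, x.1 ≤ N ∧ x.2 ≤ N ∧ ⌊o x.1 * J⌋₊ ≤ ⌊o x.2 * J⌋₊ := by
    intro x hx
    obtain ⟨h5, h6, h7⟩ := (hLm x).1 hx
    exact ⟨h5, h6, Nat.floor_le_floor (mul_le_mul_of_nonneg_right h7 hJ0)⟩
  have q6 : ∀ (B₁ : F.Ω → Prop) (hB₁ : 0 < Pe F.p B₁), Sub B₁ B →
      Pe F.p B ≤ (16 * 4 ^ l₀) ^ (L.length + 1) * Pe F.p B₁ →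
        (Fam.sub F B₁ hB₁).Tm (ε₁ * J) := by
    intro B₁ hB₁ s1 s2
    rw [← hY, ← hn] at s2
    exact htm B₁ s1 s2 hB₁
  have hinj' : Set.InjOn c (Set.Iio (l₀ + 1)) := hinj.mono fun x hx => by
    rw [Set.mem_Iio] at hx ⊢
    omega
  have hinj'' : Set.InjOn c (Set.Iio r) := hinj.mono fun x hx => by
    rw [Set.mem_Iio] at hx ⊢
    omega
  obtain ⟨B', l1, l2, l3⟩ := hrow (N := N) (k := u) (w := fun k => ⌊o k * J⌋₊)
    (v := fun k => ⌊a * J⌋₊ - ⌊o k * J⌋₊) (M := fun _ => N₂)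
    (e := fun k => ⌊(Eb + η₀ + η₀) * J⌋₊) (h := fun k => ⌊η₀ * J⌋₊)
    (p := fun k => gT k l₀) (z := z) (g := fun k l => ⌊b k l * J⌋₊) (gc := gc) (gT := gT)
    (g₀ := g₀) (R := R) (θ := ε₁ * J) (G := G) (H := H) (T := T) (TH := TH)
    (Gt := fun k y => T k y l₀) (Ht := fun k s => TH k s l₀)
    (Dr := Dr) hinj' (fun k hk => by
      have h5 := (hfo k hk).1
      have h6 : o k * (J : ℝ) ≤ 1 * J := mul_le_mul_of_nonneg_right (ho k hk).2.le hJ0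
      have h7 : (⌊o k * J⌋₊ : ℝ) ≤ J := by linarith
      exact_mod_cast h7) (fun i hi j hj => by
      have h5 := (hfo i hi).2.2
      have h6 := (hfo j hj).2.2
      show ⌊o i * J⌋₊ + (⌊a * J⌋₊ - ⌊o i * J⌋₊) = ⌊o j * J⌋₊ + (⌊a * J⌋₊ - ⌊o j * J⌋₊)
      omega) hDr q1 q2 q3
    (mul_nonneg hε₁.le hJ0) q4 hu1 L q5 κ B hκ hB
    (fun k hk => Pool.RCV.evS_tgt hinj'' (W.win.evs k hk) hl₀)
    (by rw [← hY, ← hn]; exact hκY) q6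
  refine ⟨B', l1, ?_, fun i hi j hj hij q q1 q2 => ?_⟩
  · rw [← hY, ← hn] at l2
    refine l2.trans (mul_le_mul_of_nonneg_right ?_ (hp _))
    exact pow_le_pow_right₀ hY1 (Nat.le_succ n)
  · have h5 : (⌊η₀ * J⌋₊ : ℝ) ≤ η₀ * J := Nat.floor_le (mul_nonneg hη.le hJ0)
    have h6 : 0 ≤ η₀ * J := mul_nonneg hη.le hJ0
    have h7 : s * J ≤ η₀ * J := mul_le_mul_of_nonneg_right (hS1 j hj).1 hJ0
    have h8 : (C₂ : ℝ) * (⌊η₀ * J⌋₊ + 1) ≤ 2 * C₂ * (η₀ * J) := by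
      have h9 : (C₂ : ℝ) * (⌊η₀ * J⌋₊ + 1) ≤ C₂ * (2 * (η₀ * J)) :=
        mul_le_mul_of_nonneg_left (by linarith) (by linarith)
      linarith
    have h9 := l3 (i, j) ((hLm (i, j)).2 ⟨hi, hj, hij⟩) q (by
      have h10 : ((q + C₂ * (⌊η₀ * J⌋₊ + 1) : ℕ) : ℝ) ≤ gT i l₀ := by
        push_cast
        linarith
      exact_mod_cast h10) (by
      have h10 : ((q + C₂ * (⌊η₀ * J⌋₊ + 1) : ℕ) : ℝ) ≤ gc j l₀ := by
        push_cast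
        linarith
      exact_mod_cast h10)
    refine h9.mono le_rfl (by positivity) (pow_le_pow_right₀ (by norm_num) (Nat.le_floor ?_))
    push_cast
    have h10 : (C₂ : ℝ) * (⌊η₀ * J⌋₊ + u + 1) ≤ C₂ * (2 * (η₀ * J)) :=
      mul_le_mul_of_nonneg_left (by linarith) (by linarith)
    linarith

/-- **The rows of the thin labels of all places** of the list, for all pairs of windows: the thin
label of the window `o i` against the ball of the window `o j`. -/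
def TubR {J : ℕ} (F : Fam m J) (c : ℕ → Fin m) (r N : ℕ) (C₃ a η₀ : ℝ) (o : ℕ → ℝ)
    (gc gT g₀ : ℕ → ℕ → ℕ) (B : F.Ω → Prop)
    (G : ℕ → PtT F → ℕ → MvPolynomial (Option (Fin m)) ℝ)
    (H : ℕ → LnT F → ℕ → MvPolynomial (Option (Fin m)) ℝ)
    (T : ℕ → PtT F → ℕ → MvPolynomial (Option (Fin m)) ℝ)
    (TH : ℕ → LnT F → ℕ → MvPolynomial (Option (Fin m)) ℝ) : Prop :=
  ∀ l < r, ∀ i ≤ N, ∀ j ≤ N, o i ≤ o j → ∀ q : ℕ, (q : ℝ) + C₃ * (η₀ * J) ≤ gT i l →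
    (q : ℝ) + C₃ * (η₀ * J) ≤ gc j l →
    ROut1 F c l ⌊o i * J⌋₊ ⌊o j * J⌋₊ (⌊a * J⌋₊ - ⌊o j * J⌋₊) (g₀ j) (gT j) q
      (2 ^ ⌊C₃ * (η₀ * J)⌋₊) B (G j) (H j) (T j) (TH j) (fun s => TH i s l)

section

variable {J : ℕ} {F : Fam m J} {c : ℕ → Fin m} {r N : ℕ} {C₃ C₄ a η₀ : ℝ} {o : ℕ → ℝ}
    {gc gT g₀ : ℕ → ℕ → ℕ} {B B' : F.Ω → Prop}
    {G : ℕ → PtT F → ℕ → MvPolynomial (Option (Fin m)) ℝ}
    {H : ℕ → LnT F → ℕ → MvPolynomial (Option (Fin m)) ℝ}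
    {T : ℕ → PtT F → ℕ → MvPolynomial (Option (Fin m)) ℝ}
    {TH : ℕ → LnT F → ℕ → MvPolynomial (Option (Fin m)) ℝ}

theorem TubR.sub (h : TubR F c r N C₃ a η₀ o gc gT g₀ B G H T TH) (hB : Sub B' B) :
    TubR F c r N C₃ a η₀ o gc gT g₀ B' G H T TH :=
  fun l hl i hi j hj hij q h1 h2 => (h l hl i hi j hj hij q h1 h2).sub hB

theorem TubR.mono (h : TubR F c r N C₃ a η₀ o gc gT g₀ B G H T TH) (hη : 0 ≤ η₀)
    (hC : C₃ ≤ C₄) : TubR F c r N C₄ a η₀ o gc gT g₀ B G H T TH := by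
  have hJ : (0 : ℝ) ≤ J := Nat.cast_nonneg J
  have h0 : C₃ * (η₀ * J) ≤ C₄ * (η₀ * J) :=
    mul_le_mul_of_nonneg_right hC (mul_nonneg hη hJ)
  exact fun l hl i hi j hj hij q h1 h2 => (h l hl i hi j hj hij q (by linarith)
    (by linarith)).mono le_rfl (by positivity) (pow_le_pow_right₀ (by norm_num)
    (Nat.floor_le_floor h0))

end

/-- **The rows of the thin labels of all places**, in a class. -/
theorem wg_tub (m D r : ℕ) (hD : 1 ≤ D) : ∃ C₃ : ℝ, 1 ≤ C₃ ∧ ∀ {S : PCl m} {c : ℕ → Fin m}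
    {Dr N N₂ : ℕ} {R : ℕ → Prop} {C a Eb ε₀ η₀ : ℝ} {Pt : ℝ → ℝ → ℝ} {o : ℕ → ℝ}
    {lv be : ℕ → ℕ → ℝ}, TmH S → Set.InjOn c (Set.Iio (r + 1)) → D ≤ Dr → 0 < η₀ →
    η₀ < a → (∀ k ≤ N, 0 < o k ∧ o k < 1) → (∀ k ≤ N, ∀ l < r, o k ≤ lv k l) →
    (∀ k ≤ N, ∀ l < r, a ≤ be k l) →
    (∀ k ≤ N, ∀ l < r, lv k l + (a - o k) + (Eb + 2 * η₀) < 1) →
    (∀ k ≤ N, ∀ l < r, be k l + (Eb + 2 * η₀) < 1) →
    ∃ K₃ : ℝ, 1 ≤ K₃ ∧ ∀ κ : ℝ, 0 ≤ κ → κ * K₃ ≤ 1 → Bas S (fun J F B =>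
      ∀ (b : ℕ → ℕ → ℝ) (z gc gT g₀ : ℕ → ℕ → ℕ)
        (G : ℕ → PtT F → ℕ → MvPolynomial (Option (Fin m)) ℝ)
        (H : ℕ → LnT F → ℕ → MvPolynomial (Option (Fin m)) ℝ)
        (T : ℕ → PtT F → ℕ → MvPolynomial (Option (Fin m)) ℝ)
        (TH : ℕ → LnT F → ℕ → MvPolynomial (Option (Fin m)) ℝ)
        (Gt : ℕ → PtT F → MvPolynomial (Option (Fin m)) ℝ)
        (Ht : ℕ → LnT F → MvPolynomial (Option (Fin m)) ℝ),
        WG c r D Dr N N₂ R C a Eb ε₀ η₀ Pt o lv be F b κ z B gc gT g₀ G H T TH Gt Ht →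
        ∃ B' : F.Ω → Prop, Sub B' B ∧ Pe F.p B ≤ K₃ * Pe F.p B' ∧
          TubR F c r N C₃ a η₀ o gc gT g₀ B' G H T TH) := by
  classical
  have h0 := fun l : ℕ => wg_tub1 m D l hD
  choose Cl hCl h0 using h0
  obtain ⟨C₃, hC₃⟩ : ∃ C₃ : ℝ, C₃ = 1 + ∑ l ∈ range r, Cl l := ⟨_, rfl⟩
  have hsum : ∀ l < r, Cl l ≤ C₃ := by
    intro l hl
    have h1 := Finset.single_le_sum (f := Cl) (s := range r)
      (fun i _ => le_trans zero_le_one (hCl i)) (mem_range.2 hl)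
    linarith
  refine ⟨C₃, by
    have : 0 ≤ ∑ l ∈ range r, Cl l := Finset.sum_nonneg fun i _ => le_trans zero_le_one (hCl i)
    linarith, ?_⟩
  intro S c Dr N N₂ R C a Eb ε₀ η₀ Pt o lv be hS hinj hDr hη hηa ho hlow hbta htop hbet
  -- the places one after the other
  have key : ∀ n ≤ r, ∃ K₃ : ℝ, 1 ≤ K₃ ∧ ∀ κ : ℝ, 0 ≤ κ → κ * K₃ ≤ 1 → Bas S (fun J F B =>
      ∀ (b : ℕ → ℕ → ℝ) (z gc gT g₀ : ℕ → ℕ → ℕ)
        (G : ℕ → PtT F → ℕ → MvPolynomial (Option (Fin m)) ℝ)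
        (H : ℕ → LnT F → ℕ → MvPolynomial (Option (Fin m)) ℝ)
        (T : ℕ → PtT F → ℕ → MvPolynomial (Option (Fin m)) ℝ)
        (TH : ℕ → LnT F → ℕ → MvPolynomial (Option (Fin m)) ℝ)
        (Gt : ℕ → PtT F → MvPolynomial (Option (Fin m)) ℝ)
        (Ht : ℕ → LnT F → MvPolynomial (Option (Fin m)) ℝ),
        WG c r D Dr N N₂ R C a Eb ε₀ η₀ Pt o lv be F b κ z B gc gT g₀ G H T TH Gt Ht →
        ∃ B' : F.Ω → Prop, Sub B' B ∧ Pe F.p B ≤ K₃ * Pe F.p B' ∧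
          TubR F c n N C₃ a η₀ o gc gT g₀ B' G H T TH) := by
    intro n
    induction n with
    | zero =>
      intro _
      refine ⟨1, le_rfl, fun κ _ _ => ⟨1, one_pos, 0, fun J _ F B _ b z gc gT g₀ G H T TH Gt Ht _ =>
        ⟨B, fun _ h => h, by rw [one_mul], fun l hl => absurd hl (Nat.not_lt_zero l)⟩⟩⟩
    | succ n ih =>
      intro hn
      obtain ⟨K₁, hK₁, h1⟩ := ih (by omega)
      obtain ⟨K₂, hK₂, h2⟩ := h0 n (S := S) (c := c) (r := r) (Dr := Dr) (N := N) (N₂ := N₂)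
        (R := R) (C := C) (a := a) (Eb := Eb) (ε₀ := ε₀) (η₀ := η₀) (Pt := Pt) (o := o)
        (lv := lv) (be := be) hS hinj (by omega) hDr hη hηa ho hlow hbta htop hbet
      have hK₁0 : 0 < K₁ := by linarith
      have hK₂0 : 0 < K₂ := by linarith
      refine ⟨K₁ * K₂, by nlinarith, fun κ hκ hκK => ?_⟩
      have hκ1 : κ * K₁ ≤ 1 := by
        refine le_trans ?_ hκK
        rw [← mul_assoc]
        exact le_mul_of_one_le_right (mul_nonneg hκ hK₁0.le) hK₂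
      have a1 := h1 κ hκ hκ1
      have a2 := h2 (κ * K₁) (mul_nonneg hκ hK₁0.le) (by rw [mul_assoc]; exact hκK)
      refine Bas.mono 0 (a1.and (Pool.V1E.bas_big a2 K₁)) ?_
      rintro J - F B ⟨b1, b2⟩ b z gc gT g₀ G H T TH Gt Ht W
      obtain ⟨B₁, c1, c2, c3⟩ := b1 b z gc gT g₀ G H T TH Gt Ht W
      have W' := W.res (κ₁ := 1 / K₁) (κ₂ := κ * K₁) c1 (by
        rw [one_div_mul_eq_div, div_le_iff₀ hK₁0, mul_comm]
        exact c2) (mul_nonneg hκ hK₁0.le) (by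
        rw [mul_one_div, mul_div_assoc, div_self hK₁0.ne', mul_one])
      obtain ⟨B₂, d1, d2, d3⟩ := b2 B₁ c1 c2 b z gc gT g₀ G H T TH Gt Ht W'
      refine ⟨B₂, fun ω hω => c1 ω (d1 ω hω), ?_, fun l hl i hi j hj hij q q1 q2 => ?_⟩
      · calc Pe F.p B ≤ K₁ * Pe F.p B₁ := c2
          _ ≤ K₁ * (K₂ * Pe F.p B₂) := mul_le_mul_of_nonneg_left d2 hK₁0.le
          _ = _ := by ring
      · rcases Nat.lt_succ_iff_lt_or_eq.1 hl with h3 | h3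
        · exact (c3 l h3 i hi j hj hij q q1 q2).sub d1
        · rw [h3] at q1 q2 ⊢
          have hJ0 : (0 : ℝ) ≤ J := Nat.cast_nonneg J
          have h4 : Cl n * (η₀ * J) ≤ C₃ * (η₀ * J) :=
            mul_le_mul_of_nonneg_right (hsum n (by omega)) (mul_nonneg hη.le hJ0)
          exact (d3 i hi j hj hij q (by linarith) (by linarith)).mono le_rfl (by positivity)
            (pow_le_pow_right₀ (by norm_num) (Nat.floor_le_floor h4))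
  exact key r le_rfl

/-- **Row windows, chain windows and the rows of the thin labels, in a class.** -/
theorem wgt_con (m r S₀ : ℕ) (hr : 1 ≤ r) (hS₀ : 1 ≤ S₀) : ∃ D : ℕ, 1 ≤ D ∧ ∀ Dr : ℕ, D ≤ Dr →
    ∃ C C₃ : ℝ, 1 ≤ C ∧ 1 ≤ C₃ ∧ ∀ {S : PCl m} {P : List (Fin m) × Fin m → ℝ → ℝ → ℝ} {θ : ℝ}
    {c : ℕ → Fin m} {Pt : ℝ → ℝ → ℝ} {R : ℕ → Prop} {a Eb ε₀ η₀ : ℝ} {o : ℕ → ℝ} (N N₂ : ℕ),
    N ≤ N₂ → ThrOf (chsys m θ) S P → 0 < θ → TmH S → Set.InjOn c (Set.Iio (r + 1)) → Law Pt →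
    0 ≤ Eb → (∀ k ≤ N, WinD S P θ c r Pt a (o k) S₀ Eb ε₀ R) →
    (∀ k, N < k → k ≤ N₂ → BalD S P θ c r Pt a (o k) S₀ Eb) → C * ε₀ < η₀ →
    (∀ k ≤ N, 3 * (C * η₀) ≤ o k ∧ 3 * (C * η₀) ≤ Pt a (o k) ∧
      3 * (C * η₀) ≤ lvN P c r Pt r (o k) (o k)) → (∀ k ≤ N₂, o k + 4 * (C * η₀) ≤ a) → a ≤ 1 →
    (∀ k ≤ N, ∀ l ≤ r, lvN P c r Pt l (o k) (o k) + (a - o k) + (Eb + 2 * η₀) < 1) →
    (∀ k ≤ N, ∀ l < r, bet P c l a (o k) + (Eb + 2 * η₀) < 1) →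
    ∃ (K₁ : ℝ) (b : ℕ → ℕ → ℝ), 0 < K₁ ∧ ∀ κ : ℝ, 0 < κ → Bas S (fun J F A =>
      ∃ (B : F.Ω → Prop) (z gc gT g₀ : ℕ → ℕ → ℕ)
        (G : ℕ → PtT F → ℕ → MvPolynomial (Option (Fin m)) ℝ)
        (H : ℕ → LnT F → ℕ → MvPolynomial (Option (Fin m)) ℝ)
        (T : ℕ → PtT F → ℕ → MvPolynomial (Option (Fin m)) ℝ)
        (TH : ℕ → LnT F → ℕ → MvPolynomial (Option (Fin m)) ℝ)
        (Gt : ℕ → PtT F → MvPolynomial (Option (Fin m)) ℝ)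
        (Ht : ℕ → LnT F → MvPolynomial (Option (Fin m)) ℝ), Sub B A ∧
        Pe F.p A ≤ K₁ * Pe F.p B ∧
        WG c r D Dr N N₂ R C a Eb ε₀ η₀ Pt o (fun k l => lvN P c r Pt l (o k) (o k))
          (fun k l => bet P c l a (o k)) F b κ z B gc gT g₀ G H T TH Gt Ht ∧
        TubR F c r N C₃ a η₀ o gc gT g₀ B G H T TH) := by
  obtain ⟨D, hD, hwg⟩ := wg_con m r S₀ hr hS₀
  refine ⟨D, hD, fun Dr hDr => ?_⟩
  obtain ⟨C, hC, hwg⟩ := hwg Dr hDr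
  obtain ⟨C₃, hC₃, htb⟩ := wg_tub m D r hD
  refine ⟨C, C₃, hC, hC₃, ?_⟩
  intro S P θ c Pt R a Eb ε₀ η₀ o N N₂ hN hP hθ hS hinj hPt hEb hW hWb hεη h3o hoa ha1 htop hbet
  have hε₀ : 0 ≤ ε₀ := (hW 0 (by norm_num)).ε0
  have hη0 : 0 < η₀ := lt_of_le_of_lt (mul_nonneg (by linarith) hε₀) hεη
  have hCη : η₀ ≤ C * η₀ := le_mul_of_one_le_left hη0.le hC
  obtain ⟨K₁, b, hK₁, hb⟩ := hwg (S := S) (P := P) (θ := θ) (c := c) (Pt := Pt) (R := R) (a := a)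
    (Eb := Eb) (ε₀ := ε₀) (η₀ := η₀) (o := o) N N₂ hN hP hθ hS hinj hPt hEb hW hWb hεη h3o hoa
    ha1 htop hbet
  have hdw : ∀ k ≤ N, 0 < o k ∧ o k < 1 ∧ ∀ l : ℕ, o k ≤ lvN P c r Pt l (o k) (o k) := by
    intro k hk
    obtain ⟨ρ, vs, e, e₀, E, sg, Q, d1, -⟩ := (hW k hk).dw
    exact ⟨d1.w0, d1.a1, fun l => d1.low hP l⟩
  have hbta : ∀ k ≤ N, ∀ l < r, a ≤ bet P c l a (o k) := fun k hk l hl => by
    obtain ⟨ρ, vs, e, e₀, E, sg, Q, d1, -, -⟩ := (hW k hk).da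
    exact hP.low _ _ _ (hdw k hk).1.le (hW k hk).lt.le d1.a1.le
  obtain ⟨K₃, hK₃, ht⟩ := htb (S := S) (c := c) (Dr := Dr) (N := N) (N₂ := N₂) (R := R) (C := C)
    (a := a) (Eb := Eb) (ε₀ := ε₀) (η₀ := η₀) (Pt := Pt) (o := o)
    (lv := fun k l => lvN P c r Pt l (o k) (o k)) (be := fun k l => bet P c l a (o k)) hS hinj hDr
    hη0 (by linarith [hoa 0 (by omega), (hdw 0 (by omega)).1])
    (fun k hk => ⟨(hdw k hk).1, (hdw k hk).2.1⟩) (fun k hk l _ => (hdw k hk).2.2 l) hbta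
    (fun k hk l hl => htop k hk l hl.le) hbet
  have hK₃0 : 0 < K₃ := by linarith
  refine ⟨K₁ * K₃, b, by positivity, fun κ hκ => ?_⟩
  obtain ⟨κ', hκ'⟩ : ∃ κ' : ℝ, κ' = min κ 1 / K₃ := ⟨_, rfl⟩
  have hκ'0 : 0 < κ' := by rw [hκ']; exact div_pos (lt_min hκ one_pos) hK₃0
  have hκ'1 : κ' * K₃ ≤ 1 := by
    rw [hκ', div_mul_cancel₀ _ hK₃0.ne']
    exact min_le_right _ _
  have hκ'2 : κ' * K₃ ≤ κ := by
    rw [hκ', div_mul_cancel₀ _ hK₃0.ne']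
    exact min_le_left _ _
  refine Bas.mono 0 ((hb κ' hκ'0).and (Pool.V1E.bas_big (ht κ' hκ'0.le hκ'1) K₁)) ?_
  rintro J - F A ⟨⟨B, z, gc, gT, g₀, G, H, T, TH, Gt, Ht, c1, c2, W⟩, h2⟩
  obtain ⟨B', d1, d2, d3⟩ := h2 B c1 c2 b z gc gT g₀ G H T TH Gt Ht W
  refine ⟨B', z, gc, gT, g₀, G, H, T, TH, Gt, Ht, fun ω hω => c1 ω (d1 ω hω), ?_, ?_, d3⟩
  · calc Pe F.p A ≤ K₁ * Pe F.p B := c2
      _ ≤ K₁ * (K₃ * Pe F.p B') := mul_le_mul_of_nonneg_left d2 hK₁.le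
      _ = _ := by ring
  · exact W.res (κ₁ := 1 / K₃) (κ₂ := κ) d1 (by
      rw [one_div_mul_eq_div, div_le_iff₀ hK₃0, mul_comm]
      exact d2) hκ.le (by
      rw [mul_one_div, le_div_iff₀ hK₃0]
      exact hκ'2)

end Pool.CNC60
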