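import Pool.Agent.H60.CNC.Lin
import Pool.Agent.H60.CNC.Tub
import Pool.Agent.H76.CNC.Bll
import Pool.Agent.H99.D2.Hes

/-!
# The tube of the line in an affine frame

`tub_ev`: the windows `f j`, `t ≤ j ≤ n`, on the event of `WG` and `TubR`; the closed path is the
own line in the coordinates of the frame, the closed tube polynomial is the thin label of `c 2` of
the window `f t`.
-/

set_option autoImplicit false

namespace Pool.CNC60

open Finset Real MvPolynomial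
open Pool.Agent.H49.Ent Pool.Agent.H32.Dense Pool.STK Pool.KA Pool.KSAT Pool.K2S Pool.PB Pool.S6C
open Pool.GEN Pool.CHT Pool.CHX Pool.ISO Pool.D2R Pool.D2G30 Pool.V1E
open Pool.CR99 Pool.AFF82 Pool.CNC76
open Pool.PB.Trl (rt rt_mem t_rt)

variable {m J : ℕ}

/-- The derivative of a polynomial in the time only, in a direction without time. -/
theorem dd_zero {c : ℕ → Fin m} {Q : MvPolynomial (Option (Fin m)) ℝ} {r : ℕ} (hQ : DepC c r Q)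
    (x : Option (Fin m) → ℝ) {V : Option (Fin m) → ℝ} (hV : V none = 0)
    (h : ∀ l < r, V (some (c l)) = 0) : dd Q x V = 0 := by
  have h1 := dd_congr hQ x (W := V) (V := 0) (by rw [hV]; rfl) fun l hl => by rw [h l hl]; rfl
  rw [h1]
  unfold dd
  exact Finset.sum_eq_zero fun o _ => by rw [Pi.zero_apply, mul_zero]

section afv

variable {c : ℕ → Fin m} {Nf : AfN} {w s0 s1 : ℕ} {v : ℝ}

theorem afv1_none : afv c Nf w s0 s1 1 v none = 0 := by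
  unfold afv
  rw [if_pos rfl]
  rfl

theorem afv2_none : afv c Nf w s0 s1 2 v none = 0 := by
  unfold afv
  rw [if_pos rfl]
  rfl

theorem afv1_0 : afv c Nf w s0 s1 1 v (some (c 0)) = 1 / 2 ^ s0 := by
  unfold afv
  rw [if_neg (by simp), if_pos rfl]
  rfl

theorem afv2_0 : afv c Nf w s0 s1 2 v (some (c 0)) = 0 := by
  unfold afv
  rw [if_neg (by simp), if_pos rfl]
  rfl

theorem afv1_1 (h : c 1 ≠ c 0) : afv c Nf w s0 s1 1 v (some (c 1)) = Nf.a2 / 2 ^ s0 := by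
  unfold afv
  rw [if_neg (by simp), if_neg (fun e => h (Option.some_injective _ e)), if_pos rfl]
  rfl

theorem afv2_1 (h : c 1 ≠ c 0) : afv c Nf w s0 s1 2 v (some (c 1)) = 1 / 2 ^ s1 := by
  unfold afv
  rw [if_neg (by simp), if_neg (fun e => h (Option.some_injective _ e)), if_pos rfl]
  rfl

/-- **The natural norms** of the two vectors of the frame. -/
theorem nrm_fr (h : c 1 ≠ c 0) {ψ : ℕ → MvPolynomial (Option (Fin m)) ℝ}
    (hψ : ∀ l, DepC c l (ψ l)) (g : ℕ → ℕ) (a : ℕ) (x : Option (Fin m) → ℝ) :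
    nrm c ψ g a 2 x (afv c Nf w s0 s1 1 v) = 2 ^ g 0 / 2 ^ s0 +
      2 ^ g 1 * |Nf.a2 - eval x (pderiv (some (c 0)) (ψ 1))| / 2 ^ s0 ∧
    nrm c ψ g a 2 x (afv c Nf w s0 s1 2 v) = 2 ^ g 1 / 2 ^ s1 := by
  have hs0 : (0 : ℝ) < 2 ^ s0 := by positivity
  have hs1 : (0 : ℝ) < 2 ^ s1 := by positivity
  constructor
  · have h0 : dd (ψ 0) x (afv c Nf w s0 s1 1 v) = 0 :=
      dd_zero (hψ 0) x afv1_none fun l hl => absurd hl (Nat.not_lt_zero l)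
    have h1 : dd (ψ 1) x (afv c Nf w s0 s1 1 v) =
        1 / 2 ^ s0 * eval x (pderiv (some (c 0)) (ψ 1)) := by
      rw [← dd_eu, ← dd_smul]
      refine dd_congr (hψ 1) x ?_ fun l hl => ?_
      · rw [afv1_none, Pi.smul_apply]
        show 0 = 1 / 2 ^ s0 * (eu (c 0) none : ℝ)
        have : (eu (c 0) none : ℝ) = 0 := if_neg (by simp)
        rw [this, mul_zero]
      · have : l = 0 := by omega
        subst this
        rw [afv1_0, Pi.smul_apply]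
        show _ = 1 / 2 ^ s0 * (eu (c 0) (some (c 0)) : ℝ)
        have : (eu (c 0) (some (c 0)) : ℝ) = 1 := if_pos rfl
        rw [this, mul_one]
    unfold nrm
    rw [Finset.sum_range_succ, Finset.sum_range_succ, Finset.sum_range_zero, afv1_none, afv1_0,
      afv1_1 h, h0, h1, abs_zero, mul_zero, sub_zero, zero_add, zero_add,
      abs_of_pos (by positivity : (0 : ℝ) < 1 / 2 ^ s0)]
    have e1 : Nf.a2 / 2 ^ s0 - 1 / 2 ^ s0 * eval x (pderiv (some (c 0)) (ψ 1)) =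
        (Nf.a2 - eval x (pderiv (some (c 0)) (ψ 1))) / 2 ^ s0 := by ring
    rw [e1, abs_div, abs_of_pos hs0]
    ring
  · have h0 : dd (ψ 0) x (afv c Nf w s0 s1 2 v) = 0 :=
      dd_zero (hψ 0) x afv2_none fun l hl => absurd hl (Nat.not_lt_zero l)
    have h1 : dd (ψ 1) x (afv c Nf w s0 s1 2 v) = 0 :=
      dd_zero (hψ 1) x afv2_none fun l hl => by
        have : l = 0 := by omega
        subst this
        exact afv2_0
    unfold nrm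
    rw [Finset.sum_range_succ, Finset.sum_range_succ, Finset.sum_range_zero, afv2_none, afv2_0,
      afv2_1 h, h0, h1, abs_zero, mul_zero, sub_zero, abs_zero, mul_zero, sub_zero, zero_add,
      zero_add, zero_add, abs_of_pos (by positivity : (0 : ℝ) < 1 / 2 ^ s1)]
    ring

end afv

/-- The own line in the coordinates of the frame, as a closed path. -/
noncomputable def pth (Y X : Fin 3 → ℝ) (i : Fin 3) : Polynomial ℝ :=
  Polynomial.C (Y i - Y 0 * X i) + Polynomial.C (X i) * Polynomial.X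

theorem eval_pth (Y X : Fin 3 → ℝ) (i : Fin 3) (τ : ℝ) :
    (pth Y X i).eval τ = Y i + (τ - Y 0) * X i := by
  unfold pth
  simp only [Polynomial.eval_add, Polynomial.eval_mul, Polynomial.eval_C, Polynomial.eval_X]
  ring

/-- The point of the path. -/
theorem pth_afc (F : Fam m J) (c : ℕ → Fin m) (Nf : AfN) (w s0 s1 : ℕ) (ω : F.Ω) (τ : ℝ) :
    (fun i => (pth (afc c Nf w s0 s1 (bt F ω)) (vlc c Nf w s0 s1 (bd F ω)) i).eval τ) =
      afc c Nf w s0 s1 (pl F ω ((τ - afc c Nf w s0 s1 (bt F ω) 0) / 2 ^ w)) := by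
  funext i
  rw [eval_pth]
  have h1 := afc_add (c := c) (N := Nf) (o := w) (s0 := s0) (s1 := s1) (bt F ω) (bd F ω)
    ((τ - afc c Nf w s0 s1 (bt F ω) 0) / 2 ^ w) i
  have e1 : afc c Nf w s0 s1 (pl F ω ((τ - afc c Nf w s0 s1 (bt F ω) 0) / 2 ^ w)) i =
      afc c Nf w s0 s1 (fun k => bt F ω k + (τ - afc c Nf w s0 s1 (bt F ω) 0) / 2 ^ w *
        bd F ω k) i := rfl
  rw [e1, h1]
  have e2 : (2 : ℝ) ^ w * ((τ - afc c Nf w s0 s1 (bt F ω) 0) / 2 ^ w) =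
      τ - afc c Nf w s0 s1 (bt F ω) 0 := by field_simp
  rw [e2]

/-- The path is a function of the code of the line. -/
theorem pth_cls (F : Fam m J) (c : ℕ → Fin m) (Nf : AfN) (w s0 s1 : ℕ) {a : ℕ} (ha : a ≤ J)
    {ω ν : F.Ω} (h : slam F a ω = slam F a ν) :
    pth (afc c Nf w s0 s1 (bt F ω)) (vlc c Nf w s0 s1 (bd F ω)) =
      pth (afc c Nf w s0 s1 (bt F ν)) (vlc c Nf w s0 s1 (bd F ν)) := by
  have hX : bd F ω = bd F ν := by
    funext k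
    have h1 := der_lc F a ω k
    have h2 := der_lc F a ν k
    rw [h, h2] at h1
    have h3 := Polynomial.C_injective h1
    have h4 : (0 : ℝ) < 1 / 2 ^ a := by positivity
    exact (mul_left_cancel₀ h4.ne' h3).symm
  have hp : ∀ τ, ptw F a ω τ = ptw F a ν τ := fun τ => by
    funext o
    unfold ptw
    rw [h]
  funext i
  refine Polynomial.funext fun τ => ?_
  have key : ∀ ω : F.Ω, ∀ τ : ℝ,
      (pth (afc c Nf w s0 s1 (bt F ω)) (vlc c Nf w s0 s1 (bd F ω)) i).eval τ =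
      afc c Nf w s0 s1 (ptw F a ω 0) i + (τ - afc c Nf w s0 s1 (ptw F a ω 0) 0) *
        vlc c Nf w s0 s1 (bd F ω) i := by
    intro ω τ
    have h1 := fun i => afc_add (c := c) (N := Nf) (o := w) (s0 := s0) (s1 := s1) (bt F ω) (bd F ω)
      ((0 - rt F a ω) / 2 ^ a) i
    have e1 : (fun k => bt F ω k + (0 - rt F a ω) / 2 ^ a * bd F ω k) = ptw F a ω 0 := by
      rw [ptw_pl F ha]
      rfl
    rw [e1] at h1
    rw [eval_pth, h1, h1]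
    have e2 : vlc c Nf w s0 s1 (bd F ω) 0 = 1 := rfl
    rw [e2]
    ring
  rw [key ω, key ν, hp, hX]

/-- Powers of two. -/
theorem pw_le {x y : ℕ} (h : x ≤ y) : (2 : ℝ) ^ x ≤ 2 ^ y := pow_le_pow_right₀ (by norm_num) h

/-- **The tube of the line**, on the event of the windows. -/
theorem tub_ev (D : ℕ) (hD : 1 ≤ D) : ∃ C : ℕ, ∀ {m J : ℕ} {F : Fam m J} {c : ℕ → Fin m}
    {r Dr N N₂ : ℕ} {R : ℕ → Prop} {C₁ C₃ a Eb ε₀ η₀ : ℝ} {Pt : ℝ → ℝ → ℝ} {o : ℕ → ℝ}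
    {lv be b : ℕ → ℕ → ℝ} {κ : ℝ} {z : ℕ → ℕ → ℕ} {B : F.Ω → Prop} {gc gT g₀ : ℕ → ℕ → ℕ}
    {G : ℕ → PtT F → ℕ → MvPolynomial (Option (Fin m)) ℝ}
    {H : ℕ → LnT F → ℕ → MvPolynomial (Option (Fin m)) ℝ}
    {T : ℕ → PtT F → ℕ → MvPolynomial (Option (Fin m)) ℝ}
    {TH : ℕ → LnT F → ℕ → MvPolynomial (Option (Fin m)) ℝ}
    {Gt : ℕ → PtT F → MvPolynomial (Option (Fin m)) ℝ}
    {Ht : ℕ → LnT F → MvPolynomial (Option (Fin m)) ℝ},
    WG c r D Dr N N₂ R C₁ a Eb ε₀ η₀ Pt o lv be F b κ z B gc gT g₀ G H T TH Gt Ht →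
    TubR F c r N C₃ a η₀ o gc gT g₀ B G H T TH → Set.InjOn c (Set.Iio 2) → a ≤ 1 → 0 ≤ C₃ →
    2 < r → R 0 → R 1 →
    ∀ {t n w s0 s1 x D₀ : ℕ} {f : ℕ → ℕ} {Nf : F.Ω → AfN} {ρ EU : ℕ → ℝ} {δ : ℝ},
    D ≤ D₀ → 0 ≤ δ → t ≤ n → (∀ j, t ≤ j → j ≤ n → f j ≤ N ∧ o (f t) ≤ o (f j)) →
    (∀ ω ω', B ω → B ω' → slam F ⌊o (f t) * J⌋₊ ω = slam F ⌊o (f t) * J⌋₊ ω' → Nf ω = Nf ω') →
    (∀ j, t ≤ j → j ≤ n → 0 < ρ j ∧ ρ j ≤ 2 ^ x * 2 ^ w / 2 ^ ⌊o (f j) * J⌋₊) →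
    (∀ j, t ≤ j → j ≤ n → 1 / 2 ^ g₀ (f j) 2 ≤ EU j) →
    (∀ j, t ≤ j → j ≤ n → ∀ ω, B ω → ∀ b,
      NBx c (G (f j) (ptr F J ω)) (g₀ (f j)) ⌊o (f j) * J⌋₊ (F.t ω) 2 b →
      |afc c (Nf ω) w s0 s1 b 2 - afc c (Nf ω) w s0 s1 (bt F ω) 2| ≤
        2 ^ x * 2 ^ w / 2 ^ ⌊o (f j) * J⌋₊) →
    (∀ j, t ≤ j → j ≤ n → g₀ (f j) 0 + w ≤ s0 + ⌊o (f j) * J⌋₊ + x ∧
      g₀ (f j) 1 + w ≤ s1 + ⌊o (f j) * J⌋₊ + x ∧
      g₀ (f j) 2 + ⌊a * J⌋₊ ≤ gT (f t) 2 + ⌊o (f j) * J⌋₊ + x ∧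
      (x : ℝ) + (C₃ + 1) * (η₀ * J) + 1 ≤ g₀ (f j) 2) →
    Tub B (slam F ⌊o (f t) * J⌋₊) (fun ω => afc c (Nf ω) w s0 s1 (bt F ω))
      (fun ω => vlc c (Nf ω) w s0 s1 (bd F ω)) t n ρ EU
      (fun k ω => pul c (Nf ω) w s0 s1 0 (G (f k) (ptr F J ω) 2))
      (fun ω => pth (afc c (Nf ω) w s0 s1 (bt F ω)) (vlc c (Nf ω) w s0 s1 (bd F ω)))
      (fun ω => pul c (Nf ω) w s0 s1 0 (TH (f t) (slam F ⌊o (f t) * J⌋₊ ω) 2)) D₀ δ
      (2 ^ (C * (x + ⌈(C₁ + C₃ + 1) * (η₀ * J)⌉₊ + 1))) := by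
  classical
  obtain ⟨c₁, hlw⟩ := line_win D
  obtain ⟨c₂, hgr⟩ := grd_fr D hD
  refine ⟨12 + 4 * c₁ + 4 * c₂, ?_⟩
  intro m J F c r Dr N N₂ R C₁ C₃ a Eb ε₀ η₀ Pt o lv be b κ z B gc gT g₀ G H T TH Gt Ht W hT hinj
    ha1 hC₃ hr2 hR0 hR1 t n w s0 s1 x D₀ f Nf ρ EU δ hDD hδ htn hf hN hρ hEU hbx hnum
  have hJ0 : (0 : ℝ) ≤ J := Nat.cast_nonneg J
  have hne : c 1 ≠ c 0 := fun h => by
    have := hinj (show (1 : ℕ) < 2 by norm_num) (show (0 : ℕ) < 2 by norm_num) h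
    omega
  obtain ⟨A, hA⟩ : ∃ A, A = ⌊a * J⌋₊ := ⟨_, rfl⟩
  obtain ⟨oj, hoj⟩ : ∃ oj : ℕ → ℕ, oj = fun j => ⌊o (f j) * J⌋₊ := ⟨_, rfl⟩
  have hoe : ∀ j, ⌊o (f j) * J⌋₊ = oj j := fun j => by rw [hoj]
  simp only [hoe] at hN hρ hbx hnum ⊢
  rw [← hA] at hnum
  obtain ⟨Y, hY⟩ : ∃ Y, Y = ⌈(C₁ + C₃ + 1) * (η₀ * J)⌉₊ := ⟨_, rfl⟩
  rw [← hY]
  obtain ⟨E, hE⟩ : ∃ E, E = x + Y + 1 := ⟨_, rfl⟩
  rw [← hE]
  have hC1 := W.win.C1
  have hη : t ≤ n → 0 ≤ η₀ := fun h => (W.win.hη (f t) (hf t le_rfl h).1).1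
  have hηJ : t ≤ n → 0 ≤ η₀ * J := fun h => mul_nonneg (hη h) hJ0
  have hYr : (C₁ + C₃ + 1) * (η₀ * J) ≤ Y := by rw [hY]; exact Nat.le_ceil _
  have hY1 : t ≤ n → C₁ * (η₀ * J) ≤ Y := fun h => by nlinarith [hηJ h]
  have hY2 : t ≤ n → (C₃ + 1) * (η₀ * J) ≤ Y := fun h => by nlinarith [hηJ h]
  have hYf : t ≤ n → ⌊C₁ * (η₀ * J)⌋₊ ≤ Y := fun h => Nat.floor_le_of_le (hY1 h)
  have hYf3 : t ≤ n → ⌊C₃ * (η₀ * J)⌋₊ ≤ Y := fun h => Nat.floor_le_of_le (by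
    nlinarith [hηJ h, hY2 h])
  -- the windows
  have hoA : ∀ j, t ≤ j → j ≤ n → oj j ≤ A := fun j h1 h2 => by
    rw [hoj, hA]
    exact Nat.floor_le_floor (mul_le_mul_of_nonneg_right (W.win.ho (f j) (hf j h1 h2).1).2 hJ0)
  have hAJ : A ≤ J := by
    rw [hA]
    refine Nat.floor_le_of_le ?_
    calc a * (J : ℝ) ≤ 1 * J := mul_le_mul_of_nonneg_right ha1 hJ0
      _ = J := one_mul _
  have hoJ : ∀ j, t ≤ j → j ≤ n → oj j ≤ J := fun j h1 h2 => (hoA j h1 h2).trans hAJ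
  have hoo : ∀ j, t ≤ j → j ≤ n → oj t ≤ oj j := fun j h1 h2 => by
    rw [hoj]
    exact Nat.floor_le_floor (mul_le_mul_of_nonneg_right (hf j h1 h2).2 hJ0)
  have hv : ∀ j, t ≤ j → j ≤ n → ((A - oj j : ℕ) : ℝ) = A - oj j := fun j h1 h2 =>
    Nat.cast_sub (hoA j h1 h2)
  have hcls : ∀ j, t ≤ j → j ≤ n → ∀ ω, B ω → ∀ l ≤ r,
      G (f j) (ptr F J ω) l = H (f j) (slam F (oj j) ω) l := fun j h1 h2 ω hω l hl => by
    have h3 := (W.win.evs (f j) (hf j h1 h2).1).cls ω hω l (by omega)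
    rw [hoe] at h3
    exact h3
  have hown : ∀ j, t ≤ j → j ≤ n → ∀ ω, B ω → ∀ l ≤ r, ∀ τ ∈ Set.Icc (0 : ℝ) 1,
      |ptw F (oj j) ω τ (some (c l)) - eval (ptw F (oj j) ω τ) (G (f j) (ptr F J ω) l)| ≤
        2 ^ (Y + 1) / 2 ^ g₀ (f j) l := fun j h1 h2 ω hω l hl τ hτ => by
    have h3 := W.own (f j) ((hf j h1 h2).1.trans W.nn) ω hω l hl τ hτ
    rw [hoe, dv_ptw ω (fun s => H (f j) s l), ← hcls j h1 h2 ω hω l hl] at h3
    refine h3.trans (div_le_div_of_nonneg_right (pw_le ?_) (by positivity))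
    have := hYf (h1.trans h2)
    omega
  have hdG : ∀ j, t ≤ j → j ≤ n → ∀ y l, (G (f j) y l).totalDegree ≤ D := fun j h1 h2 y l =>
    (W.win.evs (f j) (hf j h1 h2).1).ball.degG y l
  have hpG : ∀ j, t ≤ j → j ≤ n → ∀ y l, DepC c l (G (f j) y l) := fun j h1 h2 y l =>
    (W.win.evs (f j) (hf j h1 h2).1).ball.depG y l
  have hdT : ∀ j, t ≤ j → j ≤ n → ∀ y l, (TH (f j) y l).totalDegree ≤ D := fun j h1 h2 y l =>
    (W.win.evs (f j) (hf j h1 h2).1).thin.degH y l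
  have hpT : ∀ j, t ≤ j → j ≤ n → ∀ y l, DepC c l (TH (f j) y l) := fun j h1 h2 y l =>
    (W.win.evs (f j) (hf j h1 h2).1).thin.depH y l
  have hownT : t ≤ n → ∀ ω, B ω → ∀ τ ∈ Set.Icc (0 : ℝ) 1,
      |ptw F (oj t) ω τ (some (c 2)) - eval (ptw F (oj t) ω τ)
        (TH (f t) (slam F (oj t) ω) 2)| ≤ 2 ^ Y / 2 ^ gT (f t) 2 := fun h ω hω τ hτ => by
    have hk := (hf t le_rfl h).1
    have h1 := (W.win.row (f t) hk (f t) hk le_rfl 0 (by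
      have := W.win.hp' (f t) hk
      have := mul_le_mul_of_nonneg_right this hJ0
      push_cast
      nlinarith) (by
      have := W.win.hgr (f t) hk
      push_cast
      linarith)).ownT ω hω 2 hr2 τ hτ
    rw [hoe, dv_ptw ω (fun s => TH (f t) s 2)] at h1
    exact h1.trans (div_le_div_of_nonneg_right (pw_le (hYf h)) (by positivity))
  -- the numbers
  have hgT : ∀ j, t ≤ j → j ≤ n → ∀ l < 2, gT (f j) l ≤ g₀ (f j) l + Y + (A - oj j) := by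
    intro j h1 h2 l hl
    have hk := (hf j h1 h2).1
    have h3 := (W.win.sds (f j) hk).c2 l (by omega)
    have h4 := (W.win.sds (f j) hk).b1 l (by omega)
    have h5 := ((W.win.evs (f j) hk).rgh l (by omega) (by
      rcases l with _ | _ | l
      · exact hR0
      · exact hR1
      · omega)).1
    rw [hoe, ← hA] at h3
    have h6 := W.win.hε (f j) hk
    have h7 : (0 : ℝ) ≤ ε₀ * J := mul_nonneg h6 hJ0
    have h8 := hηJ (h1.trans h2)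
    have h9 : η₀ * J ≤ Y := by nlinarith [hY2 (h1.trans h2)]
    have h10 : (gT (f j) l : ℝ) ≤ g₀ (f j) l + Y + ((A - oj j : ℕ) : ℝ) := by
      rw [h5]
      linarith
    exact_mod_cast h10
  -- the gradient of the chart of the coordinate `c 1`
  have hgrd : ∀ j, t ≤ j → j ≤ n → ∀ ω, B ω → ∀ τ ∈ Set.Icc (0 : ℝ) 1,
      |(Nf ω).a2 - eval (ptw F (oj j) ω τ) (pderiv (some (c 0)) (G (f j) (ptr F J ω) 1))| ≤
        2 ^ (c₂ * (Y + 2)) * (2 ^ x * 2 ^ w / 2 ^ oj j) * 2 ^ g₀ (f j) 0 / 2 ^ s1 := by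
    intro j h1 h2 ω hω τ hτ
    have h3 := hgr (c := c) (ψ := G (f j) (ptr F J ω)) (g := g₀ (f j)) (a := oj j) (n := Y + 1)
      (o := w) (s0 := s0) (s1 := s1) (t := F.t ω) (y := afc c (Nf ω) w s0 s1 (bt F ω) 2)
      (M := 2 ^ x * 2 ^ w / 2 ^ oj j) (Nf := Nf ω) (x := ptw F (oj j) ω τ) hinj (hdG j h1 h2 _)
      (hpG j h1 h2 _) (hbx j h1 h2 ω hω) (ptw_tm (hoJ j h1 h2) ω hτ)
      (hown j h1 h2 ω hω 0 (Nat.zero_le _) τ hτ)
    exact h3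
  -- the natural norms of the vectors of the frame
  obtain ⟨e₁, he₁⟩ : ∃ e₁, e₁ = 3 * x + Y + c₂ * (Y + 2) + 1 := ⟨_, rfl⟩
  have hw0 : (0 : ℝ) < 2 ^ w := by positivity
  have hs00 : (0 : ℝ) < 2 ^ s0 := by positivity
  have hs10 : (0 : ℝ) < 2 ^ s1 := by positivity
  have hnrm : ∀ j, t ≤ j → j ≤ n → ∀ ω, B ω → ∀ τ ∈ Set.Icc (0 : ℝ) 1, ∀ l : Fin 3, l ≠ 0 →
      nrm c (TH (f j) (slam F (oj j) ω)) (gT (f j)) (oj j + (A - oj j)) 2 (ptw F (oj j) ω τ)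
        (afv c (Nf ω) w s0 s1 l 0) ≤ 2 ^ (A + e₁) / 2 ^ w := by
    intro j h1 h2 ω hω τ hτ l hl
    have ho0 : (0 : ℝ) < 2 ^ oj j := by positivity
    obtain ⟨n1, n2, -, -⟩ := hnum j h1 h2
    have h3 := hgT j h1 h2 0 (by norm_num)
    have h4 := hgT j h1 h2 1 (by norm_num)
    have hAo := hoA j h1 h2
    have q0 : (2 : ℝ) ^ gT (f j) 0 / 2 ^ s0 ≤ 2 ^ (A + x + Y) / 2 ^ w := by
      rw [div_le_div_iff₀ hs00 hw0, ← pow_add, ← pow_add]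
      exact pw_le (by omega)
    have q1 : (2 : ℝ) ^ gT (f j) 1 / 2 ^ s1 ≤ 2 ^ (A + x + Y) / 2 ^ w := by
      rw [div_le_div_iff₀ hs10 hw0, ← pow_add, ← pow_add]
      exact pw_le (by omega)
    have q2 : (2 : ℝ) ^ g₀ (f j) 0 / 2 ^ s0 ≤ 2 ^ (oj j + x) / 2 ^ w := by
      rw [div_le_div_iff₀ hs00 hw0, ← pow_add, ← pow_add]
      exact pw_le (by omega)
    have hfr := nrm_fr (Nf := Nf ω) (w := w) (s0 := s0) (s1 := s1) (v := 0) hne
      (hpT j h1 h2 (slam F (oj j) ω)) (gT (f j)) (oj j + (A - oj j)) (ptw F (oj j) ω τ)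
    have hl12 : l = 1 ∨ l = 2 := by
      fin_cases l
      · exact absurd rfl hl
      · exact Or.inl rfl
      · exact Or.inr rfl
    rcases hl12 with rfl | rfl
    · rw [hfr.1]
      have hrg := ((W.win.evs (f j) (hf j h1 h2).1).rgh 1 (by omega) hR1).2.2 (slam F (oj j) ω)
      rw [hrg, pd_Hno, ← hcls j h1 h2 ω hω 1 (by omega)]
      have h5 := hgrd j h1 h2 ω hω τ hτ
      have h6 : 2 ^ gT (f j) 1 * |(Nf ω).a2 - eval (ptw F (oj j) ω τ)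
          (pderiv (some (c 0)) (G (f j) (ptr F J ω) 1))| / 2 ^ s0 ≤
          2 ^ (A + x + Y) * (2 ^ (c₂ * (Y + 2)) * 2 ^ (2 * x)) / 2 ^ w := by
        calc _ ≤ 2 ^ gT (f j) 1 * (2 ^ (c₂ * (Y + 2)) * (2 ^ x * 2 ^ w / 2 ^ oj j) *
              2 ^ g₀ (f j) 0 / 2 ^ s1) / 2 ^ s0 :=
              div_le_div_of_nonneg_right (mul_le_mul_of_nonneg_left h5 (by positivity)) hs00.le
          _ = (2 ^ gT (f j) 1 / 2 ^ s1) * (2 ^ g₀ (f j) 0 / 2 ^ s0) *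
              (2 ^ (c₂ * (Y + 2)) * (2 ^ x * 2 ^ w / 2 ^ oj j)) := by ring
          _ ≤ (2 ^ (A + x + Y) / 2 ^ w) * (2 ^ (oj j + x) / 2 ^ w) *
              (2 ^ (c₂ * (Y + 2)) * (2 ^ x * 2 ^ w / 2 ^ oj j)) :=
              mul_le_mul_of_nonneg_right (mul_le_mul q1 q2 (by positivity) (by positivity))
                (by positivity)
          _ = _ := by
              rw [pow_add 2 (oj j) x, two_mul, pow_add 2 x x]
              field_simp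
      refine (add_le_add q0 h6).trans ?_
      rw [← add_div]
      refine div_le_div_of_nonneg_right ?_ hw0.le
      have e1 : (2 : ℝ) ^ (A + x + Y) * (2 ^ (c₂ * (Y + 2)) * 2 ^ (2 * x)) =
          2 ^ (A + x + Y + (c₂ * (Y + 2) + 2 * x)) := by rw [← pow_add, ← pow_add]
      have e2 : (2 : ℝ) ^ (A + e₁) = 2 * 2 ^ (A + x + Y + (c₂ * (Y + 2) + 2 * x)) := by
        rw [he₁, ← pow_succ']
        congr 1
        ring
      rw [e1, e2]
      have h7 : (2 : ℝ) ^ (A + x + Y) ≤ 2 ^ (A + x + Y + (c₂ * (Y + 2) + 2 * x)) :=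
        pw_le (Nat.le_add_right _ _)
      linarith
    · rw [hfr.2]
      refine q1.trans (div_le_div_of_nonneg_right (pw_le ?_) hw0.le)
      rw [he₁]
      nlinarith [Nat.zero_le (c₂ * (Y + 2))]
  -- the gradient of the difference on the window
  obtain ⟨e₂, he₂⟩ : ∃ e₂, e₂ = 2 * Y + e₁ + x := ⟨_, rfl⟩
  have hdd : ∀ j, t ≤ j → j ≤ n → ∀ ω, B ω → ∀ τ ∈ Set.Icc (0 : ℝ) 1, ∀ l : Fin 3, l ≠ 0 →
      |dd (TH (f t) (slam F (oj t) ω) 2 - G (f j) (ptr F J ω) 2) (ptw F (oj j) ω τ)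
        (afv c (Nf ω) w s0 s1 l 0)| ≤ 2 ^ e₂ * 2 ^ oj j / (2 ^ w * 2 ^ g₀ (f j) 2) := by
    intro j h1 h2 ω hω τ hτ l hl
    obtain ⟨-, -, n3, n4⟩ := hnum j h1 h2
    have hk := (hf j h1 h2).1
    have hkt := (hf t le_rfl (h1.trans h2)).1
    have hAo := hoA j h1 h2
    obtain ⟨Y', hY'⟩ : ∃ Y', Y' = ⌈(C₃ + 1) * (η₀ * J)⌉₊ := ⟨_, rfl⟩
    have hC0 : 0 ≤ (C₃ + 1) * (η₀ * J) := mul_nonneg (by linarith) (hηJ (h1.trans h2))
    have hY'1 : (C₃ + 1) * (η₀ * J) ≤ Y' := by rw [hY']; exact Nat.le_ceil _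
    have hY'2 : (Y' : ℝ) < (C₃ + 1) * (η₀ * J) + 1 := by rw [hY']; exact Nat.ceil_lt_add_one hC0
    have hY'Y : Y' ≤ Y := by
      rw [hY']
      exact Nat.ceil_le.2 (hY2 (h1.trans h2))
    have hxY : x + Y' ≤ g₀ (f j) 2 := by
      have h3 : ((x + Y' : ℕ) : ℝ) < g₀ (f j) 2 := by
        push_cast
        linarith
      exact_mod_cast h3.le
    obtain ⟨q, hq⟩ : ∃ q, q + x + Y' + oj j = g₀ (f j) 2 + A :=
      ⟨g₀ (f j) 2 + A - (x + Y' + oj j), by omega⟩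
    have hqr : (q : ℝ) + x + Y' + oj j = g₀ (f j) 2 + A := by exact_mod_cast hq
    have n3r : (g₀ (f j) 2 : ℝ) + A ≤ gT (f t) 2 + oj j + x := by exact_mod_cast n3
    have h3 := (W.win.sds (f j) hk).c1 2 hr2.le
    have h4 := (W.win.sds (f j) hk).b2 2 hr2.le
    rw [hoe, ← hA, hv j h1 h2] at h3
    have hx0 : (0 : ℝ) ≤ x := Nat.cast_nonneg x
    have h5 := hT 2 hr2 (f t) hkt (f j) hk (hf j h1 h2).2 q (by nlinarith [hηJ (h1.trans h2)])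
      (by nlinarith [hηJ (h1.trans h2)])
    have h6 := h5.win ω hω τ
    rw [hoe, hoe, ← hA] at h6
    have h7 := h6 hτ (afv c (Nf ω) w s0 s1 l 0)
    have hV : afv c (Nf ω) w s0 s1 l 0 none = 0 := by
      have hl12 : l = 1 ∨ l = 2 := by
        fin_cases l
        · exact absurd rfl hl
        · exact Or.inl rfl
        · exact Or.inr rfl
      rcases hl12 with rfl | rfl
      · exact afv1_none
      · exact afv2_none
    rw [dd_sub, dd_Hno _ _ _ _ hV, ← hcls j h1 h2 ω hω 2 hr2.le, ← dd_sub] at h7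
    refine (h7.trans (mul_le_mul_of_nonneg_left (hnrm j h1 h2 ω hω τ hτ l hl)
      (by positivity))).trans ?_
    have e1 : (2 : ℝ) ^ g₀ (f j) 2 * 2 ^ A = 2 ^ q * 2 ^ x * 2 ^ Y' * 2 ^ oj j := by
      rw [← pow_add, ← pow_add, ← pow_add, ← pow_add, hq]
    have hq0 : (0 : ℝ) < 2 ^ q := by positivity
    rw [div_mul_div_comm, div_le_div_iff₀ (by positivity) (by positivity)]
    have h8 : (2 : ℝ) ^ ⌊C₃ * (η₀ * J)⌋₊ ≤ 2 ^ Y := pw_le (hYf3 (h1.trans h2))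
    have h9 : (2 : ℝ) ^ Y' ≤ 2 ^ Y := pw_le hY'Y
    have e3 : (2 : ℝ) ^ e₂ = 2 ^ Y * 2 ^ Y * 2 ^ e₁ * 2 ^ x := by
      rw [he₂, ← pow_add, ← pow_add, ← pow_add]
      congr 1
      ring
    calc (2 : ℝ) ^ ⌊C₃ * (η₀ * J)⌋₊ * 2 ^ (A + e₁) * (2 ^ w * 2 ^ g₀ (f j) 2) =
          2 ^ ⌊C₃ * (η₀ * J)⌋₊ * 2 ^ e₁ * 2 ^ w * (2 ^ g₀ (f j) 2 * 2 ^ A) := by
            rw [pow_add]
            ring
      _ = 2 ^ ⌊C₃ * (η₀ * J)⌋₊ * 2 ^ Y' * (2 ^ e₁ * 2 ^ w * 2 ^ q * 2 ^ x * 2 ^ oj j) := by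
            rw [e1]
            ring
      _ ≤ 2 ^ Y * 2 ^ Y * (2 ^ e₁ * 2 ^ w * 2 ^ q * 2 ^ x * 2 ^ oj j) :=
            mul_le_mul_of_nonneg_right (mul_le_mul h8 h9 (by positivity) (by positivity))
              (by positivity)
      _ = _ := by
            rw [e3]
            ring
  -- the same on the line
  have hddl : ∀ j, t ≤ j → j ≤ n → ∀ ω, B ω → ∀ s : ℝ, |s| ≤ 2 ^ (x + 1) / 2 ^ oj j →
      ∀ l : Fin 3, l ≠ 0 →
      |dd (TH (f t) (slam F (oj t) ω) 2 - G (f j) (ptr F J ω) 2) (pl F ω s)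
        (afv c (Nf ω) w s0 s1 l 0)| ≤
          2 ^ (c₁ * (x + 2)) * (2 ^ e₂ * 2 ^ oj j / (2 ^ w * 2 ^ g₀ (f j) 2)) := by
    intro j h1 h2 ω hω s hs l hl
    have h3 := hlw (hoJ j h1 h2) ω (ddp (TH (f t) (slam F (oj t) ω) 2 - G (f j) (ptr F J ω) 2)
      (afv c (Nf ω) w s0 s1 l 0)) (2 ^ e₂ * 2 ^ oj j / (2 ^ w * 2 ^ g₀ (f j) 2)) (x + 1)
      (deg_ddp ((totalDegree_sub _ _).trans (max_le (hdT t le_rfl (h1.trans h2) _ 2)
        (hdG j h1 h2 _ 2))) _) (fun τ hτ => by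
        rw [eval_ddp]
        exact hdd j h1 h2 ω hω τ hτ l hl) s hs
    rw [eval_ddp] at h3
    exact h3
  -- the values
  have hval : ∀ j, t ≤ j → j ≤ n → ∀ ω, B ω → ∀ s : ℝ, |s| ≤ 2 ^ (x + 1) / 2 ^ oj j →
      |eval (pl F ω s) (TH (f t) (slam F (oj t) ω) 2) - eval (pl F ω s) (G (f j) (ptr F J ω) 2)| ≤
        2 ^ (c₁ * (x + 2)) * (2 ^ (Y + x + 2) / 2 ^ g₀ (f j) 2) := by
    intro j h1 h2 ω hω s hs
    have hX : (X (some (c 2)) : MvPolynomial (Option (Fin m)) ℝ).totalDegree ≤ D := by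
      rw [totalDegree_X]
      exact hD
    have h3 := hlw (hoJ t le_rfl htn) ω (X (some (c 2)) - TH (f t) (slam F (oj t) ω) 2)
      (2 ^ Y / 2 ^ gT (f t) 2) (x + 1) ((totalDegree_sub _ _).trans (max_le hX
        (hdT t le_rfl htn _ 2))) (fun τ hτ => by
        rw [map_sub, eval_X]
        exact hownT htn ω hω τ hτ) s (hs.trans (div_le_div_of_nonneg_left (by positivity)
          (by positivity) (pw_le (hoo j h1 h2))))
    have h4 := hlw (hoJ j h1 h2) ω (X (some (c 2)) - G (f j) (ptr F J ω) 2)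
      (2 ^ (Y + 1) / 2 ^ g₀ (f j) 2) (x + 1) ((totalDegree_sub _ _).trans (max_le hX
        (hdG j h1 h2 _ 2))) (fun τ hτ => by
        rw [map_sub, eval_X]
        exact hown j h1 h2 ω hω 2 hr2.le τ hτ) s hs
    rw [map_sub, eval_X] at h3 h4
    have hg0 : (0 : ℝ) < 2 ^ g₀ (f j) 2 := by positivity
    have hgTg : (2 : ℝ) ^ Y / 2 ^ gT (f t) 2 ≤ 2 ^ (Y + x) / 2 ^ g₀ (f j) 2 := by
      rw [div_le_div_iff₀ (by positivity) hg0, ← pow_add, ← pow_add]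
      have := (hnum j h1 h2).2.2.1
      have := hoA j h1 h2
      exact pw_le (by omega)
    have e1 : eval (pl F ω s) (TH (f t) (slam F (oj t) ω) 2) -
        eval (pl F ω s) (G (f j) (ptr F J ω) 2) =
        (pl F ω s (some (c 2)) - eval (pl F ω s) (G (f j) (ptr F J ω) 2)) -
        (pl F ω s (some (c 2)) - eval (pl F ω s) (TH (f t) (slam F (oj t) ω) 2)) := by ring
    rw [e1]
    refine (abs_sub _ _).trans ((add_le_add h4 (h3.trans (mul_le_mul_of_nonneg_left hgTg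
      (by positivity)))).trans ?_)
    rw [← mul_add, ← add_div]
    refine mul_le_mul_of_nonneg_left (div_le_div_of_nonneg_right ?_ hg0.le) (by positivity)
    have h5 : (2 : ℝ) ^ (Y + 1) ≤ 2 ^ (Y + x + 1) := pw_le (by omega)
    have h6 : (2 : ℝ) ^ (Y + x) ≤ 2 ^ (Y + x + 1) := pw_le (by omega)
    have e2 : (2 : ℝ) ^ (Y + x + 2) = 2 ^ (Y + x + 1) + 2 ^ (Y + x + 1) := by
      rw [pow_succ 2 (Y + x + 1)]
      ring
    linarith
  -- the time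
  have hE2 : c₁ * (x + 2) ≤ 2 * c₁ * E := by rw [hE]; nlinarith [Nat.zero_le (c₁ * x), Nat.zero_le (c₁ * Y)]
  have hE3 : c₂ * (Y + 2) ≤ 2 * c₂ * E := by rw [hE]; nlinarith [Nat.zero_le (c₂ * x), Nat.zero_le (c₂ * Y)]
  have hCE : (12 + 4 * c₁ + 4 * c₂) * E = 12 * E + 2 * (2 * c₁ * E) + 2 * (2 * c₂ * E) := by ring
  have htime : ∀ j, t ≤ j → j ≤ n → ∀ τ y : ℝ, |τ - y| ≤ 2 * ρ j →
      |(τ - y) / 2 ^ w| ≤ 2 ^ (x + 1) / 2 ^ oj j := by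
    intro j h1 h2 τ y hτ
    rw [abs_div, abs_of_pos hw0, div_le_iff₀ hw0]
    refine hτ.trans ((mul_le_mul_of_nonneg_left (hρ j h1 h2).2 (by norm_num)).trans (le_of_eq ?_))
    rw [pow_succ]
    ring
  refine ⟨fun ω ω' hω hω' h => ?_, fun ω ω' hω hω' h => ?_, fun ω _ => ?_, fun ω _ i => ?_,
    fun ω _ => ?_, fun ω _ τ _ i => ?_, fun j h1 h2 ω hω τ hτ => ?_,
    fun j h1 h2 ω hω τ hτ l hl => ?_⟩
  · -- the path is closed
    show pth _ _ = pth _ _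
    rw [hN ω ω' hω hω' h]
    exact pth_cls F c (Nf ω') w s0 s1 (hoJ t le_rfl htn) h
  · show pul c (Nf ω) w s0 s1 0 (TH (f t) (slam F (oj t) ω) 2) = pul c (Nf ω') w s0 s1 0 _
    rw [hN ω ω' hω hω' h, h]
  · show pth _ _ 0 = Polynomial.X
    have e2 : vlc c (Nf ω) w s0 s1 (bd F ω) 0 = 1 := rfl
    unfold pth
    rw [e2, mul_one, sub_self, map_zero, zero_add, map_one, one_mul]
  · show (pth _ _ i).natDegree ≤ D₀
    unfold pth
    refine le_trans ((Polynomial.natDegree_add_le _ _).trans (max_le ?_ ?_)) (hD.trans hDD)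
    · rw [Polynomial.natDegree_C]
      exact Nat.zero_le _
    · exact (Polynomial.natDegree_C_mul_le _ _).trans Polynomial.natDegree_X_le
  · exact ((pul_deg (K := 1) (D := D) (by rw [totalDegree_zero]; exact Nat.zero_le _) le_rfl
      (hdT t le_rfl htn _ 2)).trans (le_of_eq (mul_one D))).trans hDD
  · show |(pth _ _ i).eval τ - _| ≤ δ
    rw [eval_pth, sub_self, abs_zero]
    exact hδ
  · show |eval (fun i => (pth _ _ i).eval τ) (pul c (Nf ω) w s0 s1 0 _) -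
      eval (fun i => (pth _ _ i).eval τ) (pul c (Nf ω) w s0 s1 0 _)| ≤ _
    rw [pth_afc, pul_afc hinj (hpT t le_rfl htn _ 2), pul_afc hinj (hpG j h1 h2 _ 2)]
    refine (hval j h1 h2 ω hω _ (htime j h1 h2 τ _ hτ)).trans ?_
    calc (2 : ℝ) ^ (c₁ * (x + 2)) * (2 ^ (Y + x + 2) / 2 ^ g₀ (f j) 2) =
          2 ^ (c₁ * (x + 2) + (Y + x + 2)) * (1 / 2 ^ g₀ (f j) 2) := by
            rw [pow_add 2 (c₁ * (x + 2)) (Y + x + 2)]
            ring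
      _ ≤ 2 ^ ((12 + 4 * c₁ + 4 * c₂) * E) * EU j :=
          mul_le_mul (pw_le (by omega)) (hEU j h1 h2) (by positivity) (by positivity)
  · show |eval (fun i => (pth _ _ i).eval τ) (pderiv l (pul c (Nf ω) w s0 s1 0 _)) -
      eval (fun i => (pth _ _ i).eval τ) (pderiv l (pul c (Nf ω) w s0 s1 0 _))| ≤ _
    rw [pth_afc, pd_pul, pd_pul]
    have hV : afv c (Nf ω) w s0 s1 l 0 none = 0 := by
      have hl12 : l = 1 ∨ l = 2 := by
        fin_cases l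
        · exact absurd rfl hl
        · exact Or.inl rfl
        · exact Or.inr rfl
      rcases hl12 with rfl | rfl
      · exact afv1_none
      · exact afv2_none
    simp only [map_zero]
    obtain ⟨s, hs⟩ : ∃ s, s = (τ - afc c (Nf ω) w s0 s1 (bt F ω) 0) / 2 ^ w := ⟨_, rfl⟩
    rw [← hs]
    have hss := htime j h1 h2 τ _ hτ
    rw [← hs] at hss
    obtain ⟨a0, a1, a2⟩ := afp_afc (c := c) (N := Nf ω) (o := w) (s0 := s0) (s1 := s1) hinj 0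
      (pl F ω s)
    have hag : ∀ l < 2, afp c (Nf ω) w s0 s1 0 (afc c (Nf ω) w s0 s1 (pl F ω s)) (some (c l)) =
        pl F ω s (some (c l)) := by
      intro l hl
      rcases l with _ | _ | l
      · exact a1
      · exact a2
      · omega
    rw [dd_dep (hpT t le_rfl htn _ 2) hV a0 hag, dd_dep (hpG j h1 h2 _ 2) hV a0 hag, ← dd_sub]
    refine (hddl j h1 h2 ω hω s hss l hl).trans ?_
    have hρ0 := (hρ j h1 h2).1
    have hρ1 := (hρ j h1 h2).2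
    have ho0 : (0 : ℝ) < 2 ^ oj j := by positivity
    have hg0 : (0 : ℝ) < 2 ^ g₀ (f j) 2 := by positivity
    rw [le_div_iff₀ hρ0]
    calc (2 : ℝ) ^ (c₁ * (x + 2)) * (2 ^ e₂ * 2 ^ oj j / (2 ^ w * 2 ^ g₀ (f j) 2)) * ρ j ≤
          2 ^ (c₁ * (x + 2)) * (2 ^ e₂ * 2 ^ oj j / (2 ^ w * 2 ^ g₀ (f j) 2)) *
            (2 ^ x * 2 ^ w / 2 ^ oj j) := mul_le_mul_of_nonneg_left hρ1 (by positivity)
      _ = 2 ^ (c₁ * (x + 2) + e₂ + x) * (1 / 2 ^ g₀ (f j) 2) := by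
          rw [pow_add 2 (c₁ * (x + 2) + e₂) x, pow_add 2 (c₁ * (x + 2)) e₂]
          field_simp
      _ ≤ 2 ^ ((12 + 4 * c₁ + 4 * c₂) * E) * EU j :=
          mul_le_mul (pw_le (by omega)) (hEU j h1 h2) (by positivity) (by positivity)

end Pool.CNC60
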