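import Pool.Agent.H60.CNC.Hdd
import Pool.Agent.H60.CNC.Tbe
import Pool.Agent.H82.CNC.Blk

/-!
# A flat chart of `u` makes the velocity of `u` known: the windows in one frame

`hess_chn`: `hess_dead` for the windows `Chn` and the tube `Tub`.
-/

set_option autoImplicit false

namespace Pool.CNC60

open Finset MvPolynomial
open Pool.STK (IsLaw)
open Pool.K2S (Pe)
open Pool.CUB46 (q2 l1 h3)
open Pool.CNC76 (Clo Tub Bll Chn Bx dil unt)
open Pool.D2G30 (lin eval_lin deriv_lin)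
open Pool.GEN (totalDegree_pdσ)

/-- The difference of the values at two points of a cube. -/
theorem seg_dif {Q : MvPolynomial (Fin 3) ℝ} {a x y : Fin 3 → ℝ} {ρ H : ℝ}
    (hx : ∀ i, |x i - a i| ≤ ρ) (hy : ∀ i, |y i - a i| ≤ ρ)
    (hH : ∀ b : Fin 3 → ℝ, (∀ i, |b i - a i| ≤ ρ) → ∀ j, |eval b (pderiv j Q)| ≤ H) :
    |eval x Q - eval y Q| ≤ 6 * (ρ * H) := by
  have hρ : 0 ≤ ρ := (abs_nonneg _).trans (hx 0)
  have hH0 : 0 ≤ H := (abs_nonneg _).trans (hH x hx 0)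
  obtain ⟨q, hq⟩ : ∃ q : Polynomial ℝ, q = lin (fun i => (x i + y i) / 2)
    (fun i => (x i - y i) / 2) Q := ⟨_, rfl⟩
  have hin : ∀ τ : ℝ, |τ - 0| ≤ 1 → ∀ i, |((x i + y i) / 2 + (x i - y i) / 2 * τ) - a i| ≤ ρ := by
    intro τ hτ i
    rw [sub_zero] at hτ
    have e1 : ((x i + y i) / 2 + (x i - y i) / 2 * τ) - a i =
        (x i - a i) * ((1 + τ) / 2) + (y i - a i) * ((1 - τ) / 2) := by ring
    rw [e1]
    have h1 := abs_le.1 hτ
    refine (abs_add_le _ _).trans ?_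
    rw [abs_mul, abs_mul, abs_of_nonneg (show 0 ≤ (1 + τ) / 2 by linarith [h1.1]),
      abs_of_nonneg (show 0 ≤ (1 - τ) / 2 by linarith [h1.2])]
    have h2 := mul_le_mul_of_nonneg_right (hx i) (show 0 ≤ (1 + τ) / 2 by linarith [h1.1])
    have h3 := mul_le_mul_of_nonneg_right (hy i) (show 0 ≤ (1 - τ) / 2 by linarith [h1.2])
    linarith
  have hd : ∀ τ : ℝ, |τ - 0| ≤ 1 → |(Polynomial.derivative q).eval τ| ≤ 3 * (ρ * H) := by
    intro τ hτ
    rw [hq, deriv_lin, Polynomial.eval_finsetSum]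
    refine (Finset.abs_sum_le_sum_abs _ _).trans ?_
    refine (Finset.sum_le_sum (g := fun _ => ρ * H) fun i _ => ?_).trans ?_
    · rw [Polynomial.eval_mul, Polynomial.eval_C, eval_lin, abs_mul]
      refine mul_le_mul ?_ (hH _ (hin τ hτ) i) (abs_nonneg _) hρ
      have e1 : (x i - y i) / 2 = ((x i - a i) - (y i - a i)) / 2 := by ring
      rw [e1, abs_div, abs_of_pos (show (0 : ℝ) < 2 by norm_num), div_le_iff₀ (by norm_num)]
      refine (abs_sub _ _).trans ?_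
      linarith [hx i, hy i]
    · rw [Finset.sum_const, Finset.card_univ, Fintype.card_fin, nsmul_eq_mul]
      norm_num
  have h1 := mv_pol q (x := 0) (y := 1) (R := 1) (by norm_num) hd
  have h2 := mv_pol q (x := 0) (y := -1) (R := 1) (by norm_num) hd
  have e1 : q.eval 1 = eval x Q := by
    rw [hq, eval_lin]
    congr 2
    funext i
    ring
  have e2 : q.eval (-1) = eval y Q := by
    rw [hq, eval_lin]
    congr 2
    funext i
    ring
  rw [e1] at h1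
  rw [e2] at h2
  have h3 := abs_le.1 h1
  have h4 := abs_le.1 h2
  rw [abs_le]
  constructor <;> linarith [h3.1, h3.2, h4.1, h4.2]

/-- The growth in time with a larger exponent. -/
theorem TmF.mono {Ω S : Type} [Fintype Ω] {p : Ω → ℝ} {B : Ω → Prop} {sl : Ω → S} {t : Ω → ℝ}
    {D h h' : ℕ} {κ R : ℝ} (H : TmF p B sl t D h κ R) (hh : h ≤ h') : TmF p B sl t D h' κ R := by
  intro B' hB' hP q hq hd M hM hqM
  obtain ⟨B'', h1, h2, h3⟩ := H B' hB' hP q hq hd M hM hqM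
  exact ⟨B'', h1, h2, fun ω hω τ hτ => (h3 ω hω τ hτ).trans
    (mul_le_mul_of_nonneg_right (pw_le hh) hM.le)⟩

/-- **A flat chart makes the velocity known**, in the windows of one frame. -/
theorem hess_chn (D₀ : ℕ) : ∃ C : ℝ, 1 ≤ C ∧ ∀ {Ω P S S' : Type} [Fintype Ω] {p : Ω → ℝ}
    {B B' : Ω → Prop} {pt : Ω → P} {sl : ℕ → Ω → S} {sd : Ω → S'} {Y Yc X : Ω → Fin 3 → ℝ} {n : ℕ}
    {ctr : ℕ → Ω → Fin 3 → ℝ} {ρ EU EN : ℕ → ℝ} {U Ph : ℕ → Ω → MvPolynomial (Fin 3) ℝ}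
    {cs : ℕ → Ω → ℝ} {D h Q : ℕ} {κ η c₀ T s : ℝ} {xh : Ω → Fin 3 → Polynomial ℝ}
    {Tu : Ω → MvPolynomial (Fin 3) ℝ} {h₁ : ℕ} {κ₁ s₁ ε dl : ℝ} {u τ₀ : Ω → ℝ},
    Chn p B pt sl sd Y Yc X n ctr ρ EU EN U Ph cs D₀ D h Q κ η c₀ T s →
    Tub B (sl 0) Y X 0 n ρ EU U xh Tu D₀ 0 s₁ → 2 * D₀ ≤ D → 1 ≤ T →
    (∀ ω ω', B ω → B ω' → sl 0 ω = sl 0 ω' → u ω = u ω') →
    (∀ ω ω', B ω → B ω' → sl 0 ω = sl 0 ω' → τ₀ ω = τ₀ ω') →
    (∀ ω, B ω → |τ₀ ω - Y ω 0| ≤ 2 * ρ 0) →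
    (∀ ω, B ω → |u ω - ∑ i, eval (Y ω) (pderiv i (U n ω)) * X ω i| ≤ s₁ * EU n / ρ n) →
    TmF p B (sl 0) (fun ω => Y ω 0) (D₀ * D₀) h₁ κ₁ (2 * ρ 0) →
    (∀ ω, B' ω → B ω) → κ * Pe p B ≤ Pe p B' → 4 * (κ₁ * Pe p B) ≤ Pe p B' → 0 < Pe p B' →
    (∀ ω, B' ω → ∀ i j, |h3 (U n ω) (Y ω) i j| ≤ ε) → s₁ * EU n / ρ n ^ 2 ≤ ε → 0 < ε →
    C * T ^ 2 * 2 ^ (h + h₁) * ρ 0 * ε ≤ dl →
    ∃ B'' : Ω → Prop, (∀ ω, B'' ω → B' ω) ∧ Pe p B' ≤ 16 * Pe p B'' ∧ ∃ kk : Ω → Fin 3 → ℤ,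
      Clo B'' pt (sl 0) kk ∧ ∀ ω, B'' ω → |u ω - ∑ i, kk ω i * dl * X ω i| ≤ 3 * T * dl ∧
        ∀ i, |kk ω i * dl - eval (Y ω) (pderiv i (U n ω))| ≤ 2 * dl := by
  classical
  obtain ⟨C, hC, hmain⟩ := hess_dead D₀
  refine ⟨32 * C, by linarith, ?_⟩
  intro Ω P S S' _ p B B' pt sl sd Y Yc X n ctr ρ EU EN U Ph cs D h Q κ η c₀ T s xh Tu h₁ κ₁ s₁ ε
    dl u τ₀ hch hT hD hT1 huc hτc hτ hu hTm hB' hκ hκ₁ hpos hsm hsε hε hdl
  have hb := hch.bll n le_rfl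
  have hρn := (hch.ρ0 n le_rfl).1
  have hρ0 := (hch.ρ0 0 (Nat.zero_le _)).1
  have hρ : ρ n ≤ ρ 0 := by
    rcases Nat.eq_zero_or_pos n with h0 | h0
    · rw [h0]
    · have := hch.ρd 0 (Nat.zero_le _) n le_rfl h0
      linarith
  -- the sum of the squares of the second derivatives
  obtain ⟨q, hq⟩ : ∃ q : Ω → MvPolynomial (Fin 3) ℝ, q = fun ω =>
      ∑ i, ∑ j, pderiv i (pderiv j (U n ω)) ^ 2 := ⟨_, rfl⟩
  have hqe : ∀ ω b, eval b (q ω) = ∑ i, ∑ j, h3 (U n ω) b i j ^ 2 := fun ω b => by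
    rw [hq]
    simp only [map_sum, map_pow]
    rfl
  obtain ⟨B₁, hB₁, hP₁, hv₁⟩ := hb.rel B' hB' hκ (fun ω => dil (ctr n ω) (ρ n) (q ω))
    ((((hch.ctrc n le_rfl).sub hB').map2 ((hch.Uc n le_rfl).sub hB') fun a F =>
      dil a (ρ n) (∑ i, ∑ j, pderiv i (pderiv j F) ^ 2)).fine (fun _ _ _ _ e => e) |> fun h => by
        rw [hq]; exact h)
    (fun ω hω => by
      refine (Pool.AFF82.dil_deg _ _ (D := 2 * D₀) ?_).trans hD
      rw [hq]
      refine (totalDegree_finsetSum _ _).trans (Finset.sup_le fun i _ => ?_)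
      refine (totalDegree_finsetSum _ _).trans (Finset.sup_le fun j _ => ?_)
      refine (totalDegree_pow _ _).trans ?_
      exact Nat.mul_le_mul_left 2 (totalDegree_pdσ (totalDegree_pdσ (hch.degU n le_rfl ω
        (hB' ω hω)) j) i))
    (9 * ε ^ 2) (by positivity) (fun ω hω => by
      rw [Pool.AFF82.eval_dil]
      have e1 : (fun i => ctr n ω i + ρ n * unt Y (ctr n) (ρ n) ω i) = Y ω := by
        funext i
        unfold unt
        field_simp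
        ring
      rw [e1, hqe, abs_of_nonneg (Finset.sum_nonneg fun i _ => Finset.sum_nonneg fun j _ =>
        sq_nonneg _)]
      have h1 : ∀ i j : Fin 3, h3 (U n ω) (Y ω) i j ^ 2 ≤ ε ^ 2 := fun i j => by
        rw [← sq_abs]
        exact pow_le_pow_left₀ (abs_nonneg _) (hsm ω hω i j) 2
      refine (Finset.sum_le_sum fun i _ => Finset.sum_le_sum fun j _ => h1 i j).trans ?_
      simp only [Finset.sum_const, Finset.card_univ, Fintype.card_fin, nsmul_eq_mul]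
      push_cast
      linarith)
  -- the second derivatives on the cube
  have h2h : (1 : ℝ) ≤ 2 ^ h := one_le_pow₀ (by norm_num)
  have hcub : ∀ ω, B₁ ω → ∀ b : Fin 3 → ℝ, (∀ i, |b i - ctr n ω i| ≤ ρ n) → ∀ i j,
      |h3 (U n ω) b i j| ≤ 3 * (2 ^ h * ε) := by
    intro ω hω b hbb i j
    have h1 := hv₁ ω hω (fun i => (b i - ctr n ω i) / ρ n) (fun i => by
      rw [abs_div, abs_of_pos hρn, div_le_one hρn]
      exact hbb i)
    rw [Pool.AFF82.eval_dil] at h1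
    have e1 : (fun i => ctr n ω i + ρ n * ((b i - ctr n ω i) / ρ n)) = b := by
      funext i
      field_simp
      ring
    rw [e1, hqe, abs_of_nonneg (Finset.sum_nonneg fun i _ => Finset.sum_nonneg fun j _ =>
      sq_nonneg _)] at h1
    have h2 : h3 (U n ω) b i j ^ 2 ≤ ∑ i, ∑ j, h3 (U n ω) b i j ^ 2 :=
      (Finset.single_le_sum (f := fun j => h3 (U n ω) b i j ^ 2) (fun j _ => sq_nonneg _)
        (Finset.mem_univ j)).trans (Finset.single_le_sum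
        (f := fun i => ∑ j, h3 (U n ω) b i j ^ 2) (fun i _ => Finset.sum_nonneg fun j _ =>
          sq_nonneg _) (Finset.mem_univ i))
    have h3' : h3 (U n ω) b i j ^ 2 ≤ (3 * (2 ^ h * ε)) ^ 2 := by
      refine (h2.trans h1).trans ?_
      have : (2 : ℝ) ^ h * (9 * ε ^ 2) ≤ 2 ^ h * (2 ^ h * (9 * ε ^ 2)) :=
        mul_le_mul_of_nonneg_left (le_mul_of_one_le_left (by positivity) h2h) (by positivity)
      refine this.trans (le_of_eq (by ring))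
    exact abs_le_of_sq_le_sq h3' (by positivity)
  have hown : ∀ ω, B ω → ∀ i, |Y ω i - ctr n ω i| ≤ ρ n / 2 := fun ω hω i => by
    have h1 := hb.y1 ω hω i
    unfold unt at h1
    rw [abs_div, abs_of_pos hρn, div_le_iff₀ hρn] at h1
    linarith
  have hUc := hch.Uc n le_rfl
  have hcc := hch.ctrc n le_rfl
  obtain ⟨B₂, hB₂, hP₂, kk, hk1, hk2⟩ := hmain (B := B) (B' := B₁) (pt := pt) (sl := sl 0)
    (h := h + h₁ + 5) (κ := κ₁) (s := s₁) (T := T) (ε := ε) (dl := dl) (u := u) (τ₀ := τ₀)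
    hb.law hT hρn hρ hT1 (hch.degU n le_rfl) hch.X0 hb.XT huc hτc hτ hu
    (hTm.mono (by omega)) (fun ω hω => hB' ω (hB₁ ω hω)) (by linarith) (by linarith)
    (fun ω ω' h1 h2 e i => by
      have hω := hB' ω (hB₁ ω h1)
      have hω' := hB' ω' (hB₁ ω' h2)
      rw [hUc.1 ω' ω hω' hω e.symm]
      have h5 := seg_dif (Q := pderiv i (U n ω)) (a := ctr n ω) (x := Y ω) (y := Y ω')
        (ρ := ρ n / 2) (H := 3 * (2 ^ h * ε)) (hown ω hω) (fun j => by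
          rw [hcc.1 ω ω' hω hω' e]
          exact hown ω' hω' j) (fun b hbb j => hcub ω h1 b (fun k => (hbb k).trans (by
            linarith)) j i)
      refine h5.trans ?_
      have h6 : (2 : ℝ) ^ h * (ε * ρ n) ≤ 2 ^ (h + h₁) * (ε * ρ 0) := by
        refine mul_le_mul (pw_le (Nat.le_add_right _ _)) ?_ (by positivity) (by positivity)
        exact mul_le_mul_of_nonneg_left hρ hε.le
      have h7 : (2 : ℝ) ^ (h + h₁ + 5) = 32 * 2 ^ (h + h₁) := by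
        rw [pow_add]
        norm_num
        ring
      rw [h7]
      have h8 : 0 < (2 : ℝ) ^ (h + h₁) * (ε * ρ 0) := by positivity
      linarith)
    (fun ω hω => hsm ω (hB₁ ω hω)) hsε hε (by
      refine le_trans (le_of_eq ?_) hdl
      ring)
  exact ⟨B₂, fun ω hω => hB₁ ω (hB₂ ω hω), by linarith, kk, hk1, hk2⟩

end Pool.CNC60
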