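import Pool.Agent.H99.D2.Che
import Pool.Agent.H82.CNC.Afc

/-!
# The own line in an affine frame

`der_dil`: values and derivative of a polynomial on the interval of `2 ^ n` times the length.
`pl`: the point of the own line at the distance `s` in time. `grd_fr`: the gradient of the chart of
the coordinate `c 1`, from the size of the box in the coordinates of the frame. `nrm_fr`: the
natural norms of the two vectors of the frame.
-/

set_option autoImplicit false

namespace Pool.CNC60

open Finset Real MvPolynomial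
open Pool.Agent.H49.Ent Pool.Agent.H32.Dense Pool.STK Pool.KA Pool.KSAT Pool.K2S Pool.PB Pool.S6C
open Pool.GEN Pool.CHT Pool.CHX Pool.ISO Pool.D2R Pool.D2G30 Pool.V1E
open Pool.CR99 Pool.AFF82
open Pool.PB.Trl (rt rt_mem t_rt)

variable {m J : ℕ}

/-! ### Growth -/

/-- **Values and derivative** on the interval of `2 ^ n` times the length. -/
theorem der_dil (D : ℕ) : ∃ C : ℕ, ∀ (q : Polynomial ℝ) (S h y₀ : ℝ) (n : ℕ), q.natDegree ≤ D →
    0 < h → (∀ y, |y - y₀| ≤ h → |q.eval y| ≤ S) → ∀ y, |y - y₀| ≤ 2 ^ n * h →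
      |q.eval y| ≤ 2 ^ (C * (n + 1)) * S ∧
      |(Polynomial.derivative q).eval y| ≤ 2 ^ (C * (n + 1)) * S / h := by
  obtain ⟨C, hC, hco⟩ := Pool.Agent.H40.FR.unit_coef D
  obtain ⟨c₀, hc₀⟩ := pow_unbounded_of_one_lt (C * ((D + 1) * (D + 1))) (one_lt_two (α := ℝ))
  refine ⟨c₀ + D, ?_⟩
  intro q S h y₀ n hq hh hS y hy
  have hD0 : (0 : ℝ) ≤ D := Nat.cast_nonneg D
  have hS0 : 0 ≤ S := (abs_nonneg _).trans (hS y₀ (by rw [sub_self, abs_zero]; exact hh.le))
  -- unit scale
  obtain ⟨f, hf⟩ : ∃ f : Polynomial ℝ, f = q.comp (Polynomial.C y₀ + Polynomial.C h *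
      Polynomial.X) := ⟨_, rfl⟩
  have hfe : ∀ w, f.eval w = q.eval (y₀ + h * w) := by
    intro w
    rw [hf, Polynomial.eval_comp]
    simp only [Polynomial.eval_add, Polynomial.eval_mul, Polynomial.eval_C, Polynomial.eval_X]
  have hfd : f.natDegree ≤ D := by
    rw [hf]
    refine Polynomial.natDegree_comp_le.trans ?_
    calc q.natDegree * (Polynomial.C y₀ + Polynomial.C h * Polynomial.X : Polynomial ℝ).natDegree
        ≤ D * 1 := by
          refine Nat.mul_le_mul hq ((Polynomial.natDegree_add_le _ _).trans (max_le ?_ ?_))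
          · rw [Polynomial.natDegree_C]
            exact Nat.zero_le _
          · exact (Polynomial.natDegree_C_mul_le _ _).trans Polynomial.natDegree_X_le
      _ = D := mul_one _
  have hfD : ∀ w, (Polynomial.derivative f).eval w =
      h * (Polynomial.derivative q).eval (y₀ + h * w) := by
    intro w
    rw [hf, Polynomial.derivative_comp, Polynomial.eval_mul, Polynomial.eval_comp]
    simp only [Polynomial.derivative_add, Polynomial.derivative_C, Polynomial.derivative_mul,
      Polynomial.derivative_X, Polynomial.eval_add, Polynomial.eval_mul, Polynomial.eval_C,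
      Polynomial.eval_X, Polynomial.eval_zero, Polynomial.eval_one]
    ring
  have hcf : ∀ j, |f.coeff j| ≤ C * S := hco f S hfd fun w hw => by
    rw [hfe]
    refine hS _ ?_
    have e1 : y₀ + h * w - y₀ = h * w := by ring
    rw [e1, abs_mul, abs_of_pos hh, abs_of_nonneg hw.1]
    nlinarith [hw.2]
  obtain ⟨w, hw⟩ : ∃ w : ℝ, w = (y - y₀) / h := ⟨_, rfl⟩
  have hyw : y = y₀ + h * w := by
    rw [hw]
    field_simp
    ring
  have hw1 : |w| ≤ 2 ^ n := by
    rw [hw, abs_div, abs_of_pos hh, div_le_iff₀ hh]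
    exact hy
  have h2n : (1 : ℝ) ≤ 2 ^ n := one_le_pow₀ (by norm_num)
  have hpw : ∀ j ≤ D, |w| ^ j ≤ 2 ^ (n * D) := by
    intro j hj
    calc |w| ^ j ≤ (2 ^ n) ^ j := pow_le_pow_left₀ (abs_nonneg _) hw1 j
      _ ≤ (2 ^ n) ^ D := pow_le_pow_right₀ h2n hj
      _ = _ := (pow_mul _ _ _).symm
  have hCS : 0 ≤ C * S := by positivity
  have hfin : C * ((D + 1) * (D + 1)) * 2 ^ (n * D) ≤ 2 ^ ((c₀ + D) * (n + 1)) := by
    calc C * ((D + 1) * (D + 1)) * 2 ^ (n * D) ≤ 2 ^ c₀ * 2 ^ (n * D) :=
          mul_le_mul_of_nonneg_right hc₀.le (by positivity)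
      _ = 2 ^ (c₀ + n * D) := (pow_add _ _ _).symm
      _ ≤ _ := pow_le_pow_right₀ (by norm_num) (by nlinarith)
  have hv : |f.eval w| ≤ C * ((D + 1) * (D + 1)) * 2 ^ (n * D) * S := by
    rw [Polynomial.eval_eq_sum_range' (n := D + 1) (by omega)]
    refine (Finset.abs_sum_le_sum_abs _ _).trans ?_
    calc ∑ j ∈ range (D + 1), |f.coeff j * w ^ j| ≤ ∑ _j ∈ range (D + 1), C * S * 2 ^ (n * D) := by
          refine Finset.sum_le_sum fun j hj => ?_
          rw [abs_mul, abs_pow]
          exact mul_le_mul (hcf j) (hpw j (by rw [mem_range] at hj; omega)) (by positivity) hCS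
      _ = (D + 1) * (C * S * 2 ^ (n * D)) := by
          rw [Finset.sum_const, card_range, nsmul_eq_mul]
          push_cast
          ring
      _ ≤ (D + 1) * (D + 1) * (C * S * 2 ^ (n * D)) := by
          refine mul_le_mul_of_nonneg_right ?_ (by positivity)
          nlinarith
      _ = _ := by ring
  have hd : |(Polynomial.derivative f).eval w| ≤ C * ((D + 1) * (D + 1)) * 2 ^ (n * D) * S := by
    have hdd : (Polynomial.derivative f).natDegree < D + 1 :=
      lt_of_le_of_lt ((Polynomial.natDegree_derivative_le f).trans (Nat.sub_le _ _)) (by omega)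
    rw [Polynomial.eval_eq_sum_range' hdd]
    refine (Finset.abs_sum_le_sum_abs _ _).trans ?_
    calc ∑ j ∈ range (D + 1), |(Polynomial.derivative f).coeff j * w ^ j| ≤
          ∑ _j ∈ range (D + 1), C * S * (D + 1) * 2 ^ (n * D) := by
          refine Finset.sum_le_sum fun j hj => ?_
          rw [mem_range] at hj
          rw [abs_mul, abs_pow, Polynomial.coeff_derivative, abs_mul]
          have e1 : |(j : ℝ) + 1| = j + 1 := abs_of_nonneg (by positivity)
          have e2 : (j : ℝ) ≤ D := by exact_mod_cast Nat.lt_succ_iff.1 hj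
          rw [e1]
          refine mul_le_mul ?_ (hpw j (by omega)) (by positivity) (by positivity)
          exact mul_le_mul (hcf _) (by linarith) (by positivity) hCS
      _ = _ := by
          rw [Finset.sum_const, card_range, nsmul_eq_mul]
          push_cast
          ring
  constructor
  · rw [hyw, ← hfe]
    exact hv.trans (mul_le_mul_of_nonneg_right hfin hS0)
  · rw [le_div_iff₀ hh, hyw]
    have e1 : |(Polynomial.derivative q).eval (y₀ + h * w)| * h =
        |(Polynomial.derivative f).eval w| := by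
      rw [hfD, abs_mul, abs_of_pos hh]
      ring
    rw [e1]
    exact hd.trans (mul_le_mul_of_nonneg_right hfin hS0)

/-- The same, from the unit interval to the point `y` with `|y| ≤ 2 ^ n`. -/
theorem der_win (D : ℕ) : ∃ C : ℕ, ∀ (q : Polynomial ℝ) (S : ℝ) (n : ℕ), q.natDegree ≤ D →
    (∀ y ∈ Set.Icc (0 : ℝ) 1, |q.eval y| ≤ S) → ∀ y, |y| ≤ 2 ^ n →
      |q.eval y| ≤ 2 ^ (C * (n + 1)) * S := by
  obtain ⟨C, hC⟩ := der_dil D
  refine ⟨3 * C, ?_⟩
  intro q S n hq hS y hy
  have hS0 : 0 ≤ S := (abs_nonneg _).trans (hS 0 (by simp))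
  have h1 := (hC q S (1 / 2) (1 / 2) (n + 2) hq (by norm_num) (fun z hz => by
    rw [abs_le] at hz
    exact hS z ⟨by linarith [hz.1], by linarith [hz.2]⟩) y (by
    have h2n : (1 : ℝ) ≤ 2 ^ n := one_le_pow₀ (by norm_num)
    have e1 : (2 : ℝ) ^ (n + 2) * (1 / 2) = 2 * 2 ^ n := by
      rw [pow_add]
      ring
    rw [e1]
    refine (abs_sub _ _).trans ?_
    rw [abs_of_pos (by norm_num : (0 : ℝ) < 1 / 2)]
    linarith)).1
  refine h1.trans (mul_le_mul_of_nonneg_right (pow_le_pow_right₀ (by norm_num) ?_) hS0)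
  nlinarith

/-! ### The own line -/

/-- **The point of the own line** at the distance `s` in time. -/
noncomputable def pl (F : Fam m J) (ω : F.Ω) (s : ℝ) : Option (Fin m) → ℝ :=
  fun o => bt F ω o + s * bd F ω o

/-- The point of the window. -/
theorem ptw_pl (F : Fam m J) {a : ℕ} (ha : a ≤ J) (ω : F.Ω) (τ : ℝ) :
    ptw F a ω τ = pl F ω ((τ - rt F a ω) / 2 ^ a) := by
  have h1 : ∀ (o : Option (Fin m)) (τ : ℝ), (lc a (slam F a ω) o).eval τ =
      (lc a (slam F a ω) o).eval 0 + τ * (1 / 2 ^ a * bd F ω o) := by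
    intro o τ
    have h2 := natDegree_lc a (slam F a ω) o
    have h3 := der_lc F a ω o
    obtain ⟨x, y, hxy⟩ : ∃ x y : ℝ, lc a (slam F a ω) o = Polynomial.C x * Polynomial.X +
        Polynomial.C y := Polynomial.exists_eq_X_add_C_of_natDegree_le_one h2
    rw [hxy] at h3 ⊢
    simp only [Polynomial.derivative_add, Polynomial.derivative_mul, Polynomial.derivative_C,
      Polynomial.derivative_X, zero_mul, mul_one, zero_add, add_zero] at h3
    have h4 := Polynomial.C_injective h3
    simp only [Polynomial.eval_add, Polynomial.eval_mul, Polynomial.eval_C, Polynomial.eval_X]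
    rw [← h4]
    ring
  funext o
  have h2 := h1 o τ
  have h3 := h1 o (rt F a ω)
  rw [eval_lc F ha ω o] at h3
  show (lc a (slam F a ω) o).eval τ = bt F ω o + (τ - rt F a ω) / 2 ^ a * bd F ω o
  rw [h2, h3]
  ring

/-- The point of the line in the window. -/
theorem pl_ptw (F : Fam m J) {a : ℕ} (ha : a ≤ J) (ω : F.Ω) (s : ℝ) :
    pl F ω s = ptw F a ω (rt F a ω + 2 ^ a * s) := by
  rw [ptw_pl F ha]
  congr 1
  field_simp
  ring

theorem pl_none (F : Fam m J) (ω : F.Ω) (s : ℝ) : pl F ω s none = F.t ω + s := by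
  show F.t ω + s * 1 = _
  ring

/-- The values of a polynomial on the line, from the values on the window. -/
theorem line_win (D : ℕ) : ∃ C : ℕ, ∀ {m J : ℕ} {F : Fam m J} {a : ℕ}, a ≤ J → ∀ (ω : F.Ω)
    (P : MvPolynomial (Option (Fin m)) ℝ) (S : ℝ) (n : ℕ), P.totalDegree ≤ D →
    (∀ τ ∈ Set.Icc (0 : ℝ) 1, |eval (ptw F a ω τ) P| ≤ S) → ∀ s : ℝ, |s| ≤ 2 ^ n / 2 ^ a →
      |eval (pl F ω s) P| ≤ 2 ^ (C * (n + 1)) * S := by
  obtain ⟨C, hC⟩ := der_win D
  refine ⟨2 * C, ?_⟩
  intro m J F a ha ω P S n hP hS s hs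
  have hS0 : 0 ≤ S := (abs_nonneg _).trans (hS 0 (by simp))
  have h1 := hC (MvPolynomial.aeval (lc a (slam F a ω)) P) S (n + 1)
    (Pool.KBX.natDegree_aeval_le _ _ (natDegree_lc a _) hP) (fun τ hτ => by
      rw [aeval_lc]
      exact hS τ hτ) (rt F a ω + 2 ^ a * s) (by
      have h2 := rt_mem F a ω
      have h3 : |2 ^ a * s| ≤ 2 ^ n := by
        rw [abs_mul, abs_of_pos (by positivity : (0 : ℝ) < 2 ^ a), mul_comm,
          ← le_div_iff₀ (by positivity)]
        exact hs
      have h4 : (1 : ℝ) ≤ 2 ^ n := one_le_pow₀ (by norm_num)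
      refine (abs_add_le _ _).trans ?_
      rw [abs_of_nonneg h2.1, pow_succ]
      linarith [h2.2])
  rw [aeval_lc, ← pl_ptw F ha] at h1
  refine h1.trans (mul_le_mul_of_nonneg_right (pow_le_pow_right₀ (by norm_num) ?_) hS0)
  nlinarith

/-! ### Derivatives over the plane -/

/-- Directions without time: only the coordinates of the chart matter. -/
theorem dd_dep {c : ℕ → Fin m} {r : ℕ} {Q : MvPolynomial (Option (Fin m)) ℝ} (hQ : DepC c r Q)
    {x y V : Option (Fin m) → ℝ} (hV : V none = 0) (h0 : x none = y none)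
    (h : ∀ l < r, x (some (c l)) = y (some (c l))) : dd Q x V = dd Q y V := by
  unfold dd
  refine Finset.sum_congr rfl fun o _ => ?_
  cases o with
  | none => rw [hV, mul_zero, mul_zero]
  | some k =>
    by_cases h9 : ∃ j < r, c j = k
    · obtain ⟨j, h10, rfl⟩ := h9
      rw [hQ.pderiv j x y h0 h]
    · rw [pd_zero hQ (fun j h10 h11 => h9 ⟨j, h10, h11⟩) x,
        pd_zero hQ (fun j h10 h11 => h9 ⟨j, h10, h11⟩) y]

/-- The correction in time has no derivative in such directions. -/
theorem dd_Hno {ζ : Type} (k : Fin m)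
    (H : ((Fin m → ℝ) × (Fin m → ℝ)) × ζ × ℕ → MvPolynomial (Option (Fin m)) ℝ)
    (s : ((Fin m → ℝ) × (Fin m → ℝ)) × ζ × ℕ) (x : Option (Fin m) → ℝ)
    {V : Option (Fin m) → ℝ} (hV : V none = 0) : dd (Hno k H s) x V = dd (H s) x V := by
  unfold dd
  refine Finset.sum_congr rfl fun o _ => ?_
  cases o with
  | none => rw [hV, mul_zero, mul_zero]
  | some k' => rw [pd_Hno]

/-- The derivative as a value. -/
noncomputable def ddp (R : MvPolynomial (Option (Fin m)) ℝ) (V : Option (Fin m) → ℝ) :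
    MvPolynomial (Option (Fin m)) ℝ := ∑ o, pderiv o R * C (V o)

theorem eval_ddp (R : MvPolynomial (Option (Fin m)) ℝ) (x V : Option (Fin m) → ℝ) :
    eval x (ddp R V) = dd R x V := by
  unfold ddp dd
  rw [map_sum]
  exact Finset.sum_congr rfl fun o _ => by rw [map_mul, eval_C]

theorem deg_ddp {R : MvPolynomial (Option (Fin m)) ℝ} {D : ℕ} (hR : R.totalDegree ≤ D)
    (V : Option (Fin m) → ℝ) : (ddp R V).totalDegree ≤ D := by
  unfold ddp
  refine (totalDegree_finsetSum _ _).trans (Finset.sup_le fun o _ => ?_)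
  refine (totalDegree_mul _ _).trans ?_
  rw [totalDegree_C, add_zero]
  exact totalDegree_pdσ hR _

/-! ### The frame -/

/-- **The gradient of the chart of `c 1`**, from the size of the box in the coordinates of the
frame. -/
theorem grd_fr (D : ℕ) (hD : 1 ≤ D) : ∃ C : ℕ, ∀ {m : ℕ} {c : ℕ → Fin m}
    {ψ : ℕ → MvPolynomial (Option (Fin m)) ℝ} {g : ℕ → ℕ} {a n o s0 s1 : ℕ} {t y M : ℝ}
    {Nf : AfN} {x : Option (Fin m) → ℝ}, Set.InjOn c (Set.Iio 2) →
    (∀ l, (ψ l).totalDegree ≤ D) → (∀ l, DepC c l (ψ l)) →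
    (∀ b, NBx c ψ g a t 2 b → |afc c Nf o s0 s1 b 2 - y| ≤ M) → |x none - t| ≤ 1 / 2 ^ a →
    |x (some (c 0)) - eval x (ψ 0)| ≤ 2 ^ n / 2 ^ g 0 →
    |Nf.a2 - eval x (pderiv (some (c 0)) (ψ 1))| ≤ 2 ^ (C * (n + 1)) * M * 2 ^ g 0 / 2 ^ s1 := by
  classical
  obtain ⟨C, hC⟩ := der_dil D
  refine ⟨C, ?_⟩
  intro m c ψ g a n o s0 s1 t y M Nf x hc hψ hdep hbox hx hx0
  have hne : c 0 ≠ c 1 := fun h => by
    have := hc (show (0 : ℕ) < 2 by norm_num) (show (1 : ℕ) < 2 by norm_num) h
    omega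
  obtain ⟨G, hG⟩ : ∃ G : Option (Fin m) → Polynomial ℝ, G = fun k =>
      if k = some (c 0) then Polynomial.X else Polynomial.C (x k) := ⟨_, rfl⟩
  have hGe : ∀ (S : MvPolynomial (Option (Fin m)) ℝ) (w : ℝ),
      (MvPolynomial.aeval G S).eval w = eval (up (c 0) x w) S := by
    intro S w
    rw [Pool.D2G30.eval_aev]
    congr 1
    congr 1
    funext k
    rw [hG]
    unfold up
    show Polynomial.eval w (if k = some (c 0) then _ else _) = _
    split_ifs
    · rw [Polynomial.eval_X]
    · rw [Polynomial.eval_C]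
  have hdG : (MvPolynomial.aeval G (ψ 1)).natDegree ≤ D := by
    have h1 := natDegree_aeval_mul (ψ 1) G (E := 1) (fun k => by
      rw [hG]
      show (if k = some (c 0) then _ else _ : Polynomial ℝ).natDegree ≤ 1
      split_ifs
      · exact Polynomial.natDegree_X_le
      · rw [Polynomial.natDegree_C]
        exact Nat.zero_le _) (hψ 1)
    rwa [mul_one] at h1
  have hderG : ∀ w, (Polynomial.derivative (MvPolynomial.aeval G (ψ 1))).eval w =
      eval (up (c 0) x w) (pderiv (some (c 0)) (ψ 1)) := by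
    intro w
    rw [der_aev, Polynomial.eval_finsetSum, Finset.sum_eq_single (some (c 0))]
    · rw [Polynomial.eval_mul, hGe, hG]
      simp
    · intro k _ hk
      rw [Polynomial.eval_mul, hG]
      simp [hk]
    · intro h'
      exact absurd (Finset.mem_univ _) h'
  -- the third coordinate over the chart
  obtain ⟨q, hq⟩ : ∃ q : Polynomial ℝ, q = Polynomial.C (2 ^ s1) * (MvPolynomial.aeval G (ψ 1) -
      Polynomial.C Nf.a2 * Polynomial.X + Polynomial.C (Nf.a2 * (Nf.x0 + Nf.a0 * (x none - Nf.t)) -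
      Nf.x1 - Nf.a1 * (x none - Nf.t) - y / 2 ^ s1)) := ⟨_, rfl⟩
  have hs1 : (0 : ℝ) < 2 ^ s1 := by positivity
  have hqd : q.natDegree ≤ D := by
    rw [hq]
    refine (Polynomial.natDegree_C_mul_le _ _).trans ((Polynomial.natDegree_add_le _ _).trans
      (max_le ((Polynomial.natDegree_sub_le _ _).trans (max_le hdG ?_)) ?_))
    · exact ((Polynomial.natDegree_C_mul_le _ _).trans Polynomial.natDegree_X_le).trans hD
    · rw [Polynomial.natDegree_C]
      exact Nat.zero_le _
  have hval : ∀ w, |w - eval x (ψ 0)| ≤ 1 / 2 ^ g 0 → |q.eval w| ≤ M := by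
    intro w hw
    obtain ⟨b, hb⟩ : ∃ b : Option (Fin m) → ℝ, b = up (c 1) (up (c 0) x w)
        (eval (up (c 0) x w) (ψ 1)) := ⟨_, rfl⟩
    have b0 : b none = x none := by rw [hb, up_none, up_none]
    have b1 : b (some (c 0)) = w := by rw [hb, up_ne hne, up_self]
    have b2 : b (some (c 1)) = eval (up (c 0) x w) (ψ 1) := by rw [hb, up_self]
    have e0 : eval b (ψ 0) = eval x (ψ 0) :=
      hdep 0 _ _ b0 fun l hl => absurd hl (Nat.not_lt_zero l)
    have e1 : eval b (ψ 1) = eval (up (c 0) x w) (ψ 1) :=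
      hdep 1 _ _ (by rw [b0, up_none]) fun l hl => by
        have : l = 0 := by omega
        subst this
        rw [b1, up_self]
    have h1 := hbox b ⟨by rw [b0]; exact hx, fun l hl => by
      rcases l with _ | _ | l
      · show |b (some (c 0)) - eval b (ψ 0)| ≤ 1 / 2 ^ g 0
        rw [b1, e0]
        exact hw
      · show |b (some (c 1)) - eval b (ψ 1)| ≤ 1 / 2 ^ g 1
        rw [b2, e1, sub_self, abs_zero]
        positivity
      · omega⟩
    refine le_trans (le_of_eq ?_) h1
    congr 1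
    rw [hq]
    simp only [Polynomial.eval_mul, Polynomial.eval_add, Polynomial.eval_sub, Polynomial.eval_C,
      Polynomial.eval_X]
    rw [hGe]
    show _ = 2 ^ s1 * (b (some (c 1)) - Nf.x1 - Nf.a1 * (b none - Nf.t) -
      Nf.a2 * (b (some (c 0)) - Nf.x0 - Nf.a0 * (b none - Nf.t))) - y
    rw [b0, b1, b2]
    field_simp
    ring
  have h1 := (hC q M (1 / 2 ^ g 0) (eval x (ψ 0)) n hqd (by positivity) hval (x (some (c 0))) (by
    rw [mul_one_div]
    exact hx0)).2
  have hup : up (c 0) x (x (some (c 0))) = x := up_eq rfl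
  have e1 : (Polynomial.derivative q).eval (x (some (c 0))) =
      2 ^ s1 * (eval x (pderiv (some (c 0)) (ψ 1)) - Nf.a2) := by
    have h2 := hderG (x (some (c 0)))
    rw [hup] at h2
    rw [hq, ← h2]
    simp only [Polynomial.derivative_mul, Polynomial.derivative_add, Polynomial.derivative_sub,
      Polynomial.derivative_C, Polynomial.derivative_X, Polynomial.eval_mul, Polynomial.eval_add,
      Polynomial.eval_sub, Polynomial.eval_C, Polynomial.eval_zero, Polynomial.eval_one]
    ring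
  rw [e1, abs_mul, abs_of_pos hs1, abs_sub_comm] at h1
  rw [le_div_iff₀ hs1, mul_comm]
  refine h1.trans (le_of_eq ?_)
  field_simp

end Pool.CNC60
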