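import Pool.Agent.H60.CNC.Rnd
import Pool.Agent.H60.CNC.Lin
import Pool.Agent.H73.D2.Hgt
import Pool.Agent.H35.MICA.Pth

/-!
# A flat chart of `u` makes the velocity of `u` known

`hess_dead`: in the frame of the window, when the own line is straight in the frame and every second
derivative of the chart of `u` of the deepest window is at most `ε` at the own points of a part of
the event, the velocity of `u` is within `3 T dl` of `∑ i, kk i * dl * X i` with a closed `kk`, on an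
eighth of the part, for every `dl ≥ C T ^ 2 2 ^ h ρ 0 ε`.
-/

set_option autoImplicit false

namespace Pool.CNC60

open Finset MvPolynomial
open Pool.STK (IsLaw)
open Pool.K2S (Pe)
open Pool.CUB46 (q2 l1 h3)
open Pool.CNC76 (Clo Tub)
open Pool.GEN (totalDegree_pdσ)

/-- **Growth in time**: a polynomial in the time, closed on the code of the line, which is small at
the own times of a part is small on the interval of the radius `R`. -/
def TmF {Ω S : Type} [Fintype Ω] (p : Ω → ℝ) (B : Ω → Prop) (sl : Ω → S) (t : Ω → ℝ) (D h : ℕ)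
    (κ R : ℝ) : Prop :=
  ∀ B' : Ω → Prop, (∀ ω, B' ω → B ω) → κ * Pe p B ≤ Pe p B' →
    ∀ q : Ω → Polynomial ℝ, (∀ ω ω', B' ω → B' ω' → sl ω = sl ω' → q ω = q ω') →
    (∀ ω, B' ω → (q ω).natDegree ≤ D) → ∀ M : ℝ, 0 < M → (∀ ω, B' ω → |(q ω).eval (t ω)| ≤ M) →
    ∃ B'' : Ω → Prop, (∀ ω, B'' ω → B' ω) ∧ Pe p B' ≤ 2 * Pe p B'' ∧
      ∀ ω, B'' ω → ∀ τ, |τ - t ω| ≤ R → |(q ω).eval τ| ≤ 2 ^ h * M

/-- The mean value theorem for a polynomial. -/
theorem mv_pol (q : Polynomial ℝ) {x y R M : ℝ} (hxy : |y - x| ≤ R)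
    (h : ∀ τ, |τ - x| ≤ R → |(Polynomial.derivative q).eval τ| ≤ M) :
    |q.eval y - q.eval x| ≤ M * R := by
  have hM0 : 0 ≤ M := (abs_nonneg _).trans (h y hxy)
  have hR : 0 ≤ R := (abs_nonneg _).trans hxy
  have key := Convex.norm_image_sub_le_of_norm_deriv_le (𝕜 := ℝ) (f := fun t => q.eval t)
    (s := Set.Icc (x - R) (x + R)) (C := M) (x := x) (y := y)
    (fun z _ => (Polynomial.differentiable q).differentiableAt) (fun z hz => by
      rw [Polynomial.deriv, Real.norm_eq_abs]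
      refine h z ?_
      rw [abs_le]
      constructor <;> linarith [hz.1, hz.2]) (convex_Icc _ _) (by
      constructor <;> linarith) (by
      rw [abs_le] at hxy
      constructor <;> linarith [hxy.1, hxy.2])
  rw [Real.norm_eq_abs, Real.norm_eq_abs] at key
  exact key.trans (mul_le_mul_of_nonneg_left hxy hM0)

/-- A polynomial which is affine on an interval. -/
theorem lin_pol {q : Polynomial ℝ} {t y x R : ℝ} (hR : 0 < R)
    (h : ∀ τ, |τ - t| ≤ R → q.eval τ = y + (τ - t) * x) :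
    q = Polynomial.C (y - t * x) + Polynomial.C x * Polynomial.X := by
  refine Polynomial.eq_of_infinite_eval_eq _ _ ?_
  refine Set.Infinite.mono (s := Set.Icc t (t + R)) (fun τ hτ => ?_)
    (Set.Icc_infinite (by linarith))
  show q.eval τ = _
  rw [h τ (by rw [abs_le]; constructor <;> linarith [hτ.1, hτ.2])]
  simp only [Polynomial.eval_add, Polynomial.eval_mul, Polynomial.eval_C, Polynomial.eval_X]
  ring

/-- **A flat chart makes the velocity known.** -/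
theorem hess_dead (D₀ : ℕ) : ∃ C : ℝ, 1 ≤ C ∧ ∀ {Ω P S : Type} [Fintype Ω] {p : Ω → ℝ}
    {B B' : Ω → Prop} {pt : Ω → P} {sl : Ω → S} {Y X : Ω → Fin 3 → ℝ} {n : ℕ} {ρ EU : ℕ → ℝ}
    {U : ℕ → Ω → MvPolynomial (Fin 3) ℝ} {xh : Ω → Fin 3 → Polynomial ℝ}
    {Tu : Ω → MvPolynomial (Fin 3) ℝ} {h : ℕ} {κ s T ε dl : ℝ} {u τ₀ : Ω → ℝ},
    IsLaw p → Tub B sl Y X 0 n ρ EU U xh Tu D₀ 0 s → 0 < ρ n → ρ n ≤ ρ 0 → 1 ≤ T →
    (∀ ω, B ω → (U n ω).totalDegree ≤ D₀) → (∀ ω, B ω → X ω 0 = 1) →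
    (∀ ω, B ω → ∀ i, |X ω i| ≤ T) →
    (∀ ω ω', B ω → B ω' → sl ω = sl ω' → u ω = u ω') →
    (∀ ω ω', B ω → B ω' → sl ω = sl ω' → τ₀ ω = τ₀ ω') →
    (∀ ω, B ω → |τ₀ ω - Y ω 0| ≤ 2 * ρ 0) →
    (∀ ω, B ω → |u ω - ∑ i, eval (Y ω) (pderiv i (U n ω)) * X ω i| ≤ s * EU n / ρ n) →
    TmF p B sl (fun ω => Y ω 0) (D₀ * D₀) h κ (2 * ρ 0) →
    (∀ ω, B' ω → B ω) → 2 * (κ * Pe p B) ≤ Pe p B' → 0 < Pe p B' →
    (∀ ω ω', B' ω → B' ω' → pt ω = pt ω' → ∀ i,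
      |eval (Y ω) (pderiv i (U n ω)) - eval (Y ω') (pderiv i (U n ω'))| ≤ 2 ^ h * (ε * ρ 0)) →
    (∀ ω, B' ω → ∀ i j, |h3 (U n ω) (Y ω) i j| ≤ ε) → s * EU n / ρ n ^ 2 ≤ ε → 0 < ε →
    C * T ^ 2 * 2 ^ h * ρ 0 * ε ≤ dl →
    ∃ B'' : Ω → Prop, (∀ ω, B'' ω → B' ω) ∧ Pe p B' ≤ 8 * Pe p B'' ∧ ∃ kk : Ω → Fin 3 → ℤ,
      Clo B'' pt sl kk ∧ ∀ ω, B'' ω → |u ω - ∑ i, kk ω i * dl * X ω i| ≤ 3 * T * dl ∧
        ∀ i, |kk ω i * dl - eval (Y ω) (pderiv i (U n ω))| ≤ 2 * dl := by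
  classical
  obtain ⟨c, hc⟩ := der_dil (D₀ * D₀)
  refine ⟨224 * (7 + 2 ^ (c + 1)), by
    have : (0 : ℝ) < 2 ^ (c + 1) := by positivity
    linarith, ?_⟩
  intro Ω P S _ p B B' pt sl Y X n ρ EU U xh Tu h κ s T ε dl u τ₀ hp hT hρn hρ hT1 hdU hX0 hXT huc
    hτc hτ hu hTm hB' hPe hpos hpt hsm hsε hε hdl
  have hT0 : (0 : ℝ) < T := by linarith
  have hρ0 : 0 < ρ 0 := hρn.trans_le hρ
  -- the error
  obtain ⟨e, he⟩ : ∃ e, e = s * EU n / ρ n := ⟨_, rfl⟩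
  rw [← he] at hu
  obtain ⟨ω₁, hω₁⟩ : ∃ ω, B' ω := by
    by_contra hcon
    push Not at hcon
    have : Pe p B' = 0 := by
      rw [Pool.K2S.Pe_eq]
      refine Finset.sum_eq_zero fun ω _ => ?_
      rw [if_neg (hcon ω)]
    linarith
  have he0 : 0 ≤ e := (abs_nonneg _).trans (hu ω₁ (hB' ω₁ hω₁))
  have hee : e ≤ ε * ρ n := by
    have h1 : s * EU n / ρ n ^ 2 = e / ρ n := by
      rw [he]
      field_simp
    rw [h1, div_le_iff₀ hρn] at hsε
    exact hsε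
  have he1 : e ≤ ε * ρ 0 := hee.trans (mul_le_mul_of_nonneg_left hρ hε.le)
  -- the path
  have hxe : ∀ ω, B ω → ∀ i, xh ω i = Polynomial.C (Y ω i - Y ω 0 * X ω i) +
      Polynomial.C (X ω i) * Polynomial.X := fun ω hω i => by
    refine lin_pol (R := 2 * ρ 0) (by linarith) fun τ hτ => ?_
    have h1 := hT.near ω hω τ hτ i
    have h2 := abs_nonpos_iff.1 h1
    linarith
  have hxY : ∀ ω, B ω → (fun i => (xh ω i).eval (Y ω 0)) = Y ω := fun ω hω => by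
    funext i
    rw [hxe ω hω i]
    simp only [Polynomial.eval_add, Polynomial.eval_mul, Polynomial.eval_C, Polynomial.eval_X]
    ring
  have hxd : ∀ ω, B ω → ∀ i, Polynomial.derivative (xh ω i) = Polynomial.C (X ω i) :=
    fun ω hω i => by
      rw [hxe ω hω i]
      simp
  have hXc : ∀ ω ω', B ω → B ω' → sl ω = sl ω' → X ω = X ω' := fun ω ω' h1 h2 e1 => by
    funext i
    have h3 := hxd ω h1 i
    rw [hT.xc ω ω' h1 h2 e1, hxd ω' h2 i] at h3
    exact (Polynomial.C_injective h3).symm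
  -- the slopes on the tube
  obtain ⟨m, hm⟩ : ∃ m : Fin 3 → Ω → Polynomial ℝ, m = fun l ω => aeval (xh ω) (pderiv l (Tu ω)) :=
    ⟨_, rfl⟩
  have hmc : ∀ l ω ω', B ω → B ω' → sl ω = sl ω' → m l ω = m l ω' := fun l ω ω' h1 h2 e1 => by
    rw [hm]
    show aeval (xh ω) (pderiv l (Tu ω)) = aeval (xh ω') (pderiv l (Tu ω'))
    rw [hT.xc ω ω' h1 h2 e1, hT.Tc ω ω' h1 h2 e1]
  have hmd : ∀ l ω, B ω → (m l ω).natDegree ≤ D₀ * D₀ := fun l ω hω => by
    rw [hm]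
    exact Pool.PTH.natDegree_aeval_le' _ _ (hT.xd ω hω) (totalDegree_pdσ (hT.Td ω hω) l)
  have hme : ∀ l, l ≠ 0 → ∀ ω, B ω →
      |(m l ω).eval (Y ω 0) - eval (Y ω) (pderiv l (U n ω))| ≤ e ∧
      |(Polynomial.derivative (m l ω)).eval (Y ω 0) - ∑ i, h3 (U n ω) (Y ω) i l * X ω i| ≤
        2 ^ c * e / (2 * ρ n) := by
    intro l hl ω hω
    obtain ⟨q, hq⟩ : ∃ q : Polynomial ℝ, q = m l ω - aeval (xh ω) (pderiv l (U n ω)) := ⟨_, rfl⟩
    have hqe : ∀ τ, q.eval τ = eval (fun i => (xh ω i).eval τ) (pderiv l (Tu ω)) -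
        eval (fun i => (xh ω i).eval τ) (pderiv l (U n ω)) := fun τ => by
      rw [hq, hm, Polynomial.eval_sub, Pool.PTH.eval_aev, Pool.PTH.eval_aev]
    have hqb : ∀ τ, |τ - Y ω 0| ≤ 2 * ρ n → |q.eval τ| ≤ e := fun τ h1 => by
      rw [hqe, he]
      exact hT.grd n (Nat.zero_le _) le_rfl ω hω τ h1 l hl
    have hqd : q.natDegree ≤ D₀ * D₀ := by
      rw [hq]
      refine (Polynomial.natDegree_sub_le _ _).trans (max_le (hmd l ω hω) ?_)
      exact Pool.PTH.natDegree_aeval_le' _ _ (hT.xd ω hω) (totalDegree_pdσ (hdU ω hω) l)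
    have h1 := hqb (Y ω 0) (by rw [sub_self, abs_zero]; linarith)
    have h2 := (hc q e (2 * ρ n) (Y ω 0) 0 hqd (by linarith) hqb (Y ω 0) (by
      rw [sub_self, abs_zero]; linarith)).2
    rw [zero_add, mul_one] at h2
    constructor
    · rw [hqe, hxY ω hω] at h1
      have h3 : (m l ω).eval (Y ω 0) = eval (Y ω) (pderiv l (Tu ω)) := by
        rw [hm]
        show (aeval (xh ω) (pderiv l (Tu ω))).eval (Y ω 0) = _
        rw [Pool.PTH.eval_aev, hxY ω hω]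
      rw [h3]
      exact h1
    · refine le_trans (le_of_eq ?_) h2
      rw [hq, Polynomial.derivative_sub, Polynomial.eval_sub, Pool.D2G30.der_aev (xh ω),
        Polynomial.eval_finsetSum]
      congr 2
      refine Finset.sum_congr rfl fun i _ => ?_
      rw [Polynomial.eval_mul, Pool.PTH.eval_aev, hxY ω hω, hxd ω hω i, Polynomial.eval_C]
      rfl
  -- the derivatives of the slopes are small at the own times
  obtain ⟨M, hM⟩ : ∃ M, M = (3 + 2 ^ c) * T * ε := ⟨_, rfl⟩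
  have h2c : (0 : ℝ) < 2 ^ c := by positivity
  have hM0 : 0 < M := by
    rw [hM]
    positivity
  have hmM : ∀ l, l ≠ 0 → ∀ ω, B' ω → |(Polynomial.derivative (m l ω)).eval (Y ω 0)| ≤ M := by
    intro l hl ω hω
    have h1 := (hme l hl ω (hB' ω hω)).2
    have h2 : |∑ i, h3 (U n ω) (Y ω) i l * X ω i| ≤ 3 * (ε * T) := by
      refine (Finset.abs_sum_le_sum_abs _ _).trans ?_
      refine (Finset.sum_le_sum (g := fun _ => ε * T) fun i _ => ?_).trans ?_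
      · rw [abs_mul]
        exact mul_le_mul (hsm ω hω i l) (hXT ω (hB' ω hω) i) (abs_nonneg _) hε.le
      · rw [Finset.sum_const, Finset.card_univ, Fintype.card_fin, nsmul_eq_mul]
        norm_num
    have h3 : 2 ^ c * e / (2 * ρ n) ≤ 2 ^ c * ε := by
      rw [div_le_iff₀ (by linarith)]
      have h4 : 2 ^ c * e ≤ 2 ^ c * (ε * ρ n) := mul_le_mul_of_nonneg_left hee h2c.le
      nlinarith [mul_pos (mul_pos h2c hε) hρn]
    have h4 : |(Polynomial.derivative (m l ω)).eval (Y ω 0)| ≤ 3 * (ε * T) + 2 ^ c * ε := by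
      have h5 := abs_le.1 (h1.trans h3)
      have h6 := abs_le.1 h2
      rw [abs_le]
      constructor <;> linarith [h5.1, h5.2, h6.1, h6.2]
    refine h4.trans ?_
    rw [hM]
    have : 2 ^ c * ε ≤ 2 ^ c * ε * T := le_mul_of_one_le_right (by positivity) hT1
    linarith
  -- growth
  have hgr : ∀ l, l ≠ 0 → ∀ A : Ω → Prop, (∀ ω, A ω → B' ω) → κ * Pe p B ≤ Pe p A →
      ∃ A' : Ω → Prop, (∀ ω, A' ω → A ω) ∧ Pe p A ≤ 2 * Pe p A' ∧
        ∀ ω, A' ω → |(m l ω).eval (τ₀ ω) - (m l ω).eval (Y ω 0)| ≤ 2 ^ h * M * (2 * ρ 0) := by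
    intro l hl A hA hPA
    obtain ⟨A', h1, h2, h3⟩ := hTm A (fun ω hω => hB' ω (hA ω hω)) hPA
      (fun ω => Polynomial.derivative (m l ω)) (fun ω ω' ha hb e1 => by
        show Polynomial.derivative (m l ω) = Polynomial.derivative (m l ω')
        rw [hmc l ω ω' (hB' ω (hA ω ha)) (hB' ω' (hA ω' hb)) e1])
      (fun ω hω => (Polynomial.natDegree_derivative_le _).trans
        ((Nat.sub_le _ _).trans (hmd l ω (hB' ω (hA ω hω))))) M hM0
      (fun ω hω => hmM l hl ω (hA ω hω))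
    exact ⟨A', h1, h2, fun ω hω => mv_pol _ (hτ ω (hB' ω (hA ω (h1 ω hω)))) (h3 ω hω)⟩
  have hκ : κ * Pe p B ≤ Pe p B' := by linarith
  obtain ⟨B₁, hB₁, hP₁, hv₁⟩ := hgr 1 (by decide) B' (fun ω hω => hω) hκ
  obtain ⟨B₂, hB₂, hP₂, hv₂⟩ := hgr 2 (by decide) B₁ hB₁ (by linarith)
  have hB₂B : ∀ ω, B₂ ω → B ω := fun ω hω => hB' ω (hB₁ ω (hB₂ ω hω))
  -- the numbers
  obtain ⟨a, ha⟩ : ∃ a, a = 2 ^ h * M * (2 * ρ 0) + ε * ρ 0 := ⟨_, rfl⟩
  have h2h : (1 : ℝ) ≤ 2 ^ h := one_le_pow₀ (by norm_num)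
  have hερ : 0 < ε * ρ 0 := mul_pos hε hρ0
  have ha0 : 0 < a := by
    rw [ha]
    have : 0 < 2 ^ h * M * (2 * ρ 0) := by positivity
    linarith
  have hea : e ≤ a := by
    rw [ha]
    have : 0 < 2 ^ h * M * (2 * ρ 0) := by positivity
    linarith
  have hca : 2 ^ h * (ε * ρ 0) ≤ a := by
    have h1 : ε ≤ M := by
      rw [hM]
      have h2 : ε ≤ T * ε := le_mul_of_one_le_left hε.le hT1
      have h3 : T * ε ≤ (3 + 2 ^ c) * (T * ε) := le_mul_of_one_le_left (by positivity) (by linarith)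
      linarith
    have h2 : 2 ^ h * (ε * ρ 0) ≤ 2 ^ h * (M * ρ 0) :=
      mul_le_mul_of_nonneg_left (mul_le_mul_of_nonneg_right h1 hρ0.le) (by positivity)
    rw [ha]
    have h3 : 0 < 2 ^ h * (M * ρ 0) := by positivity
    linarith
  have hadl : 224 * (a * T) ≤ dl := by
    refine le_trans ?_ hdl
    have h1 : a ≤ (7 + 2 ^ (c + 1)) * (2 ^ h * (T * (ε * ρ 0))) := by
      rw [ha, hM, pow_succ]
      have h2 : ε * ρ 0 ≤ 2 ^ h * (T * (ε * ρ 0)) := by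
        calc ε * ρ 0 = 1 * (1 * (ε * ρ 0)) := by ring
          _ ≤ 2 ^ h * (T * (ε * ρ 0)) := by
            refine mul_le_mul h2h ?_ (by linarith) (by linarith)
            exact mul_le_mul_of_nonneg_right hT1 hερ.le
      nlinarith
    calc 224 * (a * T) ≤ 224 * ((7 + 2 ^ (c + 1)) * (2 ^ h * (T * (ε * ρ 0))) * T) :=
          mul_le_mul_of_nonneg_left (mul_le_mul_of_nonneg_right h1 hT0.le) (by norm_num)
      _ = _ := by ring
  -- the closed gradient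
  obtain ⟨A, hA⟩ : ∃ A : Ω → Fin 3 → ℝ, A = fun ω i =>
      if i = 0 then u ω - (m 1 ω).eval (τ₀ ω) * X ω 1 - (m 2 ω).eval (τ₀ ω) * X ω 2
      else (m i ω).eval (τ₀ ω) := ⟨_, rfl⟩
  have hAs : ∀ ω ω', B₂ ω → B₂ ω' → sl ω = sl ω' → A ω = A ω' := by
    intro ω ω' h1 h2 e1
    funext i
    simp only [hA]
    rw [huc ω ω' (hB₂B ω h1) (hB₂B ω' h2) e1, hτc ω ω' (hB₂B ω h1) (hB₂B ω' h2) e1,
      hXc ω ω' (hB₂B ω h1) (hB₂B ω' h2) e1, hmc 1 ω ω' (hB₂B ω h1) (hB₂B ω' h2) e1,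
      hmc 2 ω ω' (hB₂B ω h1) (hB₂B ω' h2) e1, hmc i ω ω' (hB₂B ω h1) (hB₂B ω' h2) e1]
  have hAl : ∀ ω, B₂ ω → ∀ l, l ≠ 0 → |A ω l - eval (Y ω) (pderiv l (U n ω))| ≤ a := by
    intro ω hω l hl
    have h1 : |(m l ω).eval (τ₀ ω) - (m l ω).eval (Y ω 0)| ≤ 2 ^ h * M * (2 * ρ 0) := by
      have h2 : l = 1 ∨ l = 2 := by
        revert hl
        revert l
        decide
      rcases h2 with h2 | h2
      · subst h2
        exact hv₁ ω (hB₂ ω hω)
      · subst h2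
        exact hv₂ ω hω
    have h2 := (hme l hl ω (hB₂B ω hω)).1
    simp only [hA, if_neg hl]
    rw [ha]
    have h3 := abs_le.1 h1
    have h4 := abs_le.1 h2
    rw [abs_le]
    constructor <;> linarith [h3.1, h3.2, h4.1, h4.2]
  have hAu : ∀ ω, B₂ ω → ∑ i, A ω i * X ω i = u ω := by
    intro ω hω
    rw [Fin.sum_univ_three]
    have h1 : A ω 0 = u ω - (m 1 ω).eval (τ₀ ω) * X ω 1 - (m 2 ω).eval (τ₀ ω) * X ω 2 := by
      rw [hA]
      exact if_pos rfl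
    have h2 : A ω 1 = (m 1 ω).eval (τ₀ ω) := by
      rw [hA]
      exact if_neg (by decide)
    have h3 : A ω 2 = (m 2 ω).eval (τ₀ ω) := by
      rw [hA]
      exact if_neg (by decide)
    rw [h1, h2, h3, hX0 ω (hB₂B ω hω)]
    ring
  have hA0 : ∀ ω, B₂ ω → ∀ i, |A ω i - eval (Y ω) (pderiv i (U n ω))| ≤ 3 * (a * T) := by
    intro ω hω i
    have haT : a ≤ a * T := le_mul_of_one_le_right ha0.le hT1
    by_cases hi : i = 0
    · subst hi
      have h1 := hu ω (hB₂B ω hω)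
      rw [← hAu ω hω, Fin.sum_univ_three, Fin.sum_univ_three, hX0 ω (hB₂B ω hω)] at h1
      have h2 : ∀ l, l ≠ 0 → |(A ω l - eval (Y ω) (pderiv l (U n ω))) * X ω l| ≤ a * T :=
        fun l hl => by
          rw [abs_mul]
          exact mul_le_mul (hAl ω hω l hl) (hXT ω (hB₂B ω hω) l) (abs_nonneg _) ha0.le
      have h3 := abs_le.1 (h2 1 (by decide))
      have h4 := abs_le.1 (h2 2 (by decide))
      have h5 := abs_le.1 h1
      rw [abs_le]
      constructor <;> linarith [h3.1, h3.2, h4.1, h4.2, h5.1, h5.2]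
    · exact (hAl ω hω i hi).trans (by linarith)
  have hAp : ∀ ω ω', B₂ ω → B₂ ω' → pt ω = pt ω' → ∀ i, |A ω i - A ω' i| ≤ 7 * (a * T) := by
    intro ω ω' h1 h2 e1 i
    have h3 := abs_le.1 (hA0 ω h1 i)
    have h4 := abs_le.1 (hA0 ω' h2 i)
    have h5 := abs_le.1 ((hpt ω ω' (hB₁ ω (hB₂ ω h1)) (hB₁ ω' (hB₂ ω' h2)) e1 i).trans hca)
    have haT : a ≤ a * T := le_mul_of_one_le_right ha0.le hT1
    rw [abs_le]
    constructor <;> linarith [h3.1, h3.2, h4.1, h4.2, h5.1, h5.2]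
  -- rounding
  have hdl0 : 0 < dl := by
    have : 0 < a * T := mul_pos ha0 hT0
    linarith
  obtain ⟨B₃, hB₃, hP₃, kk, hkc, hkk⟩ := rnd_clo hp (B := B₂) (pt := pt) (sl := sl) (f := A)
    (dl := dl / 32) (by linarith) hAs (fun ω ω' h1 h2 e1 i =>
      (hAp ω ω' h1 h2 e1 i).trans (by linarith))
  have e32 : 32 * (dl / 32) = dl := by ring
  rw [e32] at hkk
  refine ⟨B₃, fun ω hω => hB₁ ω (hB₂ ω (hB₃ ω hω)), by linarith, kk, hkc,
    fun ω hω => ⟨?_, fun i => ?_⟩⟩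
  · rw [← hAu ω (hB₃ ω hω), ← Finset.sum_sub_distrib]
    refine (Finset.abs_sum_le_sum_abs _ _).trans ?_
    refine (Finset.sum_le_sum (g := fun _ => dl * T) fun i _ => ?_).trans ?_
    · rw [← sub_mul, abs_mul]
      exact mul_le_mul (hkk ω hω i) (hXT ω (hB₂B ω (hB₃ ω hω)) i) (abs_nonneg _) hdl0.le
    · rw [Finset.sum_const, Finset.card_univ, Fintype.card_fin, nsmul_eq_mul]
      push_cast
      linarith
  · have h1 := abs_le.1 (hkk ω hω i)
    have h2 := abs_le.1 (hA0 ω (hB₃ ω hω) i)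
    have haT : 0 < a * T := mul_pos ha0 hT0
    rw [abs_le]
    constructor <;> linarith [h1.1, h1.2, h2.1, h2.2]

end Pool.CNC60
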