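import Pool.Agent.H60.CNC.Hdd
import Pool.Agent.H60.CNC.Tbe

/-!
# The growth in time from the entropy of the time

`tmf_ev`: `TmF` on an event, for the time of the frame, from `Tm` on the parts of the event.
-/

set_option autoImplicit false

namespace Pool.CNC60

open Finset Real MvPolynomial
open Pool.Agent.H49.Ent Pool.Agent.H32.Dense Pool.STK Pool.KA Pool.KSAT Pool.K2S Pool.PB Pool.S6C
open Pool.GEN Pool.CHT Pool.CHX Pool.ISO Pool.D2R Pool.D2G30 Pool.V1E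
open Pool.CR99 Pool.AFF82
open Pool.FLF (Fam.sub)
open Pool.PB.Trl (rt rt_mem t_rt)

/-- **Growth in time** from the entropy of the time. -/
theorem tmf_ev (m K : ℕ) : ∃ C : ℕ, 1 ≤ C ∧ ∀ {J : ℕ} {F : Fam m J} {c : ℕ → Fin m}
    {B : F.Ω → Prop} {a w s0 s1 x : ℕ} {Nf : F.Ω → AfN} {κ θ R : ℝ}, a ≤ J →
    (∀ ω ω', B ω → B ω' → slam F a ω = slam F a ω' → Nf ω = Nf ω') → 0 < κ → 0 < Pe F.p B →
    0 ≤ θ → (∀ (A : F.Ω → Prop) (hA : 0 < Pe F.p A), (∀ ω, A ω → B ω) →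
      κ * Pe F.p B ≤ Pe F.p A → (Fam.sub F A hA).Tm θ) →
    C * (θ + 1) ≤ ((J : ℝ) - a) * Real.log 2 → R ≤ 2 ^ x * 2 ^ w / 2 ^ a →
    TmF F.p B (slam F a) (fun ω => afc c (Nf ω) w s0 s1 (bt F ω) 0) K
      (C * (x + ⌈θ⌉₊ + 1)) κ R := by
  classical
  obtain ⟨C₁, hC₁, hrem⟩ := rem_fam m K 1
  obtain ⟨c₂, hdil⟩ := der_dil K
  refine ⟨2 * ⌈C₁⌉₊ + 3 * c₂ + 1, by omega, ?_⟩
  intro J F c B a w s0 s1 x Nf κ θ R haJ hNf hκ hB hθ hTm hJ hR B' hB' hκB q hq hqd M hM hqM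
  have hB'0 : 0 < Pe F.p B' := (mul_pos hκ hB).trans_le hκB
  have h2w : (0 : ℝ) < 2 ^ w := by positivity
  have h2a : (0 : ℝ) < 2 ^ a := by positivity
  -- the frame time
  have hft : ∀ ω τ, afc c (Nf ω) w s0 s1 (ptw F a ω τ) 0 =
      afc c (Nf ω) w s0 s1 (ptw F a ω 0) 0 + 2 ^ w / 2 ^ a * τ := by
    intro ω τ
    rw [ptw_pl F haJ, ptw_pl F haJ]
    show 2 ^ w * (pl F ω ((τ - rt F a ω) / 2 ^ a) none - (Nf ω).t) =
      2 ^ w * (pl F ω ((0 - rt F a ω) / 2 ^ a) none - (Nf ω).t) + 2 ^ w / 2 ^ a * τ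
    rw [pl_none, pl_none]
    ring
  have hrt : ∀ ω, ptw F a ω (rt F a ω) = bt F ω := fun ω => by
    rw [ptw_pl F haJ, sub_self, zero_div]
    funext k
    unfold pl
    ring
  -- the polynomial in the relative time
  obtain ⟨Q, hQ⟩ : ∃ Q : LnT F → Polynomial ℝ, Q = fun s => if h : ∃ ω, B' ω ∧ slam F a ω = s then
      (q (Classical.choose h)).comp (Polynomial.C (afc c (Nf (Classical.choose h)) w s0 s1
        (ptw F a (Classical.choose h) 0) 0) + Polynomial.C (2 ^ w / 2 ^ a) * Polynomial.X)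
      else 0 := ⟨_, rfl⟩
  have hQe : ∀ ω, B' ω → ∀ τ, (Q (slam F a ω)).eval τ =
      (q ω).eval (afc c (Nf ω) w s0 s1 (ptw F a ω 0) 0 + 2 ^ w / 2 ^ a * τ) := by
    intro ω hω τ
    have h1 : ∃ ω', B' ω' ∧ slam F a ω' = slam F a ω := ⟨ω, hω, rfl⟩
    have h2 := Classical.choose_spec h1
    rw [hQ]
    simp only [dif_pos h1]
    rw [Polynomial.eval_comp, Polynomial.eval_add, Polynomial.eval_mul, Polynomial.eval_C,
      Polynomial.eval_C, Polynomial.eval_X, hq _ ω h2.1 hω h2.2,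
      hNf _ ω (hB' _ h2.1) (hB' ω hω) h2.2]
    have e1 : ptw F a (Classical.choose h1) 0 = ptw F a ω 0 := by
      funext o
      unfold ptw
      rw [h2.2]
    rw [e1]
  have hQd : ∀ s, (Q s).natDegree ≤ K := by
    intro s
    rw [hQ]
    by_cases h : ∃ ω, B' ω ∧ slam F a ω = s
    · simp only [dif_pos h]
      refine Polynomial.natDegree_comp_le.trans ?_
      refine le_trans (Nat.mul_le_mul (hqd _ (Classical.choose_spec h).1)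
        (show _ ≤ 1 from ?_)) (le_of_eq (Nat.mul_one K))
      refine (Polynomial.natDegree_add_le _ _).trans (max_le ?_ ?_)
      · rw [Polynomial.natDegree_C]
        exact Nat.zero_le _
      · exact (Polynomial.natDegree_C_mul_le _ _).trans Polynomial.natDegree_X_le
    · simp only [dif_neg h, Polynomial.natDegree_zero]
      exact Nat.zero_le _
  have hC1n : C₁ ≤ (⌈C₁⌉₊ : ℝ) := Nat.le_ceil _
  have hθ1 : 0 ≤ θ + 1 := by linarith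
  obtain ⟨B'', b1, b2, b3⟩ := hrem J F B' hB'0 a (fun _ => Q) (fun _ => M) θ haJ
    (fun _ _ s => hQd s) (fun _ _ => hM) hθ (hTm B' hB'0 hB' hκB) (by
      refine le_trans (mul_le_mul_of_nonneg_right ?_ hθ1) hJ
      push_cast
      have : (0 : ℝ) ≤ c₂ := Nat.cast_nonneg _
      linarith) (fun ω hω _ _ => by
      have h1 : |(q ω).eval (afc c (Nf ω) w s0 s1 (bt F ω) 0)| ≤ M := hqM ω hω
      rw [← hrt ω, hft ω] at h1
      rw [hQe ω hω]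
      exact h1)
  refine ⟨B'', b1, by linarith, fun ω hω τ hτ => ?_⟩
  obtain ⟨y₀, hy₀⟩ : ∃ y₀, y₀ = afc c (Nf ω) w s0 s1 (ptw F a ω 0) 0 := ⟨_, rfl⟩
  obtain ⟨L, hL⟩ : ∃ L : ℝ, L = 2 ^ w / 2 ^ a := ⟨_, rfl⟩
  have hL0 : 0 < L := by rw [hL]; positivity
  have hY : afc c (Nf ω) w s0 s1 (bt F ω) 0 = y₀ + L * rt F a ω := by
    rw [← hrt ω, hft ω, ← hy₀, ← hL]
  have hrm := rt_mem F a ω
  have hτ' : |τ - afc c (Nf ω) w s0 s1 (bt F ω) 0| ≤ R := hτ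
  rw [hY] at hτ'
  have hSv : ∀ y, |y - (y₀ + L / 2)| ≤ L / 2 → |(q ω).eval y| ≤ Real.exp (C₁ * (θ + 1)) * M := by
    intro y hy
    have h1 := abs_le.1 hy
    have h2 := b3 ω hω 0 (by norm_num) ((y - y₀) / L) ⟨div_nonneg (by linarith [h1.1]) hL0.le, by
      rw [div_le_one hL0]
      linarith [h1.2]⟩
    rw [hQe ω (b1 ω hω), ← hy₀, ← hL] at h2
    have e1 : y₀ + L * ((y - y₀) / L) = y := by
      field_simp
      ring
    rwa [e1] at h2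
  have h3 := (hdil (q ω) _ (L / 2) (y₀ + L / 2) (x + 2) (hqd ω (hB' ω (b1 ω hω) |> fun _ =>
    b1 ω hω)) (by linarith) hSv τ (by
      have h4 := abs_le.1 (hτ'.trans hR)
      have e2 : 2 ^ x * 2 ^ w / 2 ^ a = 2 ^ x * L := by rw [hL]; ring
      rw [e2] at h4
      have h5 : (1 : ℝ) ≤ 2 ^ x := one_le_pow₀ (by norm_num)
      have h6 : (2 : ℝ) ^ (x + 2) * (L / 2) = 2 * (2 ^ x * L) := by
        rw [pow_add]
        ring
      have h7 : L ≤ 2 ^ x * L := le_mul_of_one_le_left hL0.le h5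
      have h8 : L * rt F a ω ≤ L := mul_le_of_le_one_right hL0.le hrm.2
      have h9 : 0 ≤ L * rt F a ω := mul_nonneg hL0.le hrm.1
      rw [h6, abs_le]
      constructor <;> linarith [h4.1, h4.2])).1
  refine h3.trans ?_
  rw [← mul_assoc]
  refine mul_le_mul_of_nonneg_right ?_ hM.le
  have e3 : Real.exp (C₁ * (θ + 1)) ≤ 2 ^ (2 * ⌈C₁⌉₊ * (⌈θ⌉₊ + 1)) := by
    have h4 : Real.exp 1 ≤ 4 := Real.exp_one_lt_d9.le.trans (by norm_num)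
    have h5 : C₁ * (θ + 1) ≤ ((⌈C₁⌉₊ * (⌈θ⌉₊ + 1) : ℕ) : ℝ) := by
      push_cast
      exact mul_le_mul hC1n (by linarith [Nat.le_ceil θ]) hθ1 (by positivity)
    calc Real.exp (C₁ * (θ + 1)) ≤ Real.exp ((⌈C₁⌉₊ * (⌈θ⌉₊ + 1) : ℕ) : ℝ) :=
          Real.exp_le_exp.2 h5
      _ = Real.exp 1 ^ (⌈C₁⌉₊ * (⌈θ⌉₊ + 1)) := by rw [← Real.exp_nat_mul, mul_one]
      _ ≤ 4 ^ (⌈C₁⌉₊ * (⌈θ⌉₊ + 1)) := pow_le_pow_left₀ (Real.exp_pos _).le h4 _
      _ = 2 ^ (2 * ⌈C₁⌉₊ * (⌈θ⌉₊ + 1)) := by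
        rw [show (4 : ℝ) = 2 ^ 2 by norm_num, ← pow_mul, mul_assoc]
  calc (2 : ℝ) ^ (c₂ * (x + 2 + 1)) * Real.exp (C₁ * (θ + 1)) ≤
      2 ^ (c₂ * (x + 2 + 1)) * 2 ^ (2 * ⌈C₁⌉₊ * (⌈θ⌉₊ + 1)) :=
        mul_le_mul_of_nonneg_left e3 (by positivity)
    _ = 2 ^ (c₂ * (x + 2 + 1) + 2 * ⌈C₁⌉₊ * (⌈θ⌉₊ + 1)) := (pow_add _ _ _).symm
    _ ≤ _ := by
      refine pw_le ?_
      nlinarith [Nat.zero_le (c₂ * x), Nat.zero_le (⌈C₁⌉₊ * x), Nat.zero_le (c₂ * ⌈θ⌉₊),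
        Nat.zero_le x, Nat.zero_le ⌈θ⌉₊]

end Pool.CNC60
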