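import Pool.Agent.H60.CNC.Hdc
import Pool.Agent.H60.CNC.Hdt
import Pool.Agent.H99.D2.Blf
import Pool.Agent.H76.CNC.Rmx
import Pool.Agent.H68.OWN.Npl

/-!
# The chart of an alive coordinate is curved

`grd_pul`: the derivative in the direction of the line, in the frame. `vis_ev`: when the velocity of
`u = c 2` is alive on every part of the event, given the time, the digits of the base and every closed
function, then on half of the event some second derivative of the chart of `u` is visible.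
-/

set_option autoImplicit false

namespace Pool.CNC60

open Finset Real MvPolynomial
open Pool.Agent.H49.Ent Pool.Agent.H32.Dense Pool.STK Pool.KA Pool.KSAT Pool.K2S Pool.PB Pool.S6C
open Pool.GEN Pool.CHT Pool.CHX Pool.ISO Pool.D2R Pool.D2G30 Pool.V1E
open Pool.CR99 Pool.AFF82
open Pool.CUB46 (q2 l1 h3)
open Pool.CNC76 (Clo Tub Bx dil unt pe_nn pe_mn pe_spl pe_ex)
open Pool.PB.Trl (rt rt_mem t_rt)

variable {m J : ℕ}

/-- **The derivative in a direction**, in the coordinates of the frame. -/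
theorem grd_pul {c : ℕ → Fin m} {N : AfN} {o s0 s1 : ℕ} (hc : Set.InjOn c (Set.Iio 2))
    {Q : MvPolynomial (Option (Fin m)) ℝ} (hQ : DepC c 2 Q) (b V : Option (Fin m) → ℝ) :
    2 ^ o * ∑ i, eval (afc c N o s0 s1 b) (pderiv i (pul c N o s0 s1 0 Q)) *
      vlc c N o s0 s1 V i = dd Q b V := by
  classical
  have key : lin (afc c N o s0 s1 b) (fun i => 2 ^ o * vlc c N o s0 s1 V i)
      (pul c N o s0 s1 0 Q) =
      aeval (fun k => Polynomial.C (b k) + Polynomial.C (V k) * Polynomial.X) Q := by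
    refine Polynomial.funext fun τ => ?_
    rw [eval_lin, Pool.PTH.eval_aev]
    have e1 : (fun i => afc c N o s0 s1 b i + 2 ^ o * vlc c N o s0 s1 V i * τ) =
        afc c N o s0 s1 (fun k => b k + τ * V k) := by
      funext i
      rw [afc_add]
      ring
    rw [e1, pul_afc hc hQ]
    congr 2
    funext k
    simp only [Polynomial.eval_add, Polynomial.eval_mul, Polynomial.eval_C, Polynomial.eval_X]
    ring
  have h1 := congrArg (fun q => (Polynomial.derivative q).eval 0) key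
  simp only [deriv_lin, Pool.D2G30.der_aev, Polynomial.eval_finsetSum, Polynomial.eval_mul,
    Polynomial.eval_C, eval_lin, Pool.PTH.eval_aev, mul_zero, add_zero, Polynomial.eval_add,
    Polynomial.eval_X, Polynomial.derivative_add, Polynomial.derivative_C,
    Polynomial.derivative_mul, Polynomial.derivative_X, Polynomial.eval_zero, Polynomial.eval_one,
    zero_mul, zero_add, mul_one] at h1
  rw [Finset.mul_sum]
  unfold dd
  refine Eq.trans (Finset.sum_congr rfl fun i _ => ?_) h1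
  ring

/-- The difference of the directions in the frame. -/
theorem vlc_dif {c : ℕ → Fin m} {N : AfN} {o s0 s1 : ℕ} {V V' : Option (Fin m) → ℝ} {δ : ℝ}
    (h : V none = V' none) (h0 : |V (some (c 0)) - V' (some (c 0))| ≤ δ)
    (h1 : |V (some (c 1)) - V' (some (c 1))| ≤ δ) :
    vlc c N o s0 s1 V 0 = vlc c N o s0 s1 V' 0 ∧
    |vlc c N o s0 s1 V 1 - vlc c N o s0 s1 V' 1| ≤ 2 ^ s0 / 2 ^ o * δ ∧
    |vlc c N o s0 s1 V 2 - vlc c N o s0 s1 V' 2| ≤ 2 ^ s1 / 2 ^ o * ((1 + |N.a2|) * δ) := by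
  refine ⟨h, ?_, ?_⟩
  · show |2 ^ s0 / 2 ^ o * (V (some (c 0)) - N.a0 * V none) -
      2 ^ s0 / 2 ^ o * (V' (some (c 0)) - N.a0 * V' none)| ≤ _
    rw [h, ← mul_sub, abs_mul, abs_of_pos (by positivity : (0 : ℝ) < 2 ^ s0 / 2 ^ o)]
    refine mul_le_mul_of_nonneg_left ?_ (by positivity)
    rw [sub_sub_sub_cancel_right]
    exact h0
  · show |2 ^ s1 / 2 ^ o * (V (some (c 1)) - N.a1 * V none - N.a2 * (V (some (c 0)) -
      N.a0 * V none)) - 2 ^ s1 / 2 ^ o * (V' (some (c 1)) - N.a1 * V' none -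
      N.a2 * (V' (some (c 0)) - N.a0 * V' none))| ≤ _
    rw [h, ← mul_sub, abs_mul, abs_of_pos (by positivity : (0 : ℝ) < 2 ^ s1 / 2 ^ o)]
    refine mul_le_mul_of_nonneg_left ?_ (by positivity)
    have e1 : V (some (c 1)) - N.a1 * V' none - N.a2 * (V (some (c 0)) - N.a0 * V' none) -
        (V' (some (c 1)) - N.a1 * V' none - N.a2 * (V' (some (c 0)) - N.a0 * V' none)) =
        (V (some (c 1)) - V' (some (c 1))) - N.a2 * (V (some (c 0)) - V' (some (c 0))) := by ring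
    rw [e1]
    refine (abs_sub _ _).trans ?_
    rw [abs_mul]
    have h2 := mul_le_mul_of_nonneg_left h0 (abs_nonneg N.a2)
    linarith

/-- **The chart of an alive coordinate is curved.** -/
theorem vis_ev (D₀ : ℕ) : ∃ C : ℝ, 1 ≤ C ∧ ∀ {m J : ℕ} {S' : Type} {F : Fam m J}
    {c : ℕ → Fin m} {B : F.Ω → Prop} {n : ℕ} {w : ℕ → ℕ} {sd : F.Ω → S'} {Yc : F.Ω → Fin 3 → ℝ}
    {N : F.Ω → AfN} {o s0 s1 : ℕ} {ctr : ℕ → F.Ω → Fin 3 → ℝ} {ρ EU EN : ℕ → ℝ}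
    {U Ph : ℕ → F.Ω → MvPolynomial (Fin 3) ℝ} {cs : ℕ → F.Ω → ℝ} {D h Q : ℕ} {κ η c₀ T s : ℝ}
    {xh : F.Ω → Fin 3 → Polynomial ℝ} {Tu : F.Ω → MvPolynomial (Fin 3) ℝ} {h₁ : ℕ}
    {κ₁ s₁ ε dl : ℝ} {hi lvl Λ : ℕ},
    Pool.CNC76.Chn F.p B (ptr F J) (fun k => slam F (w k)) sd
      (fun ω => afc c (N ω) o s0 s1 (bt F ω)) Yc (fun ω => vlc c (N ω) o s0 s1 (bd F ω)) n ctr ρ
      EU EN U Ph cs D₀ D h Q κ η c₀ T s →
    Tub B (slam F (w 0)) (fun ω => afc c (N ω) o s0 s1 (bt F ω))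
      (fun ω => vlc c (N ω) o s0 s1 (bd F ω)) 0 n ρ EU U xh Tu D₀ 0 s₁ →
    TmF F.p B (slam F (w 0)) (fun ω => afc c (N ω) o s0 s1 (bt F ω) 0) (D₀ * D₀) h₁ κ₁
      (2 * ρ 0) →
    Clo B (ptr F J) (slam F (w 0)) N → w 0 ≤ J → 2 * D₀ ≤ D → 1 ≤ T → 2 * κ ≤ 1 → 8 * κ₁ ≤ 1 →
    2 ^ o / 2 ^ w 0 ≤ 2 * ρ 0 →
    (∀ ω, B ω → |bd F ω (some (c 2)) / 2 ^ o -
      ∑ i, eval (afc c (N ω) o s0 s1 (bt F ω)) (pderiv i (U n ω)) *
        vlc c (N ω) o s0 s1 (bd F ω) i| ≤ s₁ * EU n / ρ n) →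
    (∀ ω, B ω → 2 ^ s0 * |eval (afc c (N ω) o s0 s1 (bt F ω)) (pderiv 1 (U n ω))| ≤ 2 ^ Λ ∧
      2 ^ s1 * (|eval (afc c (N ω) o s0 s1 (bt F ω)) (pderiv 2 (U n ω))| * (1 + |(N ω).a2|)) ≤
        2 ^ Λ) →
    s₁ * EU n / ρ n ^ 2 ≤ ε → 0 < ε → C * T ^ 2 * 2 ^ (h + h₁) * ρ 0 * ε ≤ dl →
    2 ^ o * (28 * (T * dl)) ≤ 1 / 2 ^ lvl → Λ + lvl + 2 ≤ hi →
    (∀ E : F.Ω → Prop, (∀ ω, E ω → B ω) → Pe F.p B ≤ 32 * Pe F.p E → ∀ (V : Type)
      (z : F.Ω → V), Clo E (ptr F J) (slam F (w 0)) z → Real.log 3 <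
      CH (Pool.Agent.H49.Ent.cond F.p E True) (fun ω => F.D lvl ω (c 2)) (fun ω =>
        (z ω, F.T ω, (fun l : Fin 2 => F.X hi ω (c l)), fun l : Fin 2 => F.D hi ω (c l)))) →
    ∃ B' : F.Ω → Prop, (∀ ω, B' ω → B ω) ∧ Pe F.p B ≤ 2 * Pe F.p B' ∧
      ∀ ω, B' ω → ∃ i j, ε < |h3 (U n ω) (afc c (N ω) o s0 s1 (bt F ω)) i j| := by
  classical
  obtain ⟨C, hC, hmain⟩ := hess_chn D₀
  refine ⟨C, hC, ?_⟩
  intro m J S' F c B n w sd Yc N o s0 s1 ctr ρ EU EN U Ph cs D h Q κ η c₀ T s xh Tu h₁ κ₁ s₁ ε dl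
    hi lvl Λ hch hT hTm hNc hwJ hD hT1 hκ hκ₁ hρ hvel hgrd hsε hε hdl hlvl hhi hal
  have hb := hch.bll n le_rfl
  have hp0 := F.isLaw.nonneg
  have hB := hb.pos
  have h2o : (0 : ℝ) < 2 ^ o := by positivity
  have hρ0 := (hch.ρ0 0 (Nat.zero_le _)).1
  obtain ⟨G, hG⟩ : ∃ G : F.Ω → Prop, G = fun ω =>
      ∀ i j, |h3 (U n ω) (afc c (N ω) o s0 s1 (bt F ω)) i j| ≤ ε := ⟨_, rfl⟩
  have hspl := pe_spl hp0 B G
  by_cases hcase : Pe F.p B ≤ 2 * Pe F.p (fun ω => B ω ∧ ¬ G ω)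
  · refine ⟨_, fun ω hω => hω.1, hcase, fun ω hω => ?_⟩
    have h1 := hω.2
    rw [hG] at h1
    simp only [not_forall, not_le] at h1
    exact h1
  exfalso
  push Not at hcase
  have hG2 : Pe F.p B ≤ 2 * Pe F.p (fun ω => B ω ∧ G ω) := by linarith
  obtain ⟨E, hE, hPE, kk, hk1, hk2⟩ := hmain (B := B) (B' := fun ω => B ω ∧ G ω) (u := fun ω =>
    bd F ω (some (c 2)) / 2 ^ o) (τ₀ := fun ω => afc c (N ω) o s0 s1 (ptw F (w 0) ω 0) 0) hch hT hD
    hT1 (fun ω ω' _ _ e => by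
      show bd F ω (some (c 2)) / 2 ^ o = bd F ω' (some (c 2)) / 2 ^ o
      have h1 := der_lc F (w 0) ω (some (c 2))
      have h2 := der_lc F (w 0) ω' (some (c 2))
      have e' : slam F (w 0) ω = slam F (w 0) ω' := e
      rw [e', h2] at h1
      have h3 := Polynomial.C_injective h1
      have h4 : (0 : ℝ) < 1 / 2 ^ w 0 := by positivity
      rw [mul_left_cancel₀ h4.ne' h3])
    (fun ω ω' h1 h2 e => by
      have e' : slam F (w 0) ω = slam F (w 0) ω' := e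
      show afc c (N ω) o s0 s1 (ptw F (w 0) ω 0) 0 = afc c (N ω') o s0 s1 (ptw F (w 0) ω' 0) 0
      rw [hNc.2 ω ω' h1 h2 e']
      have e1 : ptw F (w 0) ω 0 = ptw F (w 0) ω' 0 := by
        funext k
        unfold ptw
        rw [e']
      rw [e1])
    (fun ω hω => by
      show |afc c (N ω) o s0 s1 (ptw F (w 0) ω 0) 0 - afc c (N ω) o s0 s1 (bt F ω) 0| ≤ 2 * ρ 0
      rw [ptw_pl F hwJ]
      have e1 : afc c (N ω) o s0 s1 (pl F ω ((0 - rt F (w 0) ω) / 2 ^ w 0)) 0 -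
          afc c (N ω) o s0 s1 (bt F ω) 0 = -(2 ^ o / 2 ^ w 0 * rt F (w 0) ω) := by
        show 2 ^ o * (pl F ω ((0 - rt F (w 0) ω) / 2 ^ w 0) none - (N ω).t) -
          2 ^ o * (bt F ω none - (N ω).t) = _
        rw [pl_none]
        show 2 ^ o * (bt F ω none + _ - (N ω).t) - 2 ^ o * (bt F ω none - (N ω).t) = _
        ring
      have h1 := rt_mem F (w 0) ω
      rw [e1, abs_neg, abs_of_nonneg (mul_nonneg (by positivity) h1.1)]
      refine (mul_le_of_le_one_right (by positivity) ?_).trans hρ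
      exact h1.2)
    hvel hTm (fun ω hω => hω.1) (by
      have h1 := mul_le_mul_of_nonneg_right hκ hB.le
      linarith) (by
      have h1 := mul_le_mul_of_nonneg_right hκ₁ hB.le
      linarith) (by linarith) (fun ω hω i j => by
      have h1 := hω.2
      rw [hG] at h1
      exact h1 i j) hsε hε hdl
  have hPE' : Pe F.p B ≤ 32 * Pe F.p E := by linarith
  have hEB : ∀ ω, E ω → B ω := fun ω hω => (hE ω hω).1
  have hE0 : 0 < Pe F.p E := by linarith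
  have h1 := hal E hEB hPE' _ (fun ω => (kk ω, N ω)) (hk1.map2 (hNc.sub hEB) Prod.mk)
  have hdl0 : 0 ≤ dl := by
    obtain ⟨ω, hω⟩ := pe_ex E hE0
    have := (abs_nonneg _).trans ((hk2 ω hω).2 0)
    linarith
  have hT0 : 0 < T := by linarith
  have h2 := Pool.OWN68.CH_pair (isLaw_cond F.isLaw hE0) (fun ω => F.D lvl ω (c 2)) (fun ω =>
    ((kk ω, N ω), F.T ω, (fun l : Fin 2 => F.X hi ω (c l)), fun l : Fin 2 => F.D hi ω (c l)))
    (D := 1) (fun ω ω' hω hω' e => by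
    have hEω := cnd_of hω
    have hEω' := cnd_of hω'
    simp only [Prod.mk.injEq] at e
    obtain ⟨⟨ek, eN⟩, -, -, eD⟩ := e
    have d0 : |F.d ω (c 0) - F.d ω' (c 0)| ≤ 1 / 2 ^ hi := fl_near (congrFun eD 0)
    have d1 : |F.d ω (c 1) - F.d ω' (c 1)| ≤ 1 / 2 ^ hi := fl_near (congrFun eD 1)
    obtain ⟨x0, x1, x2⟩ := vlc_dif (c := c) (N := N ω) (o := o) (s0 := s0) (s1 := s1)
      (V := bd F ω) (V' := bd F ω') (δ := 1 / 2 ^ hi) rfl d0 d1
    obtain ⟨a1, a2⟩ := hk2 ω hEω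
    obtain ⟨b1, b2⟩ := hk2 ω' hEω'
    rw [← ek, ← eN] at b1
    obtain ⟨g1, g2⟩ := hgrd ω (hEB ω hEω)
    have hXT := fun i => hb.XT ω (hEB ω hEω) i
    have hXT' := fun i => hb.XT ω' (hEB ω' hEω') i
    rw [← eN] at hXT'
    -- the two terms
    have ht : ∀ i : Fin 3, ∀ δ : ℝ, |vlc c (N ω) o s0 s1 (bd F ω) i -
        vlc c (N ω) o s0 s1 (bd F ω') i| ≤ δ →
        |kk ω i * dl * (vlc c (N ω) o s0 s1 (bd F ω) i - vlc c (N ω) o s0 s1 (bd F ω') i)| ≤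
        4 * (T * dl) + |eval (afc c (N ω) o s0 s1 (bt F ω)) (pderiv i (U n ω))| * δ := by
      intro i δ hδ
      obtain ⟨g, hg⟩ : ∃ g, g = eval (afc c (N ω) o s0 s1 (bt F ω)) (pderiv i (U n ω)) :=
        ⟨_, rfl⟩
      have h3 := a2 i
      rw [← hg] at h3 ⊢
      obtain ⟨v, hv⟩ : ∃ v, v = vlc c (N ω) o s0 s1 (bd F ω) i -
        vlc c (N ω) o s0 s1 (bd F ω') i := ⟨_, rfl⟩
      rw [← hv] at hδ ⊢
      have h4 : |v| ≤ 2 * T := by
        rw [hv]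
        refine (abs_sub _ _).trans ?_
        have := hXT i
        have := hXT' i
        linarith
      have e1 : kk ω i * dl * v = (kk ω i * dl - g) * v + g * v := by ring
      rw [e1]
      refine (abs_add_le _ _).trans (add_le_add ?_ ?_)
      · rw [abs_mul]
        refine (mul_le_mul h3 h4 (abs_nonneg _) (by linarith)).trans (le_of_eq (by ring))
      · rw [abs_mul]
        exact mul_le_mul_of_nonneg_left hδ (abs_nonneg _)
    have t1 := ht 1 _ x1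
    have t2 := ht 2 _ x2
    have hh : (2 : ℝ) ^ Λ * (1 / 2 ^ hi) ≤ 1 / 4 * (1 / 2 ^ lvl) := by
      have h3 : (2 : ℝ) ^ Λ * (4 * 2 ^ lvl) ≤ 2 ^ hi := by
        calc (2 : ℝ) ^ Λ * (4 * 2 ^ lvl) = 2 ^ (Λ + lvl + 2) := by
              rw [pow_add, pow_add]
              ring
          _ ≤ 2 ^ hi := pw_le hhi
      rw [mul_one_div, div_mul_div_comm, mul_one, div_le_div_iff₀ (by positivity) (by positivity)]
      linarith
    have u1 : 2 ^ o * (|eval (afc c (N ω) o s0 s1 (bt F ω)) (pderiv 1 (U n ω))| *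
        (2 ^ s0 / 2 ^ o * (1 / 2 ^ hi))) ≤ 1 / 4 * (1 / 2 ^ lvl) := by
      refine le_trans (le_of_eq ?_) ((mul_le_mul_of_nonneg_right g1
        (by positivity : (0 : ℝ) ≤ 1 / 2 ^ hi)).trans hh)
      field_simp
    have u2 : 2 ^ o * (|eval (afc c (N ω) o s0 s1 (bt F ω)) (pderiv 2 (U n ω))| *
        (2 ^ s1 / 2 ^ o * ((1 + |(N ω).a2|) * (1 / 2 ^ hi)))) ≤ 1 / 4 * (1 / 2 ^ lvl) := by
      refine le_trans (le_of_eq ?_) ((mul_le_mul_of_nonneg_right g2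
        (by positivity : (0 : ℝ) ≤ 1 / 2 ^ hi)).trans hh)
      field_simp
    have hsum : ∑ i, kk ω i * dl * vlc c (N ω) o s0 s1 (bd F ω) i -
        ∑ i, kk ω i * dl * vlc c (N ω) o s0 s1 (bd F ω') i =
        kk ω 1 * dl * (vlc c (N ω) o s0 s1 (bd F ω) 1 - vlc c (N ω) o s0 s1 (bd F ω') 1) +
        kk ω 2 * dl * (vlc c (N ω) o s0 s1 (bd F ω) 2 - vlc c (N ω) o s0 s1 (bd F ω') 2) := by
      rw [Fin.sum_univ_three, Fin.sum_univ_three, x0]
      ring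
    have hfin : |bd F ω (some (c 2)) - bd F ω' (some (c 2))| ≤ 1 / 2 ^ lvl := by
      have e1 : bd F ω (some (c 2)) - bd F ω' (some (c 2)) = 2 ^ o *
          ((bd F ω (some (c 2)) / 2 ^ o - ∑ i, kk ω i * dl * vlc c (N ω) o s0 s1 (bd F ω) i) -
          (bd F ω' (some (c 2)) / 2 ^ o - ∑ i, kk ω i * dl * vlc c (N ω) o s0 s1 (bd F ω') i) +
          (∑ i, kk ω i * dl * vlc c (N ω) o s0 s1 (bd F ω) i -
            ∑ i, kk ω i * dl * vlc c (N ω) o s0 s1 (bd F ω') i)) := by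
        have q : ∀ x : ℝ, 2 ^ o * (x / 2 ^ o) = x := fun x => mul_div_cancel₀ x h2o.ne'
        have q' : ∀ a a' s s' : ℝ, a - s - (a' - s') + (s - s') = a - a' := fun _ _ _ _ => by ring
        rw [q', mul_sub, q, q]
      rw [e1, hsum, abs_mul, abs_of_pos h2o]
      refine (mul_le_mul_of_nonneg_left ((abs_add_le _ _).trans (add_le_add
        ((abs_sub _ _).trans (add_le_add a1 b1)) ((abs_add_le _ _).trans (add_le_add t1 t2))))
        h2o.le).trans ?_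
      have e2 : (2 : ℝ) ^ o * (28 * (T * dl)) = 28 * (2 ^ o * (T * dl)) := by ring
      rw [e2] at hlvl
      have h5 : 0 ≤ 2 ^ o * (T * dl) := by positivity
      linarith
    have hc2 : |(⌊(2 : ℝ) ^ lvl * F.d ω (c 2)⌋ : ℤ) - ⌊(2 : ℝ) ^ lvl * F.d ω' (c 2)⌋| ≤ ((1 : ℕ) : ℤ) := by
      have h6 : |(2 : ℝ) ^ lvl * F.d ω (c 2) - 2 ^ lvl * F.d ω' (c 2)| ≤ 1 := by
        rw [← mul_sub, abs_mul, abs_of_pos (by positivity : (0 : ℝ) < 2 ^ lvl)]
        have h7 : |F.d ω (c 2) - F.d ω' (c 2)| ≤ 1 / 2 ^ lvl := hfin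
        calc (2 : ℝ) ^ lvl * |F.d ω (c 2) - F.d ω' (c 2)| ≤ 2 ^ lvl * (1 / 2 ^ lvl) :=
              mul_le_mul_of_nonneg_left h7 (by positivity)
          _ = 1 := by field_simp
      have h8 := Int.floor_le ((2 : ℝ) ^ lvl * F.d ω (c 2))
      have h9 := Int.lt_floor_add_one ((2 : ℝ) ^ lvl * F.d ω (c 2))
      have h10 := Int.floor_le ((2 : ℝ) ^ lvl * F.d ω' (c 2))
      have h11 := Int.lt_floor_add_one ((2 : ℝ) ^ lvl * F.d ω' (c 2))
      have h12 := abs_le.1 h6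
      have h13 : (⌊(2 : ℝ) ^ lvl * F.d ω (c 2)⌋ : ℝ) - ⌊(2 : ℝ) ^ lvl * F.d ω' (c 2)⌋ < 2 := by
        linarith [h12.2]
      have h14 : (-2 : ℝ) < (⌊(2 : ℝ) ^ lvl * F.d ω (c 2)⌋ : ℝ) - ⌊(2 : ℝ) ^ lvl * F.d ω' (c 2)⌋ := by
        linarith [h12.1]
      have h15 : ⌊(2 : ℝ) ^ lvl * F.d ω (c 2)⌋ - ⌊(2 : ℝ) ^ lvl * F.d ω' (c 2)⌋ < 2 := by
        exact_mod_cast h13
      have h16 : -2 < ⌊(2 : ℝ) ^ lvl * F.d ω (c 2)⌋ - ⌊(2 : ℝ) ^ lvl * F.d ω' (c 2)⌋ := by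
        exact_mod_cast h14
      rw [abs_le]
      push_cast
      omega
    exact hc2)
  have e3 : Real.log (2 * ((1 : ℕ) : ℝ) + 1) = Real.log 3 := by norm_num
  rw [e3] at h2
  linarith

end Pool.CNC60
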