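import Pool.Agent.H60.CNC.Hdv

/-!
# The inputs of `vis_ev`

`alv_clo`: the aliveness of the class, for closed functions of the samples. `vel_fr`: the velocity of
`u` in the frame. `grd_fr2`: the gradient of the chart of `u` in the frame.
-/

set_option autoImplicit false

namespace Pool.CNC60

open Finset Real MvPolynomial
open Pool.Agent.H49.Ent Pool.Agent.H32.Dense Pool.STK Pool.KA Pool.KSAT Pool.K2S Pool.PB Pool.S6C
open Pool.GEN Pool.CHT Pool.CHX Pool.ISO Pool.D2R Pool.D2G30 Pool.V1E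
open Pool.CR99 Pool.AFF82
open Pool.CNC76 (Clo)

variable {m J : ℕ}

/-- The code of the line in a longer window. -/
theorem slm_mon {F : Fam m J} {w w' : ℕ} (hw : w ≤ w') (hw' : w' ≤ J) {ω ω' : F.Ω}
    (h : slam F w' ω = slam F w' ω') : slam F w ω = slam F w ω' := by
  rw [← slam_coarse' F hw hw' ω, ← slam_coarse' F hw hw' ω', h]

/-- **The aliveness of the class**, for closed functions. -/
theorem alv_clo {S : PCl m} {c : ℕ → Fin m} {r : ℕ} {w hi lvl ν : ℝ} (hal : AlvS S c r w hi lvl ν)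
    (hw1 : w ≤ 1) (hν : 0 < ν) {K : ℝ} (hK : 0 < K) (M : ℝ) :
    Bas S (fun J F A => ∀ E : F.Ω → Prop, Sub E A → Pe F.p A ≤ K * Pe F.p E → 0 < Pe F.p E →
      ∀ a ≤ ⌊w * J⌋₊, ∀ (V : Type) (z : F.Ω → V), Clo E (ptr F J) (slam F a) z → M <
      CH (Pool.Agent.H49.Ent.cond F.p E True) (fun ω => F.D ⌊lvl * J⌋₊ ω (c r)) (fun ω =>
        (z ω, F.T ω, (fun l : Fin r => F.X ⌊hi * J⌋₊ ω (c l)),
          fun l : Fin r => F.D ⌊hi * J⌋₊ ω (c l)))) := by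
  classical
  obtain ⟨J₁, hJ₁⟩ := exists_nat_gt (M / ν)
  refine Bas.mono J₁ (Pool.GRW.bas_part hal hK) ?_
  rintro J hJ F A h E hE hPE hE0 a ha V z hz
  have hJ0 : (0 : ℝ) ≤ J := Nat.cast_nonneg J
  have hMJ : M < ν * J := by
    have h1 : (J₁ : ℝ) ≤ J := by exact_mod_cast hJ
    have h2 := hJ₁.trans_le h1
    rw [div_lt_iff₀ hν] at h2
    linarith
  have hwJ : ⌊w * J⌋₊ ≤ J := Nat.floor_le_of_le (by
    calc w * (J : ℝ) ≤ 1 * J := mul_le_mul_of_nonneg_right hw1 hJ0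
      _ = J := one_mul _)
  obtain ⟨ω₀, hω₀⟩ := Pool.CNC76.pe_ex E hE0
  obtain ⟨zp, hzp⟩ : ∃ zp : PtT F → V, ∀ ω, E ω → zp (ptr F J ω) = z ω := by
    refine ⟨fun y => if h : ∃ ω, E ω ∧ ptr F J ω = y then z (Classical.choose h) else z ω₀,
      fun ω hω => ?_⟩
    have h1 : ∃ ω', E ω' ∧ ptr F J ω' = ptr F J ω := ⟨ω, hω, rfl⟩
    show (if h : ∃ ω', E ω' ∧ ptr F J ω' = ptr F J ω then z (Classical.choose h) else z ω₀) = _
    rw [dif_pos h1]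
    exact hz.1 _ _ (Classical.choose_spec h1).1 hω (Classical.choose_spec h1).2
  obtain ⟨zl, hzl⟩ : ∃ zl : LnT F → V, ∀ ω, E ω → zl (slam F ⌊w * J⌋₊ ω) = z ω := by
    refine ⟨fun s => if h : ∃ ω, E ω ∧ slam F ⌊w * J⌋₊ ω = s then z (Classical.choose h)
      else z ω₀, fun ω hω => ?_⟩
    have h1 : ∃ ω', E ω' ∧ slam F ⌊w * J⌋₊ ω' = slam F ⌊w * J⌋₊ ω := ⟨ω, hω, rfl⟩
    show (if h : ∃ ω', E ω' ∧ slam F ⌊w * J⌋₊ ω' = slam F ⌊w * J⌋₊ ω then
      z (Classical.choose h) else z ω₀) = _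
    rw [dif_pos h1]
    exact hz.2 _ _ (Classical.choose_spec h1).1 hω
      (slm_mon ha hwJ (Classical.choose_spec h1).2)
  have h1 := h E hE hPE V zp zl (fun ω hω => by rw [hzp ω hω, hzl ω hω])
  refine hMJ.trans_le (h1.trans ?_)
  refine CH_mono_cond (isLaw_cond F.isLaw hE0).nonneg fun ω ω' hω hω' e => ?_
  have q1 := cnd_of hω
  have q2 := cnd_of hω'
  simp only [Prod.mk.injEq] at e ⊢
  refine ⟨?_, e.2⟩
  rw [← hzl ω q1, ← hzl ω' q2]
  exact e.1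

/-- **The velocity of `u`** in the frame. -/
theorem vel_fr {c : ℕ → Fin m} {F : Fam m J} {N : AfN} {o s0 s1 : ℕ} {v : ℝ}
    (hc : Set.InjOn c (Set.Iio 2)) {Q : MvPolynomial (Option (Fin m)) ℝ} (hQ : DepC c 2 Q)
    {ω : F.Ω} (h : |bd F ω (some (c 2)) - dd Q (bt F ω) (bd F ω)| ≤ v) :
    |bd F ω (some (c 2)) / 2 ^ o - ∑ i, eval (afc c N o s0 s1 (bt F ω))
      (pderiv i (pul c N o s0 s1 0 Q)) * vlc c N o s0 s1 (bd F ω) i| ≤ v / 2 ^ o := by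
  have h2o : (0 : ℝ) < 2 ^ o := by positivity
  rw [← grd_pul (N := N) (o := o) (s0 := s0) (s1 := s1) hc hQ] at h
  rw [le_div_iff₀ h2o]
  refine le_trans (le_of_eq ?_) h
  rw [← abs_of_pos h2o, ← abs_mul, abs_of_pos h2o, sub_mul, div_mul_cancel₀ _ h2o.ne', mul_comm
    (∑ i, eval (afc c N o s0 s1 (bt F ω)) (pderiv i (pul c N o s0 s1 0 Q)) *
      vlc c N o s0 s1 (bd F ω) i)]

/-- **The gradient of the chart of `u`** in the frame. -/
theorem grd_fr2 {c : ℕ → Fin m} {N : AfN} {o s0 s1 Λ₁ Λ₂ : ℕ} (hc : Set.InjOn c (Set.Iio 2))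
    {Q : MvPolynomial (Option (Fin m)) ℝ} (hQ : DepC c 2 Q) {b : Option (Fin m) → ℝ}
    (h0 : |eval b (pderiv (some (c 0)) Q)| ≤ 2 ^ Λ₁) (h1 : |eval b (pderiv (some (c 1)) Q)| ≤ 2 ^ Λ₁)
    (h2 : |N.a2| ≤ 2 ^ Λ₂) :
    2 ^ s0 * |eval (afc c N o s0 s1 b) (pderiv 1 (pul c N o s0 s1 0 Q))| ≤ 2 ^ (Λ₁ + Λ₂ + 1) ∧
    2 ^ s1 * (|eval (afc c N o s0 s1 b) (pderiv 2 (pul c N o s0 s1 0 Q))| * (1 + |N.a2|)) ≤
      2 ^ (Λ₁ + Λ₂ + 1) := by
  classical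
  have hne : c 1 ≠ c 0 := fun h => by
    have := hc (show (1 : ℕ) < 2 by norm_num) (show (0 : ℕ) < 2 by norm_num) h
    omega
  have hd : ∀ V : Option (Fin m) → ℝ, V none = 0 →
      dd Q (afp c N o s0 s1 0 (afc c N o s0 s1 b)) V = dd Q b V := by
    intro V hV
    obtain ⟨e0, e1, e2⟩ := afp_afc (c := c) (N := N) (o := o) (s0 := s0) (s1 := s1) hc 0 b
    refine dd_dep hQ hV e0 fun l hl => ?_
    rcases l with _ | _ | l
    · exact e1
    · exact e2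
    · omega
  have hz : ∀ V : Option (Fin m) → ℝ, V none = 0 → (∀ k, k ≠ some (c 0) → k ≠ some (c 1) →
      k ≠ none → V k = 0 ∨ eval b (pderiv k Q) = 0) → dd Q b V =
      eval b (pderiv (some (c 0)) Q) * V (some (c 0)) +
        eval b (pderiv (some (c 1)) Q) * V (some (c 1)) := by
    intro V hV h
    unfold dd
    rw [← Finset.add_sum_erase _ _ (Finset.mem_univ (some (c 0))),
      ← Finset.add_sum_erase _ _ (show some (c 1) ∈ (univ : Finset (Option (Fin m))).erase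
        (some (c 0)) from Finset.mem_erase.2 ⟨fun h => hne (Option.some_injective _ h),
          Finset.mem_univ _⟩), Finset.sum_eq_zero, add_zero]
    intro k hk
    rw [Finset.mem_erase, Finset.mem_erase] at hk
    by_cases hk0 : k = none
    · rw [hk0, hV, mul_zero]
    · rcases h k hk.2.1 hk.1 hk0 with h1 | h1
      · rw [h1, mul_zero]
      · rw [h1, zero_mul]
  have hother : ∀ (l : Fin 3), ∀ k, k ≠ some (c 0) → k ≠ some (c 1) → k ≠ none →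
      afv c N o s0 s1 l 0 k = 0 := by
    intro l k k0 k1 k2
    unfold afv
    rw [if_neg k2, if_neg k0, if_neg k1]
    split_ifs <;> rfl
  have g1 : eval (afc c N o s0 s1 b) (pderiv 1 (pul c N o s0 s1 0 Q)) =
      eval b (pderiv (some (c 0)) Q) * (1 / 2 ^ s0) +
        eval b (pderiv (some (c 1)) Q) * (N.a2 / 2 ^ s0) := by
    rw [pd_pul]
    simp only [map_zero]
    rw [hd _ afv1_none, hz _ afv1_none (fun k a b d => Or.inl (hother 1 k a b d)), afv1_0,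
      afv1_1 hne]
  have g2 : eval (afc c N o s0 s1 b) (pderiv 2 (pul c N o s0 s1 0 Q)) =
      eval b (pderiv (some (c 1)) Q) * (1 / 2 ^ s1) := by
    rw [pd_pul]
    simp only [map_zero]
    rw [hd _ afv2_none, hz _ afv2_none (fun k a b d => Or.inl (hother 2 k a b d)), afv2_0,
      afv2_1 hne, mul_zero, zero_add]
  obtain ⟨x, hx⟩ : ∃ x, x = eval b (pderiv (some (c 0)) Q) := ⟨_, rfl⟩
  obtain ⟨y, hy⟩ : ∃ y, y = eval b (pderiv (some (c 1)) Q) := ⟨_, rfl⟩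
  rw [← hx] at h0 g1
  rw [← hy] at h1 g1 g2
  have hL1 : (0 : ℝ) < 2 ^ Λ₁ := by positivity
  have hL2 : (1 : ℝ) ≤ 2 ^ Λ₂ := one_le_pow₀ (by norm_num)
  have hL : (2 : ℝ) ^ (Λ₁ + Λ₂ + 1) = 2 * (2 ^ Λ₁ * 2 ^ Λ₂) := by
    rw [pow_add, pow_add]
    ring
  have h3 : (2 : ℝ) ^ Λ₁ ≤ 2 ^ Λ₁ * 2 ^ Λ₂ := le_mul_of_one_le_right hL1.le hL2
  have h4 : |y| * |N.a2| ≤ 2 ^ Λ₁ * 2 ^ Λ₂ := mul_le_mul h1 h2 (abs_nonneg _) hL1.le
  constructor
  · rw [g1, hL]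
    have e1 : x * (1 / 2 ^ s0) + y * (N.a2 / 2 ^ s0) = (x + y * N.a2) / 2 ^ s0 := by ring
    rw [e1, abs_div, abs_of_pos (by positivity : (0 : ℝ) < 2 ^ s0),
      mul_div_cancel₀ _ (by positivity : (2 : ℝ) ^ s0 ≠ 0)]
    refine (abs_add_le _ _).trans ?_
    rw [abs_mul]
    linarith
  · rw [g2, hL, mul_one_div, abs_div, abs_of_pos (by positivity : (0 : ℝ) < 2 ^ s1),
      div_mul_eq_mul_div, mul_div_cancel₀ _ (by positivity : (2 : ℝ) ^ s1 ≠ 0)]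
    linarith

end Pool.CNC60
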