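import Pool.Agent.H60.CNC.Hdx
import Pool.Agent.H76.CNC.Dil

/-!
# The sub-chain of the deeper windows

`tel_h3`: the second derivatives of the charts of two windows, at the own point. `Chn.drop`: the chain
of the windows `j₀ + k`. `vis_drop`: visible at the deepest window, hence at the window `j`.
-/

set_option autoImplicit false

namespace Pool.CNC60

open Finset MvPolynomial
open Pool.STK (IsLaw)
open Pool.K2S (Pe)
open Pool.CUB46 (q2 l1 h3)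
open Pool.CNC76 (Clo Tub Bll Chn unt hes_cu Cu)

section chn

variable {Ω P S S' : Type} [Fintype Ω] {p : Ω → ℝ} {B : Ω → Prop} {pt : Ω → P} {sl : ℕ → Ω → S}
    {sd : Ω → S'} {Y Yc X : Ω → Fin 3 → ℝ} {n : ℕ} {ctr : ℕ → Ω → Fin 3 → ℝ} {ρ EU EN : ℕ → ℝ}
    {U Ph : ℕ → Ω → MvPolynomial (Fin 3) ℝ} {cs : ℕ → Ω → ℝ} {D₀ D h Q : ℕ} {κ η c₀ T s : ℝ}

/-- The own point is in the half cube. -/
theorem own_cu (H : Chn p B pt sl sd Y Yc X n ctr ρ EU EN U Ph cs D₀ D h Q κ η c₀ T s) {k : ℕ}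
    (hk : k ≤ n) {ω : Ω} (hω : B ω) (i : Fin 3) : |Y ω i - ctr k ω i| ≤ ρ k / 2 := by
  have hρ := (H.ρ0 k hk).1
  have h1 := (H.bll k hk).y1 ω hω i
  unfold unt at h1
  rw [abs_div, abs_of_pos hρ, div_le_iff₀ hρ] at h1
  linarith

/-- **The chain of the windows `j₀ + k`.** -/
theorem chn_drop (H : Chn p B pt sl sd Y Yc X n ctr ρ EU EN U Ph cs D₀ D h Q κ η c₀ T s) {j₀ n' : ℕ}
    (hn : j₀ + n' ≤ n) : Chn p B pt (fun k => sl (j₀ + k)) sd Y Yc X n' (fun k => ctr (j₀ + k))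
      (fun k => ρ (j₀ + k)) (fun k => EU (j₀ + k)) (fun k => EN (j₀ + k)) (fun k => U (j₀ + k))
      (fun k => Ph (j₀ + k)) (fun k => cs (j₀ + k)) D₀ D h Q κ η c₀ T s where
  bll k hk := H.bll (j₀ + k) (by omega)
  ρ0 k hk := H.ρ0 (j₀ + k) (by omega)
  ρd j hj k hk hjk := H.ρd (j₀ + j) (by omega) (j₀ + k) (by omega) (by omega)
  EU0 k hk := H.EU0 (j₀ + k) (by omega)
  EN0 k hk := H.EN0 (j₀ + k) (by omega)
  X0 := H.X0
  slm j hj k hk hjk := H.slm (j₀ + j) (by omega) (j₀ + k) (by omega) (by omega)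
  ctrc k hk := H.ctrc (j₀ + k) (by omega)
  Uc k hk := H.Uc (j₀ + k) (by omega)
  Phc k hk := H.Phc (j₀ + k) (by omega)
  csc k hk := H.csc (j₀ + k) (by omega)
  degU k hk := H.degU (j₀ + k) (by omega)
  degP k hk := H.degP (j₀ + k) (by omega)
  ownU k hk := H.ownU (j₀ + k) (by omega)
  ownP k hk := H.ownP (j₀ + k) (by omega)
  telU j hj k hk hjk := H.telU (j₀ + j) (by omega) (j₀ + k) (by omega) (by omega)
  telP j hj k hk hjk := H.telP (j₀ + j) (by omega) (j₀ + k) (by omega) (by omega)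
  telc j hj k hk hjk := H.telc (j₀ + j) (by omega) (j₀ + k) (by omega) (by omega)

/-- The first windows of a chain. -/
theorem chn_take (H : Chn p B pt sl sd Y Yc X n ctr ρ EU EN U Ph cs D₀ D h Q κ η c₀ T s) {n' : ℕ}
    (hn : n' ≤ n) : Chn p B pt sl sd Y Yc X n' ctr ρ EU EN U Ph cs D₀ D h Q κ η c₀ T s := by
  have h1 := chn_drop H (j₀ := 0) (n' := n') (by omega)
  simpa only [Nat.zero_add] using h1

/-- The tube for the windows `j₀ + k`. -/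
theorem tub_drop {sl : Ω → S} {xh : Ω → Fin 3 → Polynomial ℝ} {Tu : Ω → MvPolynomial (Fin 3) ℝ}
    {δ : ℝ} {t j₀ n' : ℕ} (H : Tub B sl Y X (j₀ + t) n ρ EU U xh Tu D₀ δ s) (hn : j₀ + n' ≤ n) :
    Tub B sl Y X t n' (fun k => ρ (j₀ + k)) (fun k => EU (j₀ + k)) (fun k => U (j₀ + k)) xh Tu D₀
      δ s where
  xc := H.xc
  Tc := H.Tc
  x0 := H.x0
  xd := H.xd
  Td := H.Td
  near := H.near
  val j h1 h2 := H.val (j₀ + j) (by omega) (by omega)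
  grd j h1 h2 := H.grd (j₀ + j) (by omega) (by omega)

end chn

/-- **The second derivatives of the charts of two windows**, at the own point. -/
theorem tel_h3 (D₀ : ℕ) : ∃ C : ℝ, 1 ≤ C ∧ ∀ {Ω P S S' : Type} [Fintype Ω] {p : Ω → ℝ}
    {B : Ω → Prop} {pt : Ω → P} {sl : ℕ → Ω → S} {sd : Ω → S'} {Y Yc X : Ω → Fin 3 → ℝ} {n : ℕ}
    {ctr : ℕ → Ω → Fin 3 → ℝ} {ρ EU EN : ℕ → ℝ} {U Ph : ℕ → Ω → MvPolynomial (Fin 3) ℝ}
    {cs : ℕ → Ω → ℝ} {D h Q : ℕ} {κ η c₀ T s : ℝ},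
    Chn p B pt sl sd Y Yc X n ctr ρ EU EN U Ph cs D₀ D h Q κ η c₀ T s →
    ∀ j ≤ n, ∀ k ≤ n, j ≤ k → ∀ ω, B ω → ∀ i l,
      |h3 (U k ω) (Y ω) i l - h3 (U j ω) (Y ω) i l| ≤ C * (s * EU j) / ρ k ^ 2 := by
  obtain ⟨C, hC, hc⟩ := hes_cu D₀
  refine ⟨C, hC, ?_⟩
  intro Ω P S S' _ p B pt sl sd Y Yc X n ctr ρ EU EN U Ph cs D h Q κ η c₀ T s H j hj k hk hjk ω hω
    i l
  have hρ := (H.ρ0 k hk).1
  have h1 := hc (P := U k ω - U j ω) (M := s * EU j) (ρ := ρ k) (a := ctr k ω)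
    ((totalDegree_sub _ _).trans (max_le (H.degU k hk ω hω) (H.degU j hj ω hω))) hρ
    (fun b hb => by
      rw [map_sub]
      exact H.telU j hj k hk hjk ω hω b hb) i l (Y ω) (fun i =>
        (own_cu H hk hω i).trans (by linarith))
  have e1 : h3 (U k ω - U j ω) (Y ω) i l = h3 (U k ω) (Y ω) i l - h3 (U j ω) (Y ω) i l := by
    unfold h3
    rw [map_sub, map_sub, map_sub]
  rw [e1] at h1
  exact h1

/-- **Visible at the deepest window**, hence at the window `j`. -/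
theorem vis_drop (D₀ : ℕ) : ∃ C : ℝ, 1 ≤ C ∧ ∀ {Ω P S S' : Type} [Fintype Ω] {p : Ω → ℝ}
    {B : Ω → Prop} {pt : Ω → P} {sl : ℕ → Ω → S} {sd : Ω → S'} {Y Yc X : Ω → Fin 3 → ℝ} {n : ℕ}
    {ctr : ℕ → Ω → Fin 3 → ℝ} {ρ EU EN : ℕ → ℝ} {U Ph : ℕ → Ω → MvPolynomial (Fin 3) ℝ}
    {cs : ℕ → Ω → ℝ} {D h Q : ℕ} {κ η c₀ T s ε : ℝ},
    Chn p B pt sl sd Y Yc X n ctr ρ EU EN U Ph cs D₀ D h Q κ η c₀ T s →
    ∀ j ≤ n, C * (s * EU j) / ρ n ^ 2 ≤ ε / 2 → ∀ ω, B ω →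
      (∃ i l, ε < |h3 (U n ω) (Y ω) i l|) → ∃ i l, ε / 2 ≤ |h3 (U j ω) (Y ω) i l| := by
  obtain ⟨C, hC, hc⟩ := tel_h3 D₀
  refine ⟨C, hC, ?_⟩
  intro Ω P S S' _ p B pt sl sd Y Yc X n ctr ρ EU EN U Ph cs D h Q κ η c₀ T s ε H j hj hnum ω hω
    ⟨i, l, hil⟩
  refine ⟨i, l, ?_⟩
  have h1 := (hc H j hj n le_rfl hj ω hω i l).trans hnum
  have h2 := abs_sub_abs_le_abs_sub (h3 (U n ω) (Y ω) i l) (h3 (U j ω) (Y ω) i l)
  linarith

end Pool.CNC60
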