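import Pool.Agent.H76.CNC.Bll

/-!
# Rounding of a function of the line which is almost a function of the point

`rnd_clo`: a function of the code of the line, with values in `ℝ ^ 3`, whose values at two samples
with the same code of the point differ by at most `dl`, has a rounding at the scale `32 dl` which is
closed on half of the event.
-/

set_option autoImplicit false

namespace Pool.CNC60

open Finset
open Pool.STK (IsLaw)
open Pool.K2S (Pe)
open Pool.CNC76 (Clo)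

/-- A floor which changes under a small change. -/
theorem flr_bad {x y dl s : ℝ} (hs : 0 < s) (hxy : |x - y| ≤ dl) (h : ⌊x / s⌋ ≠ ⌊y / s⌋) :
    ∃ n : ℤ, |x - n * s| ≤ dl := by
  rcases lt_trichotomy ⌊x / s⌋ ⌊y / s⌋ with h1 | h1 | h1
  · refine ⟨⌊y / s⌋, ?_⟩
    have h2 : x / s < ⌊y / s⌋ := by
      have h3 := Int.lt_floor_add_one (x / s)
      have h4 : ((⌊x / s⌋ + 1 : ℤ) : ℝ) ≤ ⌊y / s⌋ := by exact_mod_cast h1
      push_cast at h4
      linarith
    have h3 := Int.floor_le (y / s)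
    rw [div_lt_iff₀ hs] at h2
    rw [le_div_iff₀ hs] at h3
    rw [abs_le] at hxy ⊢
    constructor <;> linarith [hxy.1, hxy.2]
  · exact absurd h1 h
  · refine ⟨⌊x / s⌋, ?_⟩
    have h2 : y / s < ⌊x / s⌋ := by
      have h3 := Int.lt_floor_add_one (y / s)
      have h4 : ((⌊y / s⌋ + 1 : ℤ) : ℝ) ≤ ⌊x / s⌋ := by exact_mod_cast h1
      push_cast at h4
      linarith
    have h3 := Int.floor_le (x / s)
    rw [div_lt_iff₀ hs] at h2
    rw [le_div_iff₀ hs] at h3
    rw [abs_le] at hxy ⊢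
    constructor <;> linarith [hxy.1, hxy.2]

/-- At most one of eight shifts is bad. -/
theorem shf_one {x dl : ℝ} (hdl : 0 < dl) {a a' : ℕ} (ha : a < 8) (ha' : a' < 8) {n n' : ℤ}
    (h : |x + 4 * dl * a - n * (32 * dl)| ≤ dl) (h' : |x + 4 * dl * a' - n' * (32 * dl)| ≤ dl) :
    a = a' := by
  have h1 : |(4 * ((a : ℝ) - a') - 32 * ((n : ℝ) - n')) * dl| ≤ 2 * dl := by
    have e : (4 * ((a : ℝ) - a') - 32 * ((n : ℝ) - n')) * dl =
        (x + 4 * dl * a - n * (32 * dl)) - (x + 4 * dl * a' - n' * (32 * dl)) := by ring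
    rw [e]
    refine (abs_sub _ _).trans ?_
    linarith
  rw [abs_mul, abs_of_pos hdl] at h1
  have h2 : |4 * ((a : ℝ) - a') - 32 * ((n : ℝ) - n')| ≤ 2 := le_of_mul_le_mul_right h1 hdl
  have h3 : |4 * ((a : ℤ) - a') - 32 * (n - n')| ≤ 2 := by exact_mod_cast h2
  rw [abs_le] at h3
  omega

/-- **Rounding.** -/
theorem rnd_clo {Ω P S : Type} [Fintype Ω] {p : Ω → ℝ} (hp : IsLaw p) {B : Ω → Prop}
    {pt : Ω → P} {sl : Ω → S} {f : Ω → Fin 3 → ℝ} {dl : ℝ} (hdl : 0 < dl)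
    (hf : ∀ ω ω', B ω → B ω' → sl ω = sl ω' → f ω = f ω')
    (hg : ∀ ω ω', B ω → B ω' → pt ω = pt ω' → ∀ i, |f ω i - f ω' i| ≤ dl) :
    ∃ B' : Ω → Prop, (∀ ω, B' ω → B ω) ∧ Pe p B ≤ 2 * Pe p B' ∧ ∃ kk : Ω → Fin 3 → ℤ,
      Clo B' pt sl kk ∧ ∀ ω, B' ω → ∀ i, |f ω i - kk ω i * (32 * dl)| ≤ 32 * dl := by
  classical
  have hp0 := hp.nonneg
  have hs : (0 : ℝ) < 32 * dl := by linarith
  -- the representative
  obtain ⟨g, hg1, hg2⟩ : ∃ g : Ω → Fin 3 → ℝ,
      (∀ ω ω', B ω → B ω' → pt ω = pt ω' → g ω = g ω') ∧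
      ∀ ω, B ω → ∀ i, |f ω i - g ω i| ≤ dl := by
    refine ⟨fun ω => if h : ∃ ν, B ν ∧ pt ν = pt ω then f (Classical.choose h) else f ω,
      fun ω ω' _ _ e => ?_, fun ω hω i => ?_⟩
    · show (if h : ∃ ν, B ν ∧ pt ν = pt ω then f (Classical.choose h) else f ω) =
        (if h : ∃ ν, B ν ∧ pt ν = pt ω' then f (Classical.choose h) else f ω')
      rename_i hω hω'
      have h1 : ∃ ν, B ν ∧ pt ν = pt ω := ⟨ω, hω, rfl⟩
      have h2 : ∃ ν, B ν ∧ pt ν = pt ω' := ⟨ω', hω', rfl⟩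
      rw [dif_pos h1, dif_pos h2]
      congr 1
      simp only [e]
    · have h1 : ∃ ν, B ν ∧ pt ν = pt ω := ⟨ω, hω, rfl⟩
      show |f ω i - (if h : ∃ ν, B ν ∧ pt ν = pt ω then f (Classical.choose h) else f ω) i| ≤ dl
      rw [dif_pos h1]
      exact hg ω _ hω (Classical.choose_spec h1).1 (Classical.choose_spec h1).2.symm i
  obtain ⟨bad, hbad⟩ : ∃ bad : ℕ → Fin 3 → Ω → Prop, bad = fun (a : ℕ) i ω =>
      ⌊(f ω i + 4 * dl * a) / (32 * dl)⌋ ≠ ⌊(g ω i + 4 * dl * a) / (32 * dl)⌋ := ⟨_, rfl⟩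
  have hone : ∀ ω, B ω → ∀ i, ∀ a < 8, ∀ a' < 8, bad a i ω → bad a' i ω → a = a' := by
    intro ω hω i a ha a' ha' h1 h2
    rw [hbad] at h1 h2
    have h3 : ∀ a : ℕ, |(f ω i + 4 * dl * a) - (g ω i + 4 * dl * a)| ≤ dl := fun a => by
      rw [add_sub_add_right_eq_sub]
      exact hg2 ω hω i
    obtain ⟨n, hn⟩ := flr_bad hs (h3 a) h1
    obtain ⟨n', hn'⟩ := flr_bad hs (h3 a') h2
    exact shf_one hdl ha ha' hn hn'
  -- the good shift
  have hcnt : ∀ ω, B ω → ((range 8).filter fun a => ∃ i, bad a i ω).card ≤ 3 := by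
    intro ω hω
    have h1 : ((range 8).filter fun a => ∃ i, bad a i ω) ⊆
        (univ : Finset (Fin 3)).biUnion fun i => (range 8).filter fun a => bad a i ω := by
      intro a ha
      rw [mem_filter] at ha
      obtain ⟨ha, i, hi⟩ := ha
      rw [mem_biUnion]
      exact ⟨i, mem_univ _, mem_filter.2 ⟨ha, hi⟩⟩
    refine (card_le_card h1).trans (card_biUnion_le.trans ?_)
    calc ∑ i : Fin 3, ((range 8).filter fun a => bad a i ω).card ≤ ∑ _i : Fin 3, 1 := by
          refine Finset.sum_le_sum fun i _ => card_le_one.2 fun a ha a' ha' => ?_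
          rw [mem_filter, mem_range] at ha ha'
          exact hone ω hω i a ha.1 a' ha'.1 ha.2 ha'.2
      _ = 3 := by simp
  obtain ⟨G, hG⟩ : ∃ G : ℕ → Ω → Prop, G = fun a ω => B ω ∧ ¬ ∃ i, bad a i ω := ⟨_, rfl⟩
  have hsum : 5 * Pe p B ≤ ∑ a ∈ range 8, Pe p (G a) := by
    simp only [Pool.K2S.Pe_eq]
    rw [Finset.sum_comm, Finset.mul_sum]
    refine Finset.sum_le_sum fun ω _ => ?_
    by_cases hω : B ω
    · rw [if_pos hω]
      have h1 : ∑ a ∈ range 8, (if G a ω then p ω else 0) =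
          ((range 8).filter fun a => ¬ ∃ i, bad a i ω).card * p ω := by
        rw [← Finset.sum_filter]
        have e : ((range 8).filter fun a => G a ω) = (range 8).filter fun a => ¬ ∃ i, bad a i ω := by
          refine Finset.filter_congr fun a _ => ?_
          rw [hG]
          exact ⟨fun h => h.2, fun h => ⟨hω, h⟩⟩
        rw [e, Finset.sum_const, nsmul_eq_mul]
      rw [h1]
      have h2 := hcnt ω hω
      have h3 : ((range 8).filter fun a => ∃ i, bad a i ω).card +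
          ((range 8).filter fun a => ¬ ∃ i, bad a i ω).card = 8 := by
        rw [Finset.card_filter_add_card_filter_not, card_range]
      have h4 : (5 : ℝ) ≤ ((range 8).filter fun a => ¬ ∃ i, bad a i ω).card := by
        have : 5 ≤ ((range 8).filter fun a => ¬ ∃ i, bad a i ω).card := by omega
        exact_mod_cast this
      exact mul_le_mul_of_nonneg_right h4 (hp0 ω)
    · rw [if_neg hω, mul_zero]
      refine Finset.sum_nonneg fun a _ => ?_
      split_ifs
      · exact hp0 ω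
      · exact le_rfl
  obtain ⟨a, ha, hGa⟩ : ∃ a ∈ range 8, Pe p B ≤ 2 * Pe p (G a) := by
    by_contra hcon
    push Not at hcon
    have h1 : ∑ a ∈ range 8, 2 * Pe p (G a) ≤ ∑ _a ∈ range 8, Pe p B :=
      Finset.sum_le_sum fun a ha => (hcon a ha).le
    rw [← Finset.mul_sum, Finset.sum_const, card_range, nsmul_eq_mul] at h1
    have hB := Pool.K2S.Pe_nonneg hp B
    have h2 := hcon 0 (by simp)
    have h3 := Pool.K2S.Pe_nonneg hp (G 0)
    push_cast at h1
    linarith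
  refine ⟨G a, fun ω h => by rw [hG] at h; exact h.1, hGa,
    fun ω i => ⌊(f ω i + 4 * dl * a) / (32 * dl)⌋, ⟨fun ω ω' h h' e => ?_,
      fun ω ω' h h' e => ?_⟩, fun ω _ i => ?_⟩
  · rw [hG] at h h'
    have h1 := h.2
    have h2 := h'.2
    rw [hbad] at h1 h2
    push Not at h1 h2
    funext i
    show ⌊(f ω i + 4 * dl * a) / (32 * dl)⌋ = ⌊(f ω' i + 4 * dl * a) / (32 * dl)⌋
    rw [h1 i, h2 i, hg1 ω ω' h.1 h'.1 e]
  · rw [hG] at h h'
    funext i
    show ⌊(f ω i + 4 * dl * a) / (32 * dl)⌋ = ⌊(f ω' i + 4 * dl * a) / (32 * dl)⌋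
    rw [hf ω ω' h.1 h'.1 e]
  · have h1 := Int.floor_le ((f ω i + 4 * dl * a) / (32 * dl))
    have h2 := Int.lt_floor_add_one ((f ω i + 4 * dl * a) / (32 * dl))
    rw [le_div_iff₀ hs] at h1
    rw [div_lt_iff₀ hs] at h2
    rw [mem_range] at ha
    have h3 : (a : ℝ) ≤ 7 := by
      have : a ≤ 7 := by omega
      exact_mod_cast this
    have h4 : (0 : ℝ) ≤ a := Nat.cast_nonneg a
    have h5 : 4 * dl * a ≤ 28 * dl := by nlinarith
    have h6 : 0 ≤ 4 * dl * a := by positivity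
    rw [abs_le]
    constructor <;> nlinarith

end Pool.CNC60
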