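import Pool.Agent.H60.CNC.Tbe
import Pool.Agent.H82.CNC.Cwg
import Pool.Agent.H73.D2.Tml

/-!
# The tube of the line, in the affine frame of the windows

`tub_wg`: `tub_ev` on a part `B'` of the event, with the data `AfD`, `AfE`, `AfB` of the affine frame.
-/

set_option autoImplicit false

namespace Pool.CNC60

open Finset Real MvPolynomial
open Pool.Agent.H49.Ent Pool.Agent.H32.Dense Pool.STK Pool.KA Pool.KSAT Pool.K2S Pool.PB Pool.S6C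
open Pool.GEN Pool.CHT Pool.CHX Pool.ISO Pool.D2R Pool.D2G30 Pool.V1E
open Pool.CR99 Pool.AFF82 Pool.CNC76
open Pool.PB.Trl (rt rt_mem t_rt)

variable {m J : ℕ}

/-- A larger constant. -/
theorem tub_mono {Ω S : Type} {B : Ω → Prop} {sl : Ω → S} {Y X : Ω → Fin 3 → ℝ} {t n : ℕ}
    {ρ EU : ℕ → ℝ} {U : ℕ → Ω → MvPolynomial (Fin 3) ℝ} {xh : Ω → Fin 3 → Polynomial ℝ}
    {Tu : Ω → MvPolynomial (Fin 3) ℝ} {D₀ : ℕ} {δ s s' : ℝ}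
    (H : Tub B sl Y X t n ρ EU U xh Tu D₀ δ s) (hs : s ≤ s')
    (h0 : ∀ j, t ≤ j → j ≤ n → 0 < ρ j ∧ 0 ≤ EU j) : Tub B sl Y X t n ρ EU U xh Tu D₀ δ s' where
  xc := H.xc
  Tc := H.Tc
  x0 := H.x0
  xd := H.xd
  Td := H.Td
  near := H.near
  val j h1 h2 ω hω τ hτ := (H.val j h1 h2 ω hω τ hτ).trans
    (mul_le_mul_of_nonneg_right hs (h0 j h1 h2).2)
  grd j h1 h2 ω hω τ hτ l hl := (H.grd j h1 h2 ω hω τ hτ l hl).trans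
    (div_le_div_of_nonneg_right (mul_le_mul_of_nonneg_right hs (h0 j h1 h2).2) (h0 j h1 h2).1.le)

/-- **The tube of the line**, in the affine frame of the windows. -/
theorem tub_wg (D : ℕ) (hD : 1 ≤ D) : ∃ C : ℕ, 2 ≤ C ∧ ∀ {m J : ℕ} {F : Fam m J}
    {c : ℕ → Fin m} {r Dr N N₂ : ℕ} {R : ℕ → Prop} {C₁ C₃ a Eb ε₀ η₀ : ℝ} {Pt : ℝ → ℝ → ℝ}
    {o : ℕ → ℝ} {lv be b : ℕ → ℕ → ℝ} {κ : ℝ} {z : ℕ → ℕ → ℕ} {B B' : F.Ω → Prop}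
    {gc gT g₀ : ℕ → ℕ → ℕ} {G : ℕ → PtT F → ℕ → MvPolynomial (Option (Fin m)) ℝ}
    {H : ℕ → LnT F → ℕ → MvPolynomial (Option (Fin m)) ℝ}
    {T : ℕ → PtT F → ℕ → MvPolynomial (Option (Fin m)) ℝ}
    {TH : ℕ → LnT F → ℕ → MvPolynomial (Option (Fin m)) ℝ}
    {Gt : ℕ → PtT F → MvPolynomial (Option (Fin m)) ℝ}
    {Ht : ℕ → LnT F → MvPolynomial (Option (Fin m)) ℝ} {iF n x y gx a' y' : ℕ} {ix : ℕ → ℕ}
    {θ : ℝ},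
    WG c r D Dr N N₂ R C₁ a Eb ε₀ η₀ Pt o lv be F b κ z B gc gT g₀ G H T TH Gt Ht →
    TubR F c r N C₃ a η₀ o gc gT g₀ B G H T TH → a ≤ 1 → 0 ≤ C₃ → 2 < r → R 0 → R 1 → 0 ≤ κ →
    Sub B' B → Pe F.p B ≤ 2 * Pe F.p B' →
    AfD F c D n ⌊o iF * J⌋₊ x y (fun k => ⌊o (ix k) * J⌋₊) (g₀ (ix 0)) (g₀ iF)
      (fun k => g₀ (ix k)) gx θ B' (G iF) (H iF) (fun k => G (ix k)) (fun k => H (ix k)) →
    (∀ ω, B' ω → AfE F c n a' y' (fun k => ⌊o (ix k) * J⌋₊) (g₀ (ix 0)) (fun k => g₀ (ix k))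
      (G iF) (fun k => G (ix k)) ω ∧ ∀ k ≤ n, AfB F c a' (fun k => ⌊o (ix k) * J⌋₊) (g₀ (ix 0))
        (fun k => g₀ (ix k)) (G iF) (fun k => G (ix k)) k ω) →
    ∀ {t n' D₀ x' : ℕ} {jf : ℕ → ℕ} {ρ EU : ℕ → ℝ} {δ : ℝ}, D ≤ D₀ → 0 ≤ δ → t ≤ n' →
    8 * a' ≤ x' → x ≤ x' →
    (∀ j, t ≤ j → j ≤ n' → jf j ≤ n ∧ ix (jf j) ≤ N ∧ o (ix (jf t)) ≤ o (ix (jf j))) →
    (∀ j, t ≤ j → j ≤ n' → 0 < ρ j ∧ ρ j ≤ Pool.AFF82.rk a' (fun k => ⌊o (ix k) * J⌋₊) (jf j)) →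
    (∀ j, t ≤ j → j ≤ n' → 1 / 2 ^ g₀ (ix (jf j)) 2 ≤ EU j) →
    (∀ j, t ≤ j → j ≤ n' →
      g₀ (ix (jf j)) 2 + ⌊a * J⌋₊ ≤ gT (ix (jf t)) 2 + ⌊o (ix (jf j)) * J⌋₊ + x' ∧
      (x' : ℝ) + (C₃ + 1) * (η₀ * J) + 1 ≤ g₀ (ix (jf j)) 2) →
    Tub B' (slam F ⌊o (ix (jf t)) * J⌋₊)
      (aY F c (fun k => ⌊o (ix k) * J⌋₊) (g₀ (ix 0)) (G iF) (fun k => G (ix k)))
      (aX F c (fun k => ⌊o (ix k) * J⌋₊) (g₀ (ix 0)) (G iF) (fun k => G (ix k))) t n' ρ EU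
      (fun k ω => pul c (afr F c (fun k => ⌊o (ix k) * J⌋₊) (G iF) (fun k => G (ix k)) ω)
        ⌊o (ix 0) * J⌋₊ (g₀ (ix 0) 0) (g₀ (ix 0) 1) 0 (G (ix (jf k)) (ptr F J ω) 2))
      (fun ω => pth
        (aY F c (fun k => ⌊o (ix k) * J⌋₊) (g₀ (ix 0)) (G iF) (fun k => G (ix k)) ω)
        (aX F c (fun k => ⌊o (ix k) * J⌋₊) (g₀ (ix 0)) (G iF) (fun k => G (ix k)) ω))
      (fun ω => pul c (afr F c (fun k => ⌊o (ix k) * J⌋₊) (G iF) (fun k => G (ix k)) ω)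
        ⌊o (ix 0) * J⌋₊ (g₀ (ix 0) 0) (g₀ (ix 0) 1) 0
        (TH (ix (jf t)) (slam F ⌊o (ix (jf t)) * J⌋₊ ω) 2)) D₀ δ
      (2 ^ (C * (x' + ⌈(C₁ + C₃ + 1) * (η₀ * J)⌉₊ + 1))) := by
  obtain ⟨C, htub⟩ := tub_ev D hD
  refine ⟨C + 2, by omega, ?_⟩
  intro m J F c r Dr N N₂ R C₁ C₃ a Eb ε₀ η₀ Pt o lv be b κ z B B' gc gT g₀ G H T TH Gt Ht iF n x
    y gx a' y' ix θ W hT ha1 hC₃ hr2 hR0 hR1 hκ hB' hPB' A hE t n' D₀ x' jf ρ EU δ hDD hδ htn hax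
    hxx hjf hρ hEU hnum
  have W' : WG c r D Dr N N₂ R C₁ a Eb ε₀ η₀ Pt o lv be F b (2 * κ) z B' gc gT g₀ G H T TH Gt Ht :=
    W.res hB' (κ₁ := 1 / 2) (by linarith) (by linarith) (by linarith)
  obtain ⟨w, hw⟩ : ∃ w : ℕ → ℕ, w = fun k => ⌊o (ix k) * J⌋₊ := ⟨_, rfl⟩
  have hwe : ∀ k, ⌊o (ix k) * J⌋₊ = w k := fun k => by rw [hw]
  rw [← hw] at A hE hρ ⊢
  have hA0 : ∀ k ≤ n, w 0 ≤ w k := A.ow
  have hrw : ∀ k, Pool.AFF82.rk a' w k ≤ 2 ^ x' * 2 ^ w 0 / 2 ^ w k := by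
    intro k
    unfold Pool.AFF82.rk ru
    rw [← mul_div_assoc]
    exact div_le_div_of_nonneg_right (mul_le_mul_of_nonneg_right (pw_le hax) (by positivity))
      (by positivity)
  have hru : ∀ k, 4 ≤ a' → 2 ^ (6 * a') * ru w k + 2 ^ (5 * a') * ru w k ≤
      2 ^ x' * 2 ^ w 0 / 2 ^ w k := by
    intro k ha
    unfold ru
    have k1 : (2 : ℝ) ^ (5 * a') ≤ 2 ^ (8 * a' - 1) := pw_le (by omega)
    have k2 : (2 : ℝ) ^ (6 * a') ≤ 2 ^ (8 * a' - 1) := pw_le (by omega)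
    have k3 : (2 : ℝ) ^ (8 * a') = 2 * 2 ^ (8 * a' - 1) := by
      rw [← pow_succ']
      congr 1
      omega
    have k4 : (2 : ℝ) ^ (8 * a') ≤ 2 ^ x' := pw_le hax
    have h5 : (0 : ℝ) ≤ 2 ^ w 0 / 2 ^ w k := by positivity
    calc (2 : ℝ) ^ (6 * a') * (2 ^ w 0 / 2 ^ w k) + 2 ^ (5 * a') * (2 ^ w 0 / 2 ^ w k) =
          (2 ^ (5 * a') + 2 ^ (6 * a')) * (2 ^ w 0 / 2 ^ w k) := by ring
      _ ≤ 2 ^ x' * (2 ^ w 0 / 2 ^ w k) := mul_le_mul_of_nonneg_right (by linarith) h5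
      _ = _ := by ring
  obtain ⟨Nf, hNf⟩ : ∃ Nf, Nf = afr F c w (G iF) (fun k => G (ix k)) := ⟨_, rfl⟩
  have key := htub (R := R) (Nf := Nf) W' (hT.sub hB') A.hc ha1 hC₃ hr2 hR0 hR1 (t := t) (n := n')
    (w := w 0) (s0 := g₀ (ix 0) 0) (s1 := g₀ (ix 0) 1) (x := x') (D₀ := D₀)
    (f := fun j => ix (jf j)) (ρ := ρ) (EU := EU) (δ := δ) hDD hδ htn
    (fun j h1 h2 => (hjf j h1 h2).2) (fun ω ω' hω hω' e => by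
      have h1 := (A.fr_clk (hjf t le_rfl htn).1).2 ω ω' hω hω'
      rw [hNf]
      refine h1 ?_
      show slam F (w (jf t)) ω = slam F (w (jf t)) ω'
      rw [← hwe]
      exact e)
    (fun j h1 h2 => ⟨(hρ j h1 h2).1, by
      show ρ j ≤ 2 ^ x' * 2 ^ w 0 / 2 ^ ⌊o (ix (jf j)) * J⌋₊
      rw [hwe]
      exact (hρ j h1 h2).2.trans (hrw _)⟩) hEU
    (fun j h1 h2 ω hω b' hb' => by
      have hj := (hjf j h1 h2).1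
      have hb2 : NBx c (G (ix (jf j)) (ptr F J ω)) (g₀ (ix (jf j))) (w (jf j)) (F.t ω) 2 b' := by
        rw [← hwe]
        exact hb'
      have k1 := ((hE ω hω).2 (jf j) hj).out b' hb2 2
      have k2 := ((hE ω hω).2 (jf j) hj).own 2
      have k3 : afc c (Nf ω) (w 0) (g₀ (ix 0) 0) (g₀ (ix 0) 1) (bt F ω) 2 =
        aY F c w (g₀ (ix 0)) (G iF) (fun k => G (ix k)) ω 2 := by
        rw [hNf]
        rfl
      rw [k3]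
      show |afc c (Nf ω) (w 0) (g₀ (ix 0) 0) (g₀ (ix 0) 1) b' 2 - _| ≤
        2 ^ x' * 2 ^ w 0 / 2 ^ ⌊o (ix (jf j)) * J⌋₊
      rw [hwe, hNf]
      refine le_trans (abs_sub_le _ (aC F c w (g₀ (ix 0)) (G iF) (fun k => G (ix k)) (jf j) ω 2)
        _) ?_
      rw [abs_sub_comm (aC F c w (g₀ (ix 0)) (G iF) (fun k => G (ix k)) (jf j) ω 2)]
      exact (add_le_add k1 k2).trans (hru _ (hE ω hω).1.a4))
    (fun j h1 h2 => by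
      have hj := (hjf j h1 h2).1
      have l0 := A.lv2 (jf j) hj 0 (by norm_num)
      have l1 := A.lv2 (jf j) hj 1 (by norm_num)
      have l2 := A.ow (jf j) hj
      obtain ⟨q1, q2⟩ := hnum j h1 h2
      refine ⟨?_, ?_, q1, q2⟩
      · show g₀ (ix (jf j)) 0 + w 0 ≤ g₀ (ix 0) 0 + ⌊o (ix (jf j)) * J⌋₊ + x'
        rw [hwe]
        have l0' : g₀ (ix (jf j)) 0 ≤ g₀ (ix 0) 0 + (w (jf j) - w 0) + x := l0
        omega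
      · show g₀ (ix (jf j)) 1 + w 0 ≤ g₀ (ix 0) 1 + ⌊o (ix (jf j)) * J⌋₊ + x'
        rw [hwe]
        have l1' : g₀ (ix (jf j)) 1 ≤ g₀ (ix 0) 1 + (w (jf j) - w 0) + x := l1
        omega)
  rw [hNf] at key
  simp only [hwe] at key ⊢
  exact tub_mono key (pw_le (Nat.mul_le_mul_right _ (Nat.le_add_right C 2))) fun j h1 h2 =>
    ⟨(hρ j h1 h2).1, le_trans (by positivity) (hEU j h1 h2)⟩

end Pool.CNC60
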