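import Pool.Agent.H60.CNC.Twg
import Pool.Agent.H60.CNC.Hdy

/-!
# The curved charts, in the affine frame of the windows

`vis_wg`: `vis_ev` for two windows of the list `WG`, on a part `B'` of the event with the data `AfD`,
`AfE`, `AfB` of the affine frame.
-/

set_option autoImplicit false

namespace Pool.CNC60

open Finset Real MvPolynomial
open Pool.Agent.H49.Ent Pool.Agent.H32.Dense Pool.STK Pool.KA Pool.KSAT Pool.K2S Pool.PB Pool.S6C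
open Pool.GEN Pool.CHT Pool.CHX Pool.ISO Pool.D2R Pool.D2G30 Pool.V1E
open Pool.CR99 Pool.AFF82 Pool.CNC76
open Pool.CUB46 (h3)
open Pool.FLF (Fam.sub)
open Pool.PB.Trl (rt rt_mem t_rt)

/-- **The slope of the frame.** -/
theorem a2_le {m J : ℕ} {F : Fam m J} {c : ℕ → Fin m} {n a' y' e u : ℕ} {w s : ℕ → ℕ}
    {g : ℕ → ℕ → ℕ} {P : PtT F → ℕ → MvPolynomial (Option (Fin m)) ℝ}
    {G : ℕ → PtT F → ℕ → MvPolynomial (Option (Fin m)) ℝ} {ω : F.Ω}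
    (E : AfE F c n a' y' w s g P G ω)
    (hl : |eval (bt F ω) (pderiv (some (c 0)) (P (ptr F J ω) 1))| ≤ 2 ^ e) (hs : s 0 ≤ s 1 + u)
    (hue : u ≤ e) : |(afr F c w P G ω).a2| ≤ 2 ^ (e + 1) := by
  have h1 := E.grd (bt F ω) ⟨by
    show |2 ^ w 0 * (F.t ω - F.t ω)| ≤ 3
    rw [sub_self, mul_zero, abs_zero]
    norm_num, by
    have e1 : oln F ω (bt F ω none) = bt F ω := oln_t F ω
    rw [e1, sub_self, mul_zero, abs_zero]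
    positivity⟩ (eu (c 0))
  rw [dd_eu, dd_eu] at h1
  have hn : (eu (c 0) none : ℝ) = 0 := if_neg (by simp)
  have h0 : (eu (c 0) (some (c 0)) : ℝ) = 1 := if_pos rfl
  have e2 : |pl0 (w 0) (eu (c 0))| + |pl1 c (s 0) (afr F c w P G ω).a0 (eu (c 0))| = 2 ^ s 0 := by
    unfold pl0 pl1
    rw [hn, h0, mul_zero, abs_zero, mul_zero, sub_zero, mul_one, zero_add,
      abs_of_pos (by positivity)]
  have e3 : (afr F c w P G ω).a2 = eval (pst F c w G ω) (pderiv (some (c 0)) (P (ptr F J ω) 1)) :=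
    rfl
  rw [e2] at h1
  rw [e3]
  obtain ⟨p, hp⟩ : ∃ p, p = eval (bt F ω) (pderiv (some (c 0)) (P (ptr F J ω) 1)) := ⟨_, rfl⟩
  obtain ⟨q, hq⟩ : ∃ q, q = eval (pst F c w G ω) (pderiv (some (c 0)) (P (ptr F J ω) 1)) :=
    ⟨_, rfl⟩
  rw [← hp, ← hq] at h1
  rw [← hp] at hl
  rw [← hq]
  have h2 : (1 : ℝ) / 2 ^ y' * 2 ^ s 0 ≤ 2 ^ s 1 * 2 ^ u := by
    rw [← pow_add]
    refine le_trans (mul_le_of_le_one_left (by positivity) ?_) (pw_le hs)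
    rw [div_le_one (by positivity)]
    exact one_le_pow₀ (by norm_num)
  have h3 : |p - q| ≤ 2 ^ u := le_of_mul_le_mul_left (h1.trans h2) (by positivity)
  have h4 : (2 : ℝ) ^ u ≤ 2 ^ e := pw_le hue
  have e4 : q = p - (p - q) := by ring
  rw [e4, pow_succ]
  refine (abs_sub _ _).trans ?_
  linarith

/-- **The curved charts**, in the affine frame of the windows. -/
theorem vis_wg (m D D₀ : ℕ) (hD : 1 ≤ D) (hDD : D ≤ D₀) : ∃ C : ℕ, ∀ {J : ℕ} {F : Fam m J}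
    {c : ℕ → Fin m} {r Dr N N₂ : ℕ} {R : ℕ → Prop} {C₁ C₃ a Eb ε₀ η₀ : ℝ} {Pt : ℝ → ℝ → ℝ}
    {o : ℕ → ℝ} {lv be b : ℕ → ℕ → ℝ} {κ : ℝ} {z : ℕ → ℕ → ℕ} {B B' : F.Ω → Prop}
    {gc gT g₀ : ℕ → ℕ → ℕ} {G : ℕ → PtT F → ℕ → MvPolynomial (Option (Fin m)) ℝ}
    {H : ℕ → LnT F → ℕ → MvPolynomial (Option (Fin m)) ℝ}
    {T : ℕ → PtT F → ℕ → MvPolynomial (Option (Fin m)) ℝ}
    {TH : ℕ → LnT F → ℕ → MvPolynomial (Option (Fin m)) ℝ}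
    {Gt : ℕ → PtT F → MvPolynomial (Option (Fin m)) ℝ}
    {Ht : ℕ → LnT F → MvPolynomial (Option (Fin m)) ℝ} {iF n x y gx a' y' : ℕ} {ix : ℕ → ℕ}
    {θ : ℝ},
    WG c r D Dr N N₂ R C₁ a Eb ε₀ η₀ Pt o lv be F b κ z B gc gT g₀ G H T TH Gt Ht →
    TubR F c r N C₃ a η₀ o gc gT g₀ B G H T TH → a ≤ 1 → 0 ≤ C₃ → 2 < r → R 0 → R 1 → 0 ≤ κ →
    Sub B' B → Pe F.p B ≤ 2 * Pe F.p B' → iF ≤ N₂ →
    AfD F c D n ⌊o iF * J⌋₊ x y (fun k => ⌊o (ix k) * J⌋₊) (g₀ (ix 0)) (g₀ iF)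
      (fun k => g₀ (ix k)) gx θ B' (G iF) (H iF) (fun k => G (ix k)) (fun k => H (ix k)) →
    (∀ ω, B' ω → AfE F c n a' y' (fun k => ⌊o (ix k) * J⌋₊) (g₀ (ix 0)) (fun k => g₀ (ix k))
      (G iF) (fun k => G (ix k)) ω ∧ ∀ k ≤ n, AfB F c a' (fun k => ⌊o (ix k) * J⌋₊) (g₀ (ix 0))
        (fun k => g₀ (ix k)) (G iF) (fun k => G (ix k)) k ω) →
    ∀ {x' lam hi lvl DD h Q : ℕ} {jf : ℕ → ℕ} {ρ EU EN : ℕ → ℝ} {S' : Type} {sd : F.Ω → S'}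
      {Yc : F.Ω → Fin 3 → ℝ} {ctr : ℕ → F.Ω → Fin 3 → ℝ}
      {Ph : ℕ → F.Ω → MvPolynomial (Fin 3) ℝ} {cs : ℕ → F.Ω → ℝ} {κc η c₀ Tc s θt : ℝ},
    8 * a' ≤ x' → x ≤ x' → (∀ j ≤ 1, jf j ≤ n ∧ ix (jf j) ≤ N) →
    o (ix (jf 0)) ≤ o (ix (jf 1)) →
    (∀ j ≤ 1, ρ j = Pool.AFF82.rk a' (fun k => ⌊o (ix k) * J⌋₊) (jf j)) →
    (∀ j ≤ 1, 1 / 2 ^ g₀ (ix (jf j)) 2 ≤ EU j ∧ EU j ≤ 2 ^ x' / 2 ^ g₀ (ix (jf j)) 2) →
    (∀ j ≤ 1, g₀ (ix (jf j)) 2 + ⌊a * J⌋₊ ≤ gT (ix (jf 0)) 2 + ⌊o (ix (jf j)) * J⌋₊ + x' ∧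
      (x' : ℝ) + (C₃ + 1) * (η₀ * J) + 1 ≤ g₀ (ix (jf j)) 2) →
    Pool.CNC76.Chn F.p B' (ptr F J) (fun k => slam F ⌊o (ix (jf k)) * J⌋₊) sd
      (aY F c (fun k => ⌊o (ix k) * J⌋₊) (g₀ (ix 0)) (G iF) (fun k => G (ix k))) Yc
      (aX F c (fun k => ⌊o (ix k) * J⌋₊) (g₀ (ix 0)) (G iF) (fun k => G (ix k))) 1 ctr ρ EU EN
      (fun k ω => pul c (afr F c (fun k => ⌊o (ix k) * J⌋₊) (G iF) (fun k => G (ix k)) ω)
        ⌊o (ix 0) * J⌋₊ (g₀ (ix 0) 0) (g₀ (ix 0) 1) 0 (G (ix (jf k)) (ptr F J ω) 2))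
      Ph cs D₀ DD h Q κc η c₀ Tc s → 2 * D₀ ≤ DD → 1 ≤ Tc → Tc ≤ 2 ^ x' → 2 * κc ≤ 1 →
    0 ≤ θt → (∀ (A : F.Ω → Prop) (hA : 0 < Pe F.p A), (∀ ω, A ω → B' ω) →
      Pe F.p B' ≤ 8 * Pe F.p A → (Fam.sub F A hA).Tm θt) →
    C * (θt + 1) ≤ ((J : ℝ) - ⌊o (ix (jf 0)) * J⌋₊) * Real.log 2 →
    (∀ E : F.Ω → Prop, (∀ ω, E ω → B' ω) → Pe F.p B' ≤ 32 * Pe F.p E → ∀ (V : Type)
      (z : F.Ω → V), Clo E (ptr F J) (slam F ⌊o (ix (jf 0)) * J⌋₊) z → Real.log 3 <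
      CH (Pool.Agent.H49.Ent.cond F.p E True) (fun ω => F.D lvl ω (c 2)) (fun ω =>
        (z ω, F.T ω, (fun l : Fin 2 => F.X hi ω (c l)), fun l : Fin 2 => F.D hi ω (c l)))) →
    (∀ l < 2, g₀ (ix (jf 1)) l ≤ g₀ (ix (jf 1)) 2 + x') → g₀ iF 0 ≤ g₀ iF 1 + x' →
    g₀ (ix 0) 0 ≤ g₀ (ix 0) 1 + x' → 2 * ⌊(Eb + η₀ + η₀) * J⌋₊ + 2 * x' + lvl + 4 ≤ hi →
    2 * ⌊o (ix (jf 1)) * J⌋₊ + lam + g₀ (ix (jf 0)) 2 +
        C * (x' + h + ⌈(C₁ + C₃ + 1) * (η₀ * J)⌉₊ + ⌈θt⌉₊ + 1) ≤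
      g₀ (ix (jf 1)) 2 + 2 * ⌊o (ix (jf 0)) * J⌋₊ →
    lvl + ⌊o (ix (jf 0)) * J⌋₊ +
        C * (x' + h + ⌈(C₁ + C₃ + 1) * (η₀ * J)⌉₊ + ⌈θt⌉₊ + 1) ≤
      lam + g₀ (ix (jf 0)) 2 →
    ∃ B'' : F.Ω → Prop, (∀ ω, B'' ω → B' ω) ∧ Pe F.p B' ≤ 2 * Pe F.p B'' ∧
      ∀ ω, B'' ω → ∃ i j, EU 0 / (2 ^ lam * ρ 0 ^ 2) <
        |h3 (pul c (afr F c (fun k => ⌊o (ix k) * J⌋₊) (G iF) (fun k => G (ix k)) ω)
          ⌊o (ix 0) * J⌋₊ (g₀ (ix 0) 0) (g₀ (ix 0) 1) 0 (G (ix (jf 1)) (ptr F J ω) 2))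
          (aY F c (fun k => ⌊o (ix k) * J⌋₊) (g₀ (ix 0)) (G iF) (fun k => G (ix k)) ω) i j| := by
  obtain ⟨Ct, hCt, htub⟩ := tub_wg D hD
  obtain ⟨Cv, hCv, hvis⟩ := vis_ev D₀
  obtain ⟨Cm, hCm, htm⟩ := tmf_ev m (D₀ * D₀)
  obtain ⟨cv, hcv⟩ := pow_unbounded_of_one_lt (28 * Cv) (one_lt_two (α := ℝ))
  refine ⟨Ct + 2 * Cm + cv + 8, ?_⟩
  intro J F c r Dr N N₂ R C₁ C₃ a Eb ε₀ η₀ Pt o lv be b κ z B B' gc gT g₀ G H T TH Gt Ht iF n x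
    y gx a' y' ix θ W hT ha1 hC₃ hr2 hR0 hR1 hκ hB' hPB' hiF A hE x' lam hi lvl DD h Q jf ρ EU EN
    S' sd Yc ctr Ph cs κc η c₀ Tc s θt hax hxx hjf hoo hρ hEU hnum hch hDD2 hT1 hTx hκc hθt hTm
    hJt hal hg1 hgF hg0 hhi hn1 hn2
  obtain ⟨Y, hY⟩ : ∃ Y, Y = ⌈(C₁ + C₃ + 1) * (η₀ * J)⌉₊ := ⟨_, rfl⟩
  obtain ⟨θn, hθn⟩ : ∃ θn, θn = ⌈θt⌉₊ := ⟨_, rfl⟩
  obtain ⟨e, he⟩ : ∃ e, e = ⌊(Eb + η₀ + η₀) * J⌋₊ := ⟨_, rfl⟩
  rw [← hY, ← hθn] at hn1 hn2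
  rw [← he] at hhi
  obtain ⟨E₁, hE₁⟩ : ∃ E₁, E₁ = x' + h + Y + θn + 1 := ⟨_, rfl⟩
  rw [← hE₁] at hn1 hn2
  obtain ⟨w, hw⟩ : ∃ w : ℕ → ℕ, w = fun k => ⌊o (ix k) * J⌋₊ := ⟨_, rfl⟩
  have hwe : ∀ k, ⌊o (ix k) * J⌋₊ = w k := fun k => by rw [hw]
  have htub' := htub (R := R) W hT ha1 hC₃ hr2 hR0 hR1 hκ hB' hPB' A hE (t := 0) (n' := 1)
    (D₀ := D₀) (x' := x') (jf := jf) (ρ := ρ) (EU := EU) (δ := 0) hDD le_rfl (by norm_num) hax hxx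
    (fun j _ h2 => ⟨(hjf j h2).1, (hjf j h2).2, by
      rcases Nat.le_one_iff_eq_zero_or_eq_one.1 h2 with rfl | rfl
      · exact le_rfl
      · exact hoo⟩)
    (fun j _ h2 => ⟨by rw [hρ j h2]; exact rk_pos _ _ _, (hρ j h2).le⟩)
    (fun j _ h2 => (hEU j h2).1) (fun j _ h2 => hnum j h2)
  rw [← hY] at htub'
  have hW1 := W.vel (ix (jf 1)) ((hjf 1 le_rfl).2.trans W.nn)
  have hWb := (W.wb.ev (ix (jf 1)) ((hjf 1 le_rfl).2.trans W.nn)).ball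
  have hWF := (W.wb.ev iF hiF).ball
  rw [← he] at hWb hWF
  simp only [hwe] at A hE hρ hnum hch hal hn1 hn2 htub' hJt hWb hW1 ⊢
  have hJ0 : (0 : ℝ) ≤ J := Nat.cast_nonneg J
  have hc10 : c 1 ≠ c 0 := A.c10
  have hj0 := (hjf 0 (by norm_num)).1
  have hj1 := (hjf 1 le_rfl).1
  have hwJ : w (jf 0) ≤ J := A.wJ (jf 0) hj0
  have hw0 : w 0 ≤ w (jf 0) := A.ow (jf 0) hj0
  have hw1 : w 0 ≤ w (jf 1) := A.ow (jf 1) hj1
  have hp0 := F.isLaw.nonneg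
  have hB'0 : 0 < Pe F.p B' := (hch.bll 0 (by norm_num)).pos
  -- the numbers
  have hρ0 : ρ 0 = 2 ^ (8 * a') * (2 ^ w 0 / 2 ^ w (jf 0)) := hρ 0 (by norm_num)
  have hρ1 : ρ 1 = 2 ^ (8 * a') * (2 ^ w 0 / 2 ^ w (jf 1)) := hρ 1 le_rfl
  have hρ0p : 0 < ρ 0 := by rw [hρ0]; positivity
  have hρ1p : 0 < ρ 1 := by rw [hρ1]; positivity
  obtain ⟨hU0, hU0'⟩ := hEU 0 (by norm_num)
  obtain ⟨hU1, hU1'⟩ := hEU 1 le_rfl
  have hU0p : 0 < EU 0 := lt_of_lt_of_le (by positivity) hU0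
  have hU1p : 0 < EU 1 := lt_of_lt_of_le (by positivity) hU1
  obtain ⟨ε, hε⟩ : ∃ ε, ε = EU 0 / (2 ^ lam * ρ 0 ^ 2) := ⟨_, rfl⟩
  have hεp : 0 < ε := by rw [hε]; positivity
  obtain ⟨h₁, hh₁⟩ : ∃ h₁, h₁ = Cm * (8 * a' + 1 + θn + 1) := ⟨_, rfl⟩
  obtain ⟨s₁, hs₁⟩ : ∃ s₁ : ℝ, s₁ = 2 ^ (Ct * (x' + Y + 1)) := ⟨_, rfl⟩
  rw [← hs₁] at htub'
  obtain ⟨dl, hdl⟩ : ∃ dl : ℝ, dl = Cv * Tc ^ 2 * 2 ^ (h + h₁) * ρ 0 * ε := ⟨_, rfl⟩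
  have hCE : (Ct + 2 * Cm + cv + 8) * E₁ = Ct * E₁ + 2 * (Cm * E₁) + cv * E₁ + 8 * E₁ := by ring
  rw [hCE] at hn1 hn2
  have hE1 : 1 ≤ E₁ := by omega
  have k1 : Ct * (x' + Y + 1) ≤ Ct * E₁ := Nat.mul_le_mul_left _ (by omega)
  have k2 : h₁ ≤ 2 * (Cm * E₁) := by
    rw [hh₁]
    have : Cm * (8 * a' + 1 + θn + 1) ≤ Cm * (2 * E₁) := Nat.mul_le_mul_left _ (by omega)
    linarith
  have k3 : cv ≤ cv * E₁ := Nat.le_mul_of_pos_right _ hE1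
  -- the growth in time
  have hθr : (Cm : ℝ) * (θt + 1) ≤ ((J : ℝ) - w (jf 0)) * Real.log 2 := by
    refine le_trans (mul_le_mul_of_nonneg_right ?_ (by linarith)) hJt
    have : (0 : ℝ) ≤ Ct := Nat.cast_nonneg _
    have : (0 : ℝ) ≤ Cm := Nat.cast_nonneg _
    have : (0 : ℝ) ≤ cv := Nat.cast_nonneg _
    push_cast
    linarith
  have htmf := htm (F := F) (c := c) (B := B') (a := w (jf 0)) (w := w 0) (s0 := g₀ (ix 0) 0)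
    (s1 := g₀ (ix 0) 1) (x := 8 * a' + 1) (Nf := afr F c w (G iF) (fun k => G (ix k)))
    (κ := 1 / 8) (θ := θt) (R := 2 * ρ 0) hwJ (fun ω ω' hω hω' ee => (A.fr_clk hj0).2 ω ω' hω hω' ee)
    (by norm_num) hB'0 hθt (fun A' hA' hs hP => hTm A' hA' hs (by linarith)) hθr (by
      rw [hρ0, pow_succ]
      refine le_of_eq ?_
      ring)
  rw [← hθn, ← hh₁] at htmf
  have hlip1 : ∀ ω, B' ω → ∀ l < 2, |eval (bt F ω) (pderiv (some (c l))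
      (G (ix (jf 1)) (ptr F J ω) 2))| ≤ 2 ^ (e + x') := by
    intro ω hω l hl
    refine (hWb.lip ω (hB' ω hω) 2 (by omega) (bt F ω) ?_ l hl).trans (pw_le ?_)
    · exact A.btn hj1 hω
    · have h1 : nlp (g₀ (ix (jf 1))) l 2 ≤ x' := by
        unfold nlp
        rw [Nat.sub_le_iff_le_add, Finset.sup_le_iff]
        intro i hi
        rw [Finset.mem_Icc] at hi
        by_cases h2 : i = 2
        · subst h2
          omega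
        · have := hg1 i (by omega)
          omega
      omega
  have ha2 : ∀ ω, B' ω → |(afr F c w (G iF) (fun k => G (ix k)) ω).a2| ≤ 2 ^ (e + x' + 1) := by
    intro ω hω
    refine a2_le (hE ω hω).1 ?_ hg0 (Nat.le_add_left x' e)
    refine (hWF.lip ω (hB' ω hω) 1 (by omega) (bt F ω) ?_ 0 (by norm_num)).trans (pw_le ?_)
    · refine ⟨?_, fun l hl => hWF.pos ω (hB' ω hω) l (by omega)⟩
      show |F.t ω - F.t ω| ≤ _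
      rw [sub_self, abs_zero]
      positivity
    · have h1 : nlp (g₀ iF) 0 1 ≤ x' := by
        unfold nlp
        rw [Nat.sub_le_iff_le_add, Finset.sup_le_iff]
        intro i hi
        rw [Finset.mem_Icc] at hi
        by_cases h2 : i = 1
        · subst h2
          omega
        · have : i = 0 := by omega
          subst this
          omega
      omega
  obtain ⟨Λ, hΛ⟩ : ∃ Λ, Λ = (e + x') + (e + x' + 1) + 1 := ⟨_, rfl⟩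
  have hs1p : 0 < s₁ := by rw [hs₁]; positivity
  have hY1 : ⌊C₁ * (η₀ * J)⌋₊ ≤ Y := by
    rw [hY]
    refine Nat.floor_le_of_le (le_trans ?_ (Nat.le_ceil _))
    have h1 := (W.win.hη (ix (jf 0)) (hjf 0 (by norm_num)).2).1
    have h2 : 0 ≤ η₀ * J := mul_nonneg h1 hJ0
    have h3 : C₁ * (η₀ * J) ≤ (C₁ + C₃ + 1) * (η₀ * J) :=
      mul_le_mul_of_nonneg_right (by linarith) h2
    exact h3
  have res := hvis (c := c) (N := afr F c w (G iF) (fun k => G (ix k))) (o := w 0)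
    (s0 := g₀ (ix 0) 0) (s1 := g₀ (ix 0) 1) (w := fun k => w (jf k)) (κ₁ := 1 / 8) (s₁ := s₁)
    (ε := ε) (dl := dl) (hi := hi) (lvl := lvl) (Λ := Λ) hch htub' htmf (A.fr_clk hj0) hwJ hDD2
    hT1 hκc (by norm_num) (by
      rw [hρ0]
      have h1 : (1 : ℝ) ≤ 2 ^ (8 * a') := one_le_pow₀ (by norm_num)
      have h2 : (0 : ℝ) < 2 ^ w 0 / 2 ^ w (jf 0) := by positivity
      have h3 := mul_le_mul_of_nonneg_right h1 h2.le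
      rw [one_mul] at h3
      linarith) (fun ω hω => by
      have h1 := hW1 ω ω (hB' ω hω) (hB' ω hω) rfl 2 (by omega)
      refine (vel_fr (N := afr F c w (G iF) (fun k => G (ix k)) ω) (o := w 0)
        (s0 := g₀ (ix 0) 0) (s1 := g₀ (ix 0) 1) A.hc (hWb.depG _ 2) h1).trans ?_
      rw [hρ1, hs₁, div_le_div_iff₀ (by positivity) (by positivity)]
      have h2 : (1 : ℝ) ≤ EU 1 * 2 ^ g₀ (ix (jf 1)) 2 := by
        rwa [div_le_iff₀ (by positivity)] at hU1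
      have h3 : (2 : ℝ) ^ (⌊C₁ * (η₀ * J)⌋₊ + 1) * 2 ^ (8 * a') ≤ 2 ^ (Ct * (x' + Y + 1)) := by
        rw [← pow_add]
        refine pw_le ?_
        have h4 : 2 * (x' + Y + 1) ≤ Ct * (x' + Y + 1) := Nat.mul_le_mul_right _ hCt
        omega
      have h5 : (0 : ℝ) < 2 ^ w (jf 1) := by positivity
      calc (2 : ℝ) ^ (⌊C₁ * (η₀ * J)⌋₊ + 1) * 2 ^ w (jf 1) / 2 ^ g₀ (ix (jf 1)) 2 *
            (2 ^ (8 * a') * (2 ^ w 0 / 2 ^ w (jf 1))) =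
            (2 ^ (⌊C₁ * (η₀ * J)⌋₊ + 1) * 2 ^ (8 * a')) * (1 / 2 ^ g₀ (ix (jf 1)) 2) *
              2 ^ w 0 := by
              field_simp
        _ ≤ 2 ^ (Ct * (x' + Y + 1)) * EU 1 * 2 ^ w 0 :=
              mul_le_mul_of_nonneg_right (mul_le_mul h3 hU1 (by positivity) (by positivity))
                (by positivity)) (fun ω hω => by
      rw [hΛ]
      exact grd_fr2 A.hc (hWb.depG _ 2) (hlip1 ω hω 0 (by norm_num)) (hlip1 ω hω 1 (by norm_num))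
        (ha2 ω hω)) (by
      -- the tube against the visibility
      rw [hε, hρ0, hρ1, hs₁, div_le_div_iff₀ (by positivity) (by positivity)]
      obtain ⟨A0, hA0⟩ : ∃ A0 : ℝ, A0 = (2 ^ (8 * a') * 2 ^ w 0) ^ 2 := ⟨_, rfl⟩
      have hA0p : 0 < A0 := by rw [hA0]; positivity
      have e0 : ∀ v : ℕ, ((2 : ℝ) ^ (8 * a') * (2 ^ w 0 / 2 ^ v)) ^ 2 = A0 / 2 ^ (2 * v) := by
        intro v
        have e3 : ((2 : ℝ) ^ v) ^ 2 = 2 ^ (2 * v) := by rw [← pow_mul, mul_comm]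
        rw [hA0, ← mul_div_assoc, div_pow, e3]
      have e1 := e0 (w (jf 0))
      have e2 := e0 (w (jf 1))
      rw [e1, e2]
      have h6 : (2 : ℝ) ^ (Ct * (x' + Y + 1)) * 2 ^ x' * 2 ^ lam * (2 ^ g₀ (ix (jf 0)) 2 *
          2 ^ (2 * w (jf 1))) ≤ 2 ^ g₀ (ix (jf 1)) 2 * 2 ^ (2 * w (jf 0)) := by
        rw [← pow_add, ← pow_add, ← pow_add, ← pow_add, ← pow_add]
        exact pw_le (by omega)
      calc (2 : ℝ) ^ (Ct * (x' + Y + 1)) * EU 1 * (2 ^ lam * (A0 / 2 ^ (2 * w (jf 0)))) ≤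
            2 ^ (Ct * (x' + Y + 1)) * (2 ^ x' / 2 ^ g₀ (ix (jf 1)) 2) *
              (2 ^ lam * (A0 / 2 ^ (2 * w (jf 0)))) :=
            mul_le_mul_of_nonneg_right (mul_le_mul_of_nonneg_left hU1' (by positivity))
              (by positivity)
        _ = A0 * (2 ^ (Ct * (x' + Y + 1)) * 2 ^ x' * 2 ^ lam /
              (2 ^ g₀ (ix (jf 1)) 2 * 2 ^ (2 * w (jf 0)))) := by
            field_simp
        _ ≤ A0 * (1 / (2 ^ g₀ (ix (jf 0)) 2 * 2 ^ (2 * w (jf 1)))) := by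
            refine mul_le_mul_of_nonneg_left ?_ hA0p.le
            rw [div_le_div_iff₀ (by positivity) (by positivity), one_mul]
            exact h6
        _ = 1 / 2 ^ g₀ (ix (jf 0)) 2 * (A0 / 2 ^ (2 * w (jf 1))) := by
            field_simp
        _ ≤ EU 0 * (A0 / 2 ^ (2 * w (jf 1))) :=
            mul_le_mul_of_nonneg_right hU0 (by positivity)) hεp (by rw [hdl]) (by
      rw [hdl, hε]
      have h7 : Tc ^ 3 ≤ 2 ^ (3 * x') := by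
        have h8 := pow_le_pow_left₀ (by linarith : (0 : ℝ) ≤ Tc) hTx 3
        refine h8.trans (le_of_eq ?_)
        rw [← pow_mul, mul_comm]
      have h9 : (1 : ℝ) ≤ 2 ^ (8 * a') := one_le_pow₀ (by norm_num)
      have e1 : (2 : ℝ) ^ w 0 * (28 * (Tc * (Cv * Tc ^ 2 * 2 ^ (h + h₁) * ρ 0 *
          (EU 0 / (2 ^ lam * ρ 0 ^ 2))))) = (28 * Cv) * Tc ^ 3 * 2 ^ (h + h₁) * EU 0 *
            (2 ^ w 0 / ρ 0) / 2 ^ lam := by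
        field_simp
      have e2 : (2 : ℝ) ^ w 0 / ρ 0 = 2 ^ w (jf 0) / 2 ^ (8 * a') := by
        rw [hρ0]
        field_simp
      have e3 : (2 : ℝ) ^ w (jf 0) / 2 ^ (8 * a') ≤ 2 ^ w (jf 0) :=
        div_le_self (by positivity) h9
      rw [e1, e2, div_le_div_iff₀ (by positivity) (by positivity), one_mul]
      have h10 : (2 : ℝ) ^ cv * 2 ^ (3 * x') * 2 ^ (h + h₁) * (2 ^ x' / 2 ^ g₀ (ix (jf 0)) 2) *
          2 ^ w (jf 0) * 2 ^ lvl ≤ 2 ^ lam := by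
        have e4 : (2 : ℝ) ^ cv * 2 ^ (3 * x') * 2 ^ (h + h₁) * (2 ^ x' / 2 ^ g₀ (ix (jf 0)) 2) *
            2 ^ w (jf 0) * 2 ^ lvl = 2 ^ (cv + 3 * x' + (h + h₁) + x' + w (jf 0) + lvl) /
              2 ^ g₀ (ix (jf 0)) 2 := by
          rw [pow_add, pow_add, pow_add, pow_add, pow_add]
          ring
        rw [e4, div_le_iff₀ (by positivity), ← pow_add]
        exact pw_le (by omega)
      refine le_trans (mul_le_mul_of_nonneg_right ?_ (by positivity)) h10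
      have q1 : 28 * Cv * Tc ^ 3 ≤ 2 ^ cv * 2 ^ (3 * x') :=
        mul_le_mul hcv.le h7 (by positivity) (by positivity)
      have q2 : 28 * Cv * Tc ^ 3 * 2 ^ (h + h₁) ≤ 2 ^ cv * 2 ^ (3 * x') * 2 ^ (h + h₁) :=
        mul_le_mul_of_nonneg_right q1 (by positivity)
      have q3 := mul_le_mul q2 hU0' hU0p.le (by positivity)
      exact mul_le_mul q3 e3 (by positivity) (by positivity)) (by omega) hal
  rw [hε] at res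
  exact res

end Pool.CNC60
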